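import Pool.Agent.Helper311_CD.Emb

set_option autoImplicit false

namespace Pool.Agent.Helper311_CD

open Set Matroid H211.MC

/-- ground set: four copies of every class except the two classes `6, 7` -/
def E0 : Set ℕ := {n | n < 128 ∧ (n / 4 = 6 → n = 24) ∧ (n / 4 = 7 → n = 28)}

/-- the counterexample -/
noncomputable def Mb : Matroid ℕ := (Mhat.comap (fun n => n / 4)).restrict E0

lemma Mb_indep {I : Set ℕ} : Mb.Indep I ↔
    (Mhat.Indep ((fun n => n / 4) '' I) ∧ InjOn (fun n => n / 4) I) ∧ I ⊆ E0 := by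
  unfold Mb
  rw [restrict_indep_iff, comap_indep_iff]

lemma E0_finite : E0.Finite := (Set.finite_lt_nat 128).subset (fun _ h => h.1)

lemma Mb_ground : Mb.E = E0 := rfl

/-- `N` contains `Mb` as a restriction -/
structure Ctx (N : Matroid ℕ) : Prop where
  sub : E0 ⊆ N.E
  res : N.restrict E0 = Mb

/-- a system of representatives -/
def IsRep (ρ : ℕ → ℕ) : Prop := ∀ q ∈ Finset.range 32, ρ q / 4 = q ∧ ρ q ∈ E0

lemma IsRep.six {ρ : ℕ → ℕ} (h : IsRep ρ) : ρ 6 = 24 := (h 6 (by decide)).2.2.1 (h 6 (by decide)).1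

lemma IsRep.seven {ρ : ℕ → ℕ} (h : IsRep ρ) : ρ 7 = 28 :=
  (h 7 (by decide)).2.2.2 (h 7 (by decide)).1

lemma Ctx.emb {N : Matroid ℕ} (h : Ctx N) {ρ : ℕ → ℕ} (hρ : IsRep ρ) : Emb N ρ where
  inj q hq q' hq' hqq := by rw [← (hρ q hq).1, ← (hρ q' hq').1, hqq]
  mem q hq := h.sub (hρ q hq).2
  ind Y hY := by
    have hsub : ρ '' ↑Y ⊆ E0 := by
      rintro _ ⟨q, hq, rfl⟩
      exact (hρ q (hY (by simpa using hq))).2
    have him : (fun n => n / 4) '' (ρ '' (↑Y : Set ℕ)) = ↑Y := by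
      ext x
      simp only [mem_image, Finset.mem_coe]
      constructor
      · rintro ⟨_, ⟨q, hq, rfl⟩, rfl⟩
        rw [(hρ q (hY hq)).1]; exact hq
      · intro hx
        exact ⟨ρ x, ⟨x, hx, rfl⟩, (hρ x (hY hx)).1⟩
    have hinj : InjOn (fun n => n / 4) (ρ '' (↑Y : Set ℕ)) := by
      rintro _ ⟨q, hq, rfl⟩ _ ⟨q', hq', rfl⟩ hqq
      simp only [Finset.mem_coe] at hq hq' hqq
      rw [(hρ q (hY hq)).1, (hρ q' (hY hq')).1] at hqq
      rw [hqq]
    have e1 : N.Indep (ρ '' ↑Y) ↔ (N.restrict E0).Indep (ρ '' ↑Y) := by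
      rw [restrict_indep_iff]; exact ⟨fun h => ⟨h, hsub⟩, fun h => h.1⟩
    rw [e1, h.res, Mb_indep, him, Mhat_indep]
    exact ⟨fun h => h.1.1, fun h => ⟨⟨h, hinj⟩, hsub⟩⟩

lemma single_indep : ∀ q ∈ Finset.range 32, HIndep {q} := by decide

lemma E0_class {z : ℕ} (hz : z ∈ E0) : z / 4 ∈ Finset.range 32 := by
  rw [Finset.mem_range]
  have := hz.1
  omega

lemma Mb_twin {z z' : ℕ} (hz : z ∈ E0) (hz' : z' ∈ E0) (hne : z' ≠ z) (hc : z / 4 = z' / 4) :
    Twin Mb z z' := by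
  refine ⟨hne, ?_⟩
  have hs : ∀ w ∈ E0, Mb.Indep {w} := by
    intro w hw
    rw [Mb_indep]
    refine ⟨⟨?_, injOn_singleton _ _⟩, by simpa using hw⟩
    rw [image_singleton]
    have := (Mhat_indep {w / 4}).2 (single_indep _ (E0_class hw))
    simpa using this
  rw [isCircuit_iff_dep_forall_sdiff_singleton_indep]
  refine ⟨⟨fun h => ?_, ?_⟩, ?_⟩
  · rw [Mb_indep] at h
    exact hne (h.1.2 (by simp) (by simp) hc).symm
  · intro w hw
    rcases hw with rfl | hw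
    · exact hz
    · rw [mem_singleton_iff] at hw; rw [hw]; exact hz'
  · intro w hw
    rcases hw with rfl | hw
    · refine (hs z' hz').subset ?_
      intro v hv
      rcases hv.1 with h | h
      · exact absurd h hv.2
      · exact h
    · rw [mem_singleton_iff] at hw
      subst hw
      refine (hs z hz).subset ?_
      intro v hv
      rcases hv.1 with h | h
      · exact h
      · exact absurd h hv.2

lemma Ctx.twin {N : Matroid ℕ} (h : Ctx N) {z z' : ℕ} (hz : z ∈ E0) (hz' : z' ∈ E0)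
    (hne : z' ≠ z) (hc : z / 4 = z' / 4) : Twin N z z' := by
  have h1 := Mb_twin hz hz' hne hc
  rw [← h.res] at h1
  exact ⟨hne, ((restrict_isCircuit_iff h.sub).1 h1.2).1⟩

lemma mem_E0_of {q r : ℕ} (hq : q ∈ Finset.range 32) (h6 : q ≠ 6) (h7 : q ≠ 7) (hr : r < 4) :
    4 * q + r ∈ E0 ∧ (4 * q + r) / 4 = q := by
  rw [Finset.mem_range] at hq
  have e : (4 * q + r) / 4 = q := by omega
  refine ⟨⟨by omega, ?_, ?_⟩, e⟩
  · rw [e]; intro h; exact absurd h h6
  · rw [e]; intro h; exact absurd h h7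

lemma exists_copy (X : Finset ℕ) (hX : X.card ≤ 3) (q : ℕ) : ∃ r < 4, 4 * q + r ∉ X := by
  by_contra hcon
  push Not at hcon
  have hsub : ({4 * q + 0, 4 * q + 1, 4 * q + 2, 4 * q + 3} : Finset ℕ) ⊆ X := by
    intro x hx
    simp only [Finset.mem_insert, Finset.mem_singleton] at hx
    rcases hx with rfl | rfl | rfl | rfl
    · exact hcon 0 (by omega)
    · exact hcon 1 (by omega)
    · exact hcon 2 (by omega)
    · exact hcon 3 (by omega)
  have h1 := Finset.card_le_card hsub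
  have h2 : ({4 * q + 0, 4 * q + 1, 4 * q + 2, 4 * q + 3} : Finset ℕ).card = 4 := by
    rw [Finset.card_insert_of_notMem, Finset.card_insert_of_notMem, Finset.card_insert_of_notMem,
      Finset.card_singleton]
    · simp only [Finset.mem_singleton]; omega
    · simp only [Finset.mem_insert, Finset.mem_singleton]; omega
    · simp only [Finset.mem_insert, Finset.mem_singleton]; omega
  omega

lemma exists_rep (X : Finset ℕ) (hX : X.card ≤ 3) :
    ∃ ρ, IsRep ρ ∧ ∀ q ∈ Finset.range 32, q ≠ 6 → q ≠ 7 → ρ q ∉ X := by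
  choose r hr4 hrX using exists_copy X hX
  refine ⟨fun q => if q = 6 then 24 else if q = 7 then 28 else 4 * q + r q, ?_, ?_⟩
  · intro q hq
    by_cases h6 : q = 6
    · subst h6; simp [E0]
    · by_cases h7 : q = 7
      · subst h7; simp [E0]
      · simp only [h6, h7, if_false]
        exact ⟨(mem_E0_of hq h6 h7 (hr4 q)).2, (mem_E0_of hq h6 h7 (hr4 q)).1⟩
  · intro q hq h6 h7
    simp only [h6, h7, if_false]
    exact hrX q

lemma exists_rep_through (X : Finset ℕ) (hX : X.card ≤ 3) {z : ℕ} (hz : z ∈ E0) (hzX : z ∉ X) :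
    ∃ ρ, IsRep ρ ∧ ρ (z / 4) = z ∧ ∀ q ∈ Finset.range 32, q ≠ 6 → q ≠ 7 → ρ q ∉ X := by
  obtain ⟨ρ, h1, h2⟩ := exists_rep X hX
  refine ⟨Function.update ρ (z / 4) z, ?_, by simp, ?_⟩
  · intro q hq
    by_cases h : q = z / 4
    · subst h; simp [hz]
    · rw [Function.update_of_ne h]; exact h1 q hq
  · intro q hq h6 h7
    by_cases h : q = z / 4
    · subst h; simpa using hzX
    · rw [Function.update_of_ne h]; exact h2 q hq h6 h7

lemma exists_twin (X : Finset ℕ) (hX : X.card ≤ 2) {z : ℕ} (hz : z ∈ E0)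
    (h6 : z / 4 ≠ 6) (h7 : z / 4 ≠ 7) :
    ∃ z' ∈ E0, z' / 4 = z / 4 ∧ z' ≠ z ∧ z' ∉ X := by
  obtain ⟨r, hr, hrX⟩ := exists_copy (insert z X) ((Finset.card_insert_le _ _).trans (by omega))
    (z / 4)
  have h := mem_E0_of (E0_class hz) h6 h7 hr
  exact ⟨_, h.1, h.2, fun h' => hrX (Finset.mem_insert.2 (Or.inl h')),
    fun h' => hrX (Finset.mem_insert.2 (Or.inr h'))⟩

/-- context for the last three levels -/
structure S4 (N : Matroid ℕ) (ρ : ℕ → ℕ) : Prop where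
  emb : Emb N ρ
  tw : ∀ q ∈ Finset.range 32, q ≠ 6 → q ≠ 7 → ∃ z', Twin N (ρ q) z' ∧ z' ≠ ρ 6 ∧ z' ≠ ρ 7

lemma Emb.delete {N : Matroid ℕ} {ρ : ℕ → ℕ} (h : Emb N ρ) {X : Set ℕ}
    (hX : ∀ q ∈ Finset.range 32, ρ q ∉ X) : Emb (N.delete X) ρ where
  inj := h.inj
  mem q hq := ⟨h.mem q hq, hX q hq⟩
  ind Y hY := by
    rw [← h.ind Y hY, delete_indep_iff]
    refine ⟨fun h => h.1, fun h => ⟨h, ?_⟩⟩
    rw [Set.disjoint_left]
    rintro _ ⟨q, hq, rfl⟩
    exact hX q (hY (by simpa using hq))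

lemma S4_of {N : Matroid ℕ} (h : Ctx N) (X : Finset ℕ) (hX : X.card ≤ 2) (h6 : 24 ∉ X)
    (h7 : 28 ∉ X) {ρ : ℕ → ℕ} (hρ : IsRep ρ)
    (hρX : ∀ q ∈ Finset.range 32, q ≠ 6 → q ≠ 7 → ρ q ∉ X) : S4 (N.delete ↑X) ρ := by
  have hall : ∀ q ∈ Finset.range 32, ρ q ∉ X := by
    intro q hq
    by_cases h6' : q = 6
    · rw [h6', hρ.six]; exact h6
    · by_cases h7' : q = 7
      · rw [h7', hρ.seven]; exact h7
      · exact hρX q hq h6' h7'
  refine ⟨(h.emb hρ).delete (by simpa using hall), ?_⟩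
  intro q hq hq6 hq7
  obtain ⟨e1, e2⟩ := hρ q hq
  obtain ⟨z', hz', hzc, hne, hzX⟩ := exists_twin X hX e2 (by rw [e1]; exact hq6)
    (by rw [e1]; exact hq7)
  refine ⟨z', ⟨hne, ?_⟩, ?_, ?_⟩
  · rw [delete_isCircuit_iff]
    refine ⟨(h.twin e2 hz' hne hzc.symm).2, ?_⟩
    rw [Set.disjoint_left]
    intro w hw
    rcases hw with rfl | hw
    · simpa using hall q hq
    · rw [mem_singleton_iff] at hw; rw [hw]; simpa using hzX
  · rintro rfl
    rw [e1, (hρ 6 (by decide)).1] at hzc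
    exact hq6 hzc.symm
  · rintro rfl
    rw [e1, (hρ 7 (by decide)).1] at hzc
    exact hq7 hzc.symm

end Pool.Agent.Helper311_CD
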