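import Mathlib

set_option autoImplicit false

/-! Depth parameters of matroids: components, transformations, depth. -/

namespace Pool.Agent.Helper311_CD

open Set

/-- `C` is a component of `M`: an inclusion-maximal set of elements of `M` any two (distinct) of
which lie in a common circuit. -/
def IsComponent (M : Matroid ℕ) (C : Set ℕ) : Prop :=
  Maximal (fun S : Set ℕ => S ⊆ M.E ∧
    ∀ x ∈ S, ∀ y ∈ S, x ≠ y → ∃ Z, M.IsCircuit Z ∧ x ∈ Z ∧ y ∈ Z) C

/-- `M` is connected: it has exactly one component. -/
def Connected (M : Matroid ℕ) : Prop := ∃! C, IsComponent M C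

/-- `M'` is cd-transformed from `M`: contract or delete one element. -/
def CD (M M' : Matroid ℕ) : Prop :=
  ∃ e ∈ M.E, M' = M.contract {e} ∨ M' = M.delete {e}

/-- `M'` is c*-transformed from `M`: `M' = N / f` where `N` is a matroid on `E(M) ∪ {f}`,
`f ∉ E(M)`, `N \ f = M` and `f` is not a loop of `N`. -/
def CStar (M M' : Matroid ℕ) : Prop :=
  ∃ (N : Matroid ℕ) (f : ℕ), f ∉ M.E ∧ N.E = insert f M.E ∧ N.delete {f} = M ∧ ¬ N.IsLoop f ∧
    M' = N.contract {f}

/-- `M'` is c*d-transformed from `M`: c*-transformed, or delete one element. -/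
def CStarD (M M' : Matroid ℕ) : Prop :=
  CStar M M' ∨ ∃ e ∈ M.E, M' = M.delete {e}

/-- `DepthLE T M k`: the depth of `M` for the transformations `T` is at most `k`, by the three
rules of the recursive definition (one element: depth `1`; not connected: the maximum over the
component matroids; otherwise one plus the minimum over all transformed matroids). -/
inductive DepthLE (T : Matroid ℕ → Matroid ℕ → Prop) : Matroid ℕ → ℕ → Prop
  | one {M : Matroid ℕ} {k : ℕ} : M.E.ncard = 1 → 1 ≤ k → DepthLE T M k
  | comps {M : Matroid ℕ} {k : ℕ} : 2 ≤ M.E.ncard → ¬ Connected M →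
      (∀ C, IsComponent M C → DepthLE T (M.restrict C) k) → DepthLE T M k
  | step {M M' : Matroid ℕ} {k : ℕ} : 2 ≤ M.E.ncard → Connected M → T M M' →
      DepthLE T M' k → DepthLE T M (k + 1)

/-- the depth of `M` for the transformations `T`: the least `k` with `DepthLE T M k` -/
noncomputable def depth (T : Matroid ℕ → Matroid ℕ → Prop) (M : Matroid ℕ) : ℕ∞ :=
  ⨅ (k : ℕ) (_ : DepthLE T M k), (k : ℕ∞)

end Pool.Agent.Helper311_CD
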