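import Pool.Agent.Helper311_CD.Struct

set_option autoImplicit false

namespace Pool.Agent.Helper311_CD

open Set Matroid H211.MC

variable {N : Matroid ℕ}

lemma triple_circuit {a b c : ℕ} (hE : ({a, b, c} : Set ℕ) ⊆ N.E) (hd : ¬ N.Indep {a, b, c})
    (h1 : N.Indep {b, c}) (h2 : N.Indep {a, c}) (h3 : N.Indep {a, b}) :
    N.IsCircuit {a, b, c} := by
  obtain ⟨Z, hZs, hZ⟩ := (show N.Dep {a, b, c} from ⟨hd, hE⟩).exists_isCircuit_subset
  have ha : a ∈ Z := by
    by_contra h
    exact hZ.not_indep (h1.subset (fun x hx => by
      have := hZs hx; simp only [mem_insert_iff, mem_singleton_iff] at this ⊢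
      rcases this with rfl | h' | h'
      · exact absurd hx h
      · exact Or.inl h'
      · exact Or.inr h'))
  have hb : b ∈ Z := by
    by_contra h
    exact hZ.not_indep (h2.subset (fun x hx => by
      have := hZs hx; simp only [mem_insert_iff, mem_singleton_iff] at this ⊢
      rcases this with h' | rfl | h'
      · exact Or.inl h'
      · exact absurd hx h
      · exact Or.inr h'))
  have hc : c ∈ Z := by
    by_contra h
    exact hZ.not_indep (h3.subset (fun x hx => by
      have := hZs hx; simp only [mem_insert_iff, mem_singleton_iff] at this ⊢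
      rcases this with h' | h' | rfl
      · exact Or.inl h'
      · exact Or.inr h'
      · exact absurd hx h))
  have e : Z = {a, b, c} := by
    apply subset_antisymm hZs
    intro x hx
    simp only [mem_insert_iff, mem_singleton_iff] at hx
    rcases hx with rfl | rfl | rfl <;> assumption
  rwa [← e]

lemma quad_circuit {a b c d : ℕ} (hE : ({a, b, c, d} : Set ℕ) ⊆ N.E)
    (hd : ¬ N.Indep {a, b, c, d})
    (h1 : N.Indep {b, c, d}) (h2 : N.Indep {a, c, d}) (h3 : N.Indep {a, b, d})
    (h4 : N.Indep {a, b, c}) :
    N.IsCircuit {a, b, c, d} := by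
  obtain ⟨Z, hZs, hZ⟩ := (show N.Dep {a, b, c, d} from ⟨hd, hE⟩).exists_isCircuit_subset
  have ha : a ∈ Z := by
    by_contra h
    exact hZ.not_indep (h1.subset (fun x hx => by
      have := hZs hx; simp only [mem_insert_iff, mem_singleton_iff] at this ⊢
      rcases this with rfl | h' | h' | h'
      · exact absurd hx h
      · exact Or.inl h'
      · exact Or.inr (Or.inl h')
      · exact Or.inr (Or.inr h')))
  have hb : b ∈ Z := by
    by_contra h
    exact hZ.not_indep (h2.subset (fun x hx => by
      have := hZs hx; simp only [mem_insert_iff, mem_singleton_iff] at this ⊢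
      rcases this with h' | rfl | h' | h'
      · exact Or.inl h'
      · exact absurd hx h
      · exact Or.inr (Or.inl h')
      · exact Or.inr (Or.inr h')))
  have hc : c ∈ Z := by
    by_contra h
    exact hZ.not_indep (h3.subset (fun x hx => by
      have := hZs hx; simp only [mem_insert_iff, mem_singleton_iff] at this ⊢
      rcases this with h' | h' | rfl | h'
      · exact Or.inl h'
      · exact Or.inr (Or.inl h')
      · exact absurd hx h
      · exact Or.inr (Or.inr h')))
  have hd : d ∈ Z := by
    by_contra h
    exact hZ.not_indep (h4.subset (fun x hx => by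
      have := hZs hx; simp only [mem_insert_iff, mem_singleton_iff] at this ⊢
      rcases this with h' | h' | h' | rfl
      · exact Or.inl h'
      · exact Or.inr (Or.inl h')
      · exact Or.inr (Or.inr h')
      · exact absurd hx h))
  have e : Z = {a, b, c, d} := by
    apply subset_antisymm hZs
    intro x hx
    simp only [mem_insert_iff, mem_singleton_iff] at hx
    rcases hx with rfl | rfl | rfl | rfl <;> assumption
  rwa [← e]

lemma matching_false (R : Fin 5 → Fin 5 → Prop)
    (htri : ∀ i j k, i ≠ j → i ≠ k → j ≠ k → R i j ∨ R i k ∨ R j k)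
    (_hsym : ∀ i j, R i j → R j i)
    (hadj : ∀ i j k, i ≠ j → i ≠ k → j ≠ k → R j i → R j k → False) : False := by
  have key : ∀ i j k l m : Fin 5, i ≠ j → i ≠ k → i ≠ l → i ≠ m → j ≠ k → j ≠ l → j ≠ m → k ≠ l →
      k ≠ m → l ≠ m → R i j → False := by
    intro i j k l m hij hik hil him hjk hjl hjm hkl hkm hlm h
    have h1 : R k l := by
      rcases htri i k l hik hil hkl with h' | h' | h'
      · exact (hadj j i k hij.symm hjk hik h h').elim
      · exact (hadj j i l hij.symm hjl hil h h').elim
      · exact h'
    have h2 : R k m := by
      rcases htri i k m hik him hkm with h' | h' | h'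
      · exact (hadj j i k hij.symm hjk hik h h').elim
      · exact (hadj j i m hij.symm hjm him h h').elim
      · exact h'
    exact hadj l k m hkl.symm hlm hkm h1 h2
  rcases htri 0 1 2 (by decide) (by decide) (by decide) with h | h | h
  · exact key 0 1 2 3 4 (by decide) (by decide) (by decide) (by decide) (by decide) (by decide)
      (by decide) (by decide) (by decide) (by decide) h
  · exact key 0 2 1 3 4 (by decide) (by decide) (by decide) (by decide) (by decide) (by decide)
      (by decide) (by decide) (by decide) (by decide) h
  · exact key 1 2 0 3 4 (by decide) (by decide) (by decide) (by decide) (by decide) (by decide)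
      (by decide) (by decide) (by decide) (by decide) h

lemma p4c [N.Finite] (u : Fin 5 → ℕ) (hinj : Function.Injective u)
    (h3 : ∀ i j k, i ≠ j → i ≠ k → j ≠ k → N.Indep {u i, u j, u k})
    (hr : ∀ i, u i ∈ N.closure {u 0, u 1, u 2})
    (htw : ∀ i, ∃ z', Twin N (u i) z') : Dp N (u 0) 3 := by
  have hE : ∀ i, u i ∈ N.E := fun i => N.closure_subset_ground _ (hr i)
  have hE' : range u ⊆ N.E := by rintro _ ⟨i, rfl⟩; exact hE i
  have hrk : rk N (range u) ≤ 3 := by
    have h1 : rk N (range u) ≤ rk N (N.closure {u 0, u 1, u 2}) :=
      rk_mono N (by rintro _ ⟨i, rfl⟩; exact hr i)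
    rw [rk_closure] at h1
    have h2 := rk_le_ncard N (I := {u 0, u 1, u 2}) (by simp)
    have h4 : ({u 0, u 1, u 2} : Set ℕ).ncard ≤ 3 :=
      (Set.ncard_insert_le _ _).trans (by
        have := Set.ncard_insert_le (u 1) {u 2}
        rw [Set.ncard_singleton] at this; omega)
    omega
  have h4 : ∀ i j k l, i ≠ j → i ≠ k → i ≠ l → j ≠ k → j ≠ l → k ≠ l →
      N.IsCircuit {u i, u j, u k, u l} := by
    intro i j k l hij hik hil hjk hjl hkl
    have hs : ({u i, u j, u k, u l} : Set ℕ) ⊆ range u := by
      intro x hx
      simp only [mem_insert_iff, mem_singleton_iff] at hx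
      rcases hx with rfl | rfl | rfl | rfl <;> exact mem_range_self _
    refine quad_circuit (hs.trans hE') (fun hi => ?_) (h3 _ _ _ hjk hjl hkl)
      (h3 _ _ _ hik hil hkl) (h3 _ _ _ hij hil hjl) (h3 _ _ _ hij hik hjk)
    have e1 := rk_indep N hi
    have e2 : ({u i, u j, u k, u l} : Set ℕ).ncard = 4 := by
      rw [Set.ncard_insert_of_notMem, Set.ncard_insert_of_notMem, Set.ncard_pair]
      · exact fun h => hkl (hinj h)
      · simp only [mem_insert_iff, mem_singleton_iff, not_or]
        exact ⟨fun h => hjk (hinj h), fun h => hjl (hinj h)⟩
      · simp only [mem_insert_iff, mem_singleton_iff, not_or]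
        exact ⟨fun h => hij (hinj h), fun h => hik (hinj h), fun h => hil (hinj h)⟩
    have e3 := rk_mono N hs
    omega
  have hc0 := h4 0 1 2 3 (by decide) (by decide) (by decide) (by decide) (by decide) (by decide)
  have hc1 := h4 0 1 2 4 (by decide) (by decide) (by decide) (by decide) (by decide) (by decide)
  have hcard0 : ({u 0, u 1, u 2, u 3} : Set ℕ).ncard = 4 := by
    rw [Set.ncard_insert_of_notMem, Set.ncard_insert_of_notMem, Set.ncard_pair]
    · exact fun h => absurd (hinj h) (by decide)
    · simp only [mem_insert_iff, mem_singleton_iff, not_or]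
      exact ⟨fun h => absurd (hinj h) (by decide), fun h => absurd (hinj h) (by decide)⟩
    · simp only [mem_insert_iff, mem_singleton_iff, not_or]
      exact ⟨fun h => absurd (hinj h) (by decide), fun h => absurd (hinj h) (by decide),
        fun h => absurd (hinj h) (by decide)⟩
  have hK : ∀ i, u i ∈ comp N (u 0) := by
    intro i
    fin_cases i
    · exact mem_comp_of_circuit hc0 (by simp) (by simp)
    · exact mem_comp_of_circuit hc0 (by simp) (by simp)
    · exact mem_comp_of_circuit hc0 (by simp) (by simp)
    · exact mem_comp_of_circuit hc0 (by simp) (by simp)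
    · exact mem_comp_of_circuit hc1 (by simp) (by simp)
  have hne : ∀ i j, i ≠ j → u i ≠ u j := fun i j h h' => h (hinj h')
  apply dp_step (hE 0) ⟨u 1, hK 1, hne _ _ (by decide)⟩
  intro f hf
  have hfnl := nonloop_of_mem_comp hc0 (by omega) (by simp) hf
  have hfE := hfnl.mem_ground
  constructor
  · by_cases hcl : f ∈ N.closure (range u)
    · by_contra hcon
      push Not at hcon
      let R : Fin 5 → Fin 5 → Prop := fun i j => f ∈ N.closure {u i, u j}
      have hind2 : ∀ i j, i ≠ j → N.Indep {u i, u j} := by
        intro i j hij
        obtain ⟨k, hki, hkj⟩ : ∃ k : Fin 5, k ≠ i ∧ k ≠ j := by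
          revert i j; decide
        exact (h3 i j k hij hki.symm hkj.symm).subset (by
          intro x hx
          simp only [mem_insert_iff, mem_singleton_iff] at hx ⊢
          rcases hx with h | h
          · exact Or.inl h
          · exact Or.inr (Or.inl h))
      have htri : ∀ i j k, i ≠ j → i ≠ k → j ≠ k → R i j ∨ R i k ∨ R j k := by
        intro i j k hij hik hjk
        by_contra hno
        simp only [not_or] at hno
        obtain ⟨r1, r2, r3⟩ := hno
        have pind : ∀ a b, a ≠ b → ¬ R a b → (N.contract {f}).Indep {u a, u b} := by
          intro a b hab hR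
          rw [hfnl.contractElem_indep_iff]
          refine ⟨fun h => hR (N.mem_closure_of_mem h (hind2 a b hab).subset_ground), ?_⟩
          rw [(hind2 a b hab).insert_indep_iff]
          exact Or.inl ⟨hfE, hR⟩
        have hdep : ¬ (N.contract {f}).Indep {u i, u j, u k} := by
          rw [hfnl.contractElem_indep_iff]
          rintro ⟨h5, h6⟩
          have e1 := rk_indep N h6
          rw [Set.ncard_insert_of_notMem h5, Set.ncard_insert_of_notMem (by
            simp only [mem_insert_iff, mem_singleton_iff, not_or]
            exact ⟨hne _ _ hij, hne _ _ hik⟩), Set.ncard_pair (hne _ _ hjk)] at e1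
          have e2 : rk N (insert f {u i, u j, u k}) ≤ rk N (insert f (range u)) := by
            apply rk_mono
            apply insert_subset_insert
            intro x hx
            simp only [mem_insert_iff, mem_singleton_iff] at hx
            rcases hx with rfl | rfl | rfl <;> exact mem_range_self _
          have e3 := rk_insert_of_mem N hcl
          omega
        have hfi : ∀ a b, a ≠ b → ¬ R a b → u a ∉ N.closure {f} := by
          intro a b hab hR h
          apply hR
          have h1 := par_symm (by
            rw [← indep_singleton]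
            exact (hind2 a b hab).subset (by simp)) h
          exact N.closure_subset_closure (by simp) h1
        have hEc : ∀ a b, a ≠ b → ¬ R a b → u a ∈ (N.contract {f}).E := by
          intro a b hab hR
          refine ⟨hE a, fun h => hfi a b hab hR ?_⟩
          rw [mem_singleton_iff] at h
          rw [h]
          exact N.mem_closure_of_mem rfl (by simpa using hfE)
        have hsE : ({u i, u j, u k} : Set ℕ) ⊆ (N.contract {f}).E := by
          intro x hx
          simp only [mem_insert_iff, mem_singleton_iff] at hx
          rcases hx with rfl | rfl | rfl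
          · exact hEc _ _ hij r1
          · exact hEc _ _ hjk r3
          · refine hEc k j hjk.symm (fun h => r3 ?_)
            change f ∈ N.closure {u k, u j} at h
            rwa [Set.pair_comm] at h
        have hcirc := triple_circuit hsE hdep (pind _ _ hjk r3) (pind _ _ hik r2) (pind _ _ hij r1)
        obtain ⟨z', hz'⟩ := htw i
        have hc3 : ({u i, u j, u k} : Set ℕ).ncard = 3 := by
          rw [Set.ncard_insert_of_notMem (by
            simp only [mem_insert_iff, mem_singleton_iff, not_or]
            exact ⟨hne _ _ hij, hne _ _ hik⟩), Set.ncard_pair (hne _ _ hjk)]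
        have hd := p3 hcirc (by omega) (by simp) (twin_contract hz' hfE (hfi _ _ hij r1))
          (y := u i) (by simp)
        exact hcon (u i) (hK i) (fun h => (hEc _ _ hij r1).2 (by simpa using h)) hd
      have hRj : ∀ i j k, i ≠ j → i ≠ k → j ≠ k → R j i → R j k → f ∈ N.closure {u j} := by
        intro i j k hij hik hjk h5 h6
        have hI : N.Indep ({u j, u i} ∪ {u j, u k}) := by
          refine (h3 i j k hij hik hjk).subset ?_
          intro x hx
          simp only [mem_union, mem_insert_iff, mem_singleton_iff] at hx ⊢
          tauto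
        have h7 : f ∈ N.closure ({u j, u i} ∩ {u j, u k}) := by
          rw [hI.closure_inter_eq_inter_closure]
          exact ⟨h5, h6⟩
        refine N.closure_subset_closure ?_ h7
        intro x hx
        simp only [mem_inter_iff, mem_insert_iff, mem_singleton_iff] at hx ⊢
        rcases hx with ⟨h8 | h8, h9 | h9⟩
        · exact h8
        · exact h8
        · exact h9
        · exact absurd (h8.symm.trans h9) (hne _ _ hik)
      have hno : ∀ j, f ∉ N.closure {u j} := by
        intro j hj
        have hex : ∀ j : Fin 5, ∃ k l m : Fin 5, k ≠ l ∧ k ≠ m ∧ l ≠ m ∧ j ≠ k ∧ j ≠ l ∧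
            j ≠ m := by decide
        obtain ⟨k, l, m, hkl, hkm, hlm, hjk, hjl, hjm⟩ := hex j
        have aux : ∀ a b, a ≠ b → j ≠ a → j ≠ b → R a b → False := by
          intro a b hab hja hjb hR
          have hI : N.Indep ({u j} ∪ {u a, u b}) := by
            refine (h3 j a b hja hjb hab).subset ?_
            intro x hx
            simp only [mem_union, mem_insert_iff, mem_singleton_iff] at hx ⊢
            tauto
          have h7 : f ∈ N.closure ({u j} ∩ {u a, u b}) := by
            rw [hI.closure_inter_eq_inter_closure]
            exact ⟨hj, hR⟩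
          have e : ({u j} ∩ {u a, u b} : Set ℕ) = ∅ := by
            ext x
            simp only [mem_inter_iff, mem_insert_iff, mem_singleton_iff, mem_empty_iff_false,
              iff_false, not_and, not_or]
            rintro rfl
            exact ⟨hne _ _ hja, hne _ _ hjb⟩
          rw [e] at h7
          exact hfnl.not_isLoop h7
        rcases htri k l m hkl hkm hlm with h | h | h
        · exact aux _ _ hkl hjk hjl h
        · exact aux _ _ hkm hjk hjm h
        · exact aux _ _ hlm hjl hjm h
      have hsym : ∀ i j, R i j → R j i := by
        intro i j h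
        change f ∈ N.closure {u j, u i}
        rw [Set.pair_comm]; exact h
      exact matching_false R htri hsym (fun i j k hij hik hjk h5 h6 =>
        hno j (hRj i j k hij hik hjk h5 h6))
    · have hs : ({u 0, u 1, u 2, u 3} : Set ℕ) ⊆ range u := by
        intro x hx
        simp only [mem_insert_iff, mem_singleton_iff] at hx
        rcases hx with rfl | rfl | rfl | rfl <;> exact mem_range_self _
      have hcl' : f ∉ N.closure {u 0, u 1, u 2, u 3} := fun h => hcl (N.closure_subset_closure hs h)
      obtain ⟨z', hz'⟩ := htw 0
      have hnz : u 0 ∉ N.closure {f} := by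
        intro h1
        apply hcl'
        have h2 := par_symm (twin_nonloop hz').1 h1
        exact N.closure_subset_closure (by simp) h2
      exact ⟨u 0, hK 0, fun h => hcl' (h ▸ N.mem_closure_of_mem (by simp) hc0.subset_ground),
        p3 (persist hc0 hfE hcl') (by omega) (by simp) (twin_contract hz' hfE hnz) (by simp)⟩
  · obtain ⟨w, hw', hwf, hd⟩ := del_aux ∅ hc0 (by omega) (fun z hz => by
      simp only [mem_insert_iff, mem_singleton_iff] at hz
      rcases hz with rfl | rfl | rfl | rfl
      · exact Or.inr (htw 0)
      · exact Or.inr (htw 1)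
      · exact Or.inr (htw 2)
      · exact Or.inr (htw 3)) (a := u 0) (b := u 1) (by simp) (by simp) (hne _ _ (by decide))
      (by simp) (by simp) (f := f) (by simp)
    exact ⟨w, hw', hwf, hd⟩

end Pool.Agent.Helper311_CD
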