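import Pool.Agent.Helper311_CD.Phi
import Pool.Agent.Helper311_CD.Struct2

set_option autoImplicit false

namespace Pool.Agent.Helper311_CD

open Set Matroid H211.MC

/-- the class matroid is embedded in `N` by `ρ` -/
structure Emb (N : Matroid ℕ) (ρ : ℕ → ℕ) : Prop where
  inj : ∀ q ∈ Finset.range 32, ∀ q' ∈ Finset.range 32, ρ q = ρ q' → q = q'
  mem : ∀ q ∈ Finset.range 32, ρ q ∈ N.E
  ind : ∀ Y : Finset ℕ, Y ⊆ Finset.range 32 → (N.Indep (ρ '' ↑Y) ↔ HIndep Y)

variable {N : Matroid ℕ} {ρ : ℕ → ℕ}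

lemma Emb.subset (h : Emb N ρ) {Y : Finset ℕ} (hY : Y ⊆ Finset.range 32) : ρ '' ↑Y ⊆ N.E := by
  rintro _ ⟨q, hq, rfl⟩
  exact h.mem q (hY (by simpa using hq))

lemma Emb.erase (h : Emb N ρ) {Y : Finset ℕ} (hY : Y ⊆ Finset.range 32) {y : ℕ} (hy : y ∈ Y) :
    (ρ '' (↑Y : Set ℕ)) \ {ρ y} = ρ '' ↑(Y.erase y) := by
  ext x
  simp only [mem_sdiff, mem_image, Finset.mem_coe, mem_singleton_iff, Finset.mem_erase]
  constructor
  · rintro ⟨⟨q, hq, rfl⟩, hne⟩
    exact ⟨q, ⟨fun hh => hne (by rw [hh]), hq⟩, rfl⟩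
  · rintro ⟨q, ⟨hne, hq⟩, rfl⟩
    exact ⟨⟨q, hq, rfl⟩, fun hh => hne (h.inj q (hY hq) y (hY hy) hh)⟩

lemma Emb.ncard (h : Emb N ρ) {Y : Finset ℕ} (hY : Y ⊆ Finset.range 32) :
    (ρ '' (↑Y : Set ℕ)).ncard = Y.card := by
  rw [Set.InjOn.ncard_image, Set.ncard_coe_finset]
  intro a ha b hb hab
  exact h.inj a (hY (by simpa using ha)) b (hY (by simpa using hb)) hab

lemma Emb.circuit (h : Emb N ρ) {Y : Finset ℕ} (hY : Circ Y) : N.IsCircuit (ρ '' ↑Y) := by
  rw [isCircuit_iff_dep_forall_sdiff_singleton_indep]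
  refine ⟨⟨fun hi => hY.2.1 ((h.ind Y hY.1).1 hi), h.subset hY.1⟩, ?_⟩
  rintro _ ⟨y, hy, rfl⟩
  have hy' : y ∈ Y := by simpa using hy
  rw [h.erase hY.1 hy', h.ind _ ((Finset.erase_subset _ _).trans hY.1)]
  exact hY.2.2 y hy'

/-- the closure predicate -/
def Ph (N : Matroid ℕ) (ρ : ℕ → ℕ) (f : ℕ) (Y : Finset ℕ) : Prop := f ∈ N.closure (ρ '' ↑Y)

lemma Emb.image_inter (h : Emb N ρ) {A B : Finset ℕ} (hA : A ⊆ Finset.range 32)
    (hB : B ⊆ Finset.range 32) : ρ '' (↑(A ∩ B) : Set ℕ) = ρ '' ↑A ∩ ρ '' ↑B := by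
  rw [Finset.coe_inter]
  apply Set.image_inter_on
  intro x hx y hy hxy
  exact h.inj x (hB (by simpa using hx)) y (hA (by simpa using hy)) hxy

lemma Emb.good (h : Emb N ρ) {f : ℕ} (hf : N.IsNonloop f) : Good (Ph N ρ f) where
  mono A B hAB hA := N.closure_subset_closure (image_mono (by exact_mod_cast hAB)) hA
  inter A B hAB hA hB := by
    unfold Ph at *
    have hA' : A ⊆ Finset.range 32 := Finset.subset_union_left.trans hAB.1
    have hB' : B ⊆ Finset.range 32 := Finset.subset_union_right.trans hAB.1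
    have hI := (h.ind _ hAB.1).2 hAB
    rw [Finset.coe_union, Set.image_union] at hI
    rw [h.image_inter hA' hB', hI.closure_inter_eq_inter_closure]
    exact ⟨hA, hB⟩
  empty hcon := by
    unfold Ph at hcon
    simp only [Finset.coe_empty, image_empty] at hcon
    exact hf.not_isLoop hcon
  circ Y hY y hy hΦ := by
    unfold Ph at *
    rw [← h.erase hY.1 hy, (h.circuit hY).closure_sdiff_singleton_eq]
    exact hΦ

/-- separations of `N / f` and circuits of `N` -/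
lemma star [N.Finite] {f : ℕ} {A C : Set ℕ} (hf : N.IsNonloop f) (hfA : f ∉ A)
    (hA : ∀ Z, (N.contract {f}).IsCircuit Z → (Z ∩ A).Nonempty → Z ⊆ A) (hC : N.IsCircuit C)
    (h1 : (C ∩ A).Nonempty) (h2 : (C \ A).Nonempty) :
    f ∈ N.closure (C ∩ A) ∧ f ∈ N.closure (C \ A) := by
  have hCE := hC.subset_ground
  have hfin : C.Finite := N.ground_finite.subset hCE
  by_cases hfC : f ∈ C
  · obtain ⟨c, hcC, hcA⟩ := h1
    have hcf : c ≠ f := fun h => hfA (h ▸ hcA)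
    have hc := hC.contractElem_isCircuit ⟨c, hcC, f, hfC, hcf⟩ hfC
    have hs := hA _ hc ⟨c, ⟨hcC, hcf⟩, hcA⟩
    constructor
    · refine N.closure_subset_closure ?_ (hC.mem_closure_sdiff_singleton_of_mem hfC)
      intro x hx
      exact ⟨hx.1, hs hx⟩
    · exact N.mem_closure_of_mem ⟨hfC, hfA⟩ (sdiff_subset.trans hCE)
  · have hfE := hf.mem_ground
    have hrf : rk N {f} = 1 := by
      rw [rk_indep N (by rw [indep_singleton]; exact hf), Set.ncard_singleton]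
    have hYc : ∀ Y ⊆ C, rk (N.contract {f}) Y + 1 = rk N (insert f Y) := by
      intro Y hY
      rw [← hrf, rk_contract N (by simpa using hfE) (fun y hy => ⟨hCE (hY hy), fun h => hfC (by
        rw [mem_singleton_iff] at h; exact h ▸ hY hy)⟩), Set.union_singleton]
    have hsub1 : C ∩ A ⊆ C := inter_subset_left
    have hsub2 : C \ A ⊆ C := sdiff_subset
    have hcE : C ⊆ (N.contract {f}).E := fun y hy => ⟨hCE hy, fun h => hfC (by
      rw [mem_singleton_iff] at h; exact h ▸ hy)⟩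
    have hsum := rk_add_of_no_circuit (N.contract {f}) (A := C ∩ A) (B := C \ A)
      (hsub1.trans hcE) (hsub2.trans hcE)
      (by rw [Set.disjoint_left]; intro x hx hx'; exact hx'.2 hx.2) (by
        intro Z hZ hZs
        rw [inter_union_sdiff] at hZs
        by_cases h : (Z ∩ A).Nonempty
        · left
          intro x hx
          exact ⟨hZs hx, hA Z hZ h hx⟩
        · right
          intro x hx
          exact ⟨hZs hx, fun h' => h ⟨x, hx, h'⟩⟩)
    rw [inter_union_sdiff] at hsum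
    have e0 := hYc C Subset.rfl
    have e1 := hYc _ hsub1
    have e2 := hYc _ hsub2
    have i1 : N.Indep (C ∩ A) := by
      apply hC.ssubset_indep
      obtain ⟨x, hx⟩ := h2
      exact ⟨hsub1, fun h => hx.2 (h hx.1).2⟩
    have i2 : N.Indep (C \ A) := by
      apply hC.ssubset_indep
      obtain ⟨x, hx⟩ := h1
      exact ⟨hsub2, fun h => (h hx.1).2 hx.2⟩
    have r0 := rk_circuit N hC
    have r1 := rk_indep N i1
    have r2 := rk_indep N i2
    have hcard : (C ∩ A).ncard + (C \ A).ncard = C.ncard :=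
      Set.ncard_inter_add_ncard_sdiff_eq_ncard C A hfin
    have m1 : rk N (C ∩ A) ≤ rk N (insert f (C ∩ A)) := rk_mono N (subset_insert _ _)
    have m2 : rk N (C \ A) ≤ rk N (insert f (C \ A)) := rk_mono N (subset_insert _ _)
    have m0 := rk_insert_le N f C
    constructor
    · by_contra hcon
      have g1 := rk_insert_of_notMem N hfE hcon
      by_cases h0 : f ∈ N.closure C
      · have := rk_insert_of_mem N h0; omega
      · have h3 : f ∉ N.closure (C \ A) := fun h => h0 (N.closure_subset_closure hsub2 h)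
        have := rk_insert_of_notMem N hfE h3
        omega
    · by_contra hcon
      have g1 := rk_insert_of_notMem N hfE hcon
      by_cases h0 : f ∈ N.closure C
      · have := rk_insert_of_mem N h0; omega
      · have h3 : f ∉ N.closure (C ∩ A) := fun h => h0 (N.closure_subset_closure hsub1 h)
        have := rk_insert_of_notMem N hfE h3
        omega

open Classical in
/-- the classes whose representative is in `A` -/
noncomputable def Uof (ρ : ℕ → ℕ) (A : Set ℕ) : Finset ℕ := (Finset.range 32).filter (fun q => ρ q ∈ A)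

lemma mem_Uof {A : Set ℕ} {q : ℕ} : q ∈ Uof ρ A ↔ q ∈ Finset.range 32 ∧ ρ q ∈ A := by
  unfold Uof; simp

lemma Uof_inter {A : Set ℕ} {Y : Finset ℕ} (hY : Y ⊆ Finset.range 32) :
    (ρ '' (↑Y : Set ℕ)) ∩ A = ρ '' ↑(Y ∩ Uof ρ A) := by
  ext x
  simp only [mem_inter_iff, mem_image, Finset.mem_coe, Finset.mem_inter, mem_Uof]
  constructor
  · rintro ⟨⟨q, hq, rfl⟩, hA⟩
    exact ⟨q, ⟨hq, hY hq, hA⟩, rfl⟩
  · rintro ⟨q, ⟨hq, -, hA⟩, rfl⟩
    exact ⟨⟨q, hq, rfl⟩, hA⟩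

lemma Uof_sdiff {A : Set ℕ} {Y : Finset ℕ} (hY : Y ⊆ Finset.range 32) :
    (ρ '' (↑Y : Set ℕ)) \ A = ρ '' ↑(Y \ Uof ρ A) := by
  ext x
  simp only [mem_sdiff, mem_image, Finset.mem_coe, Finset.mem_sdiff, mem_Uof]
  constructor
  · rintro ⟨⟨q, hq, rfl⟩, hA⟩
    exact ⟨q, ⟨hq, fun h => hA h.2⟩, rfl⟩
  · rintro ⟨q, ⟨hq, hA⟩, rfl⟩
    exact ⟨⟨q, hq, rfl⟩, fun h => hA ⟨hY hq, h⟩⟩

lemma closed_comp [N.Finite] {y : ℕ} : ∀ Z, N.IsCircuit Z → (Z ∩ comp N y).Nonempty →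
    Z ⊆ comp N y := by
  rintro Z hZ ⟨z, hz, hzc⟩
  exact circuit_subset_comp hZ hz hzc

/-- star for class circuits -/
lemma star_emb [N.Finite] (h : Emb N ρ) {f : ℕ} {A : Set ℕ} (hf : N.IsNonloop f) (hfA : f ∉ A)
    (hA : ∀ Z, (N.contract {f}).IsCircuit Z → (Z ∩ A).Nonempty → Z ⊆ A) :
    Sep (Ph N ρ f) (Uof ρ A) := by
  intro Y hY h1 h2
  have hC := h.circuit hY
  have g1 : ((ρ '' (↑Y : Set ℕ)) ∩ A).Nonempty := by
    rw [Uof_inter hY.1]
    obtain ⟨q, hq⟩ := h1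
    exact ⟨ρ q, q, by simpa using hq, rfl⟩
  have g2 : ((ρ '' (↑Y : Set ℕ)) \ A).Nonempty := by
    rw [Uof_sdiff hY.1]
    obtain ⟨q, hq⟩ := h2
    exact ⟨ρ q, q, by simpa using hq, rfl⟩
  have := star hf hfA hA hC g1 g2
  rwa [Uof_inter hY.1, Uof_sdiff hY.1] at this

/-- after one contraction all nonloops are in one component -/
theorem conn1 [N.Finite] (h : Emb N ρ) {f : ℕ} (hf : N.IsNonloop f) {q0 q1 : ℕ}
    (hq0 : q0 ∈ Finset.range 32) (hq1 : q1 ∈ Finset.range 32)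
    (h0 : ρ q0 ∉ N.closure {f}) (h1 : ρ q1 ∉ N.closure {f}) :
    ρ q1 ∈ comp (N.contract {f}) (ρ q0) := by
  by_contra hcon
  have hfE := hf.mem_ground
  have key : ∀ q ∈ Finset.range 32, ρ q ∉ N.closure {f} →
      ρ q ∈ (N.contract {f}).E ∧ ¬ Ph N ρ f {q} := by
    intro q hq hcl
    refine ⟨⟨h.mem q hq, fun h' => hcl ?_⟩, fun h' => hcl ?_⟩
    · rw [mem_singleton_iff] at h'; rw [h']
      exact N.mem_closure_of_mem rfl (by simpa using hfE)
    · unfold Ph at h'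
      simp only [Finset.coe_singleton, image_singleton] at h'
      exact par_symm hf h'
  obtain ⟨k0, k0'⟩ := key q0 hq0 h0
  obtain ⟨k1, k1'⟩ := key q1 hq1 h1
  have hs := star_emb (ρ := ρ) h hf (A := comp (N.contract {f}) (ρ q0))
    (fun h' => (comp_subset h').2 rfl) closed_comp
  exact conn_contra (h.good hf) (fun x hx => (mem_Uof.1 hx).1) hs
    (mem_Uof.2 ⟨hq0, self_mem_comp k0⟩) k0' hq1 (fun h' => hcon (mem_Uof.1 h').2) k1'

/-- the three planes have no common point -/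
theorem vamos_emb (h : Emb N ρ) {f : ℕ} (hf : N.IsNonloop f) :
    ∃ Y, (Y = {0, 1, 2, 3} ∨ Y = {0, 1, 4, 5} ∨ Y = ({2, 3, 4, 5} : Finset ℕ)) ∧
      ¬ Ph N ρ f Y := by
  by_contra hcon
  push Not at hcon
  exact vamos (h.good hf) (hcon _ (Or.inl rfl)) (hcon _ (Or.inr (Or.inl rfl)))
    (hcon _ (Or.inr (Or.inr rfl)))

end Pool.Agent.Helper311_CD
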