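import Pool.Agent.Helper311_CD.Defs
import Pool.Agent.H211R2.MC.Conn

set_option autoImplicit false

namespace Pool.Agent.Helper311_CD

open Set Matroid

/-- the component of `y` -/
def comp (N : Matroid ℕ) (y : ℕ) : Set ℕ :=
  {z | z ∈ N.E ∧ (z = y ∨ ∃ Z, N.IsCircuit Z ∧ y ∈ Z ∧ z ∈ Z)}

variable {N : Matroid ℕ}

lemma self_mem_comp {y : ℕ} (hy : y ∈ N.E) : y ∈ comp N y := ⟨hy, Or.inl rfl⟩

lemma comp_subset {y : ℕ} : comp N y ⊆ N.E := fun _ h => h.1

lemma comp_pair [N.Finite] {y a b : ℕ} (ha : a ∈ comp N y) (hb : b ∈ comp N y) (hab : a ≠ b) :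
    ∃ Z, N.IsCircuit Z ∧ a ∈ Z ∧ b ∈ Z := by
  obtain ⟨_, rfl | ⟨Z1, h1, h1y, h1a⟩⟩ := ha
  · obtain ⟨_, rfl | ⟨Z2, h2, h2y, h2b⟩⟩ := hb
    · exact absurd rfl hab
    · exact ⟨Z2, h2, h2y, h2b⟩
  · obtain ⟨_, rfl | ⟨Z2, h2, h2y, h2b⟩⟩ := hb
    · exact ⟨Z1, h1, h1a, h1y⟩
    · exact H211.MC.circuit_trans h1 h2 h1a h2b ⟨y, h1y, h2y⟩

lemma circuit_subset_comp [N.Finite] {y z : ℕ} {Z : Set ℕ} (hZ : N.IsCircuit Z) (hz : z ∈ Z)
    (hzy : z ∈ comp N y) : Z ⊆ comp N y := by
  intro w hw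
  refine ⟨hZ.subset_ground hw, ?_⟩
  obtain ⟨_, rfl | ⟨Z1, h1, h1y, h1z⟩⟩ := hzy
  · exact Or.inr ⟨Z, hZ, hz, hw⟩
  · obtain ⟨C, hC, a, b⟩ := H211.MC.circuit_trans h1 hZ h1y hw ⟨z, h1z, hz⟩
    exact Or.inr ⟨C, hC, a, b⟩

lemma mem_comp_of_circuit {y z : ℕ} {Z : Set ℕ} (hZ : N.IsCircuit Z) (hy : y ∈ Z)
    (hz : z ∈ Z) : z ∈ comp N y :=
  ⟨hZ.subset_ground hz, Or.inr ⟨Z, hZ, hy, hz⟩⟩

lemma isComponent_comp [N.Finite] {y : ℕ} (hy : y ∈ N.E) : IsComponent N (comp N y) := by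
  refine ⟨⟨fun z hz => hz.1, fun a ha b hb hab => comp_pair ha hb hab⟩, ?_⟩
  intro S hS hle z hz
  have hyS : y ∈ S := hle (self_mem_comp hy)
  refine ⟨hS.1 hz, ?_⟩
  by_cases h : z = y
  · exact Or.inl h
  · obtain ⟨Z, a, b, c⟩ := hS.2 y hyS z hz (Ne.symm h)
    exact Or.inr ⟨Z, a, b, c⟩

lemma component_eq_comp [N.Finite] {C : Set ℕ} {y : ℕ} (hC : IsComponent N C) (hy : y ∈ C) :
    C = comp N y := by
  have h1 : C ⊆ comp N y := by
    intro z hz
    refine ⟨hC.prop.1 hz, ?_⟩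
    by_cases h : z = y
    · exact Or.inl h
    · obtain ⟨Z, a, b, c⟩ := hC.prop.2 y hy z hz (Ne.symm h)
      exact Or.inr ⟨Z, a, b, c⟩
  exact subset_antisymm h1 (hC.2 (isComponent_comp (hC.prop.1 hy)).prop h1)

lemma comp_eq_of_mem [N.Finite] {y z : ℕ} (hy : y ∈ N.E) (hz : z ∈ comp N y) :
    comp N z = comp N y :=
  (component_eq_comp (isComponent_comp hy) hz).symm

lemma component_nonempty {C : Set ℕ} (hne : N.E.Nonempty) (hC : IsComponent N C) :
    C.Nonempty := by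
  by_contra h
  rw [not_nonempty_iff_eq_empty] at h
  subst h
  obtain ⟨x, hx⟩ := hne
  have := hC.2 (y := {x}) ⟨by simpa using hx, by
    intro a ha b hb hab
    rw [mem_singleton_iff] at ha hb
    exact absurd (ha.trans hb.symm) hab⟩ (empty_subset _)
  exact this (mem_singleton x)

lemma connected_eq [N.Finite] {C : Set ℕ} (h : Connected N) (hC : IsComponent N C) :
    C = N.E := by
  obtain ⟨C0, h0, hu⟩ := h
  apply subset_antisymm hC.prop.1
  intro x hx
  have e1 := hu _ (isComponent_comp hx)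
  have e2 := hu _ hC
  rw [e2, ← e1]
  exact self_mem_comp hx

lemma connected_of_pairs [N.Finite]
    (h : ∀ x ∈ N.E, ∀ y ∈ N.E, x ≠ y → ∃ Z, N.IsCircuit Z ∧ x ∈ Z ∧ y ∈ Z) : Connected N := by
  refine ⟨N.E, ⟨⟨Subset.rfl, h⟩, fun S hS _ => hS.1⟩, ?_⟩
  intro C hC
  exact subset_antisymm hC.prop.1 (hC.2 ⟨Subset.rfl, h⟩ hC.prop.1)

lemma pairs_of_connected [N.Finite] (h : Connected N) :
    ∀ x ∈ N.E, ∀ y ∈ N.E, x ≠ y → ∃ Z, N.IsCircuit Z ∧ x ∈ Z ∧ y ∈ Z := by
  obtain ⟨C0, h0, hu⟩ := h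
  have e := connected_eq ⟨C0, h0, hu⟩ h0
  subst e
  exact h0.prop.2

lemma isComponent_restrict [N.Finite] {K R : Set ℕ} (hK : IsComponent N K) (hKR : K ⊆ R)
    (hR : R ⊆ N.E) : IsComponent (N.restrict R) K := by
  refine ⟨⟨hKR, ?_⟩, ?_⟩
  · intro a ha b hb hab
    obtain ⟨Z, hZ, haZ, hbZ⟩ := hK.prop.2 a ha b hb hab
    refine ⟨Z, (restrict_isCircuit_iff hR).2 ⟨hZ, ?_⟩, haZ, hbZ⟩
    have e := component_eq_comp hK ha
    exact (circuit_subset_comp hZ haZ (e ▸ ha)).trans (e ▸ hKR)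
  · intro S hS hle
    apply hK.2 _ hle
    refine ⟨hS.1.trans hR, ?_⟩
    intro a ha b hb hab
    obtain ⟨Z, hZ, haZ, hbZ⟩ := hS.2 a ha b hb hab
    exact ⟨Z, ((restrict_isCircuit_iff hR).1 hZ).1, haZ, hbZ⟩

lemma connected_restrict [N.Finite] {K : Set ℕ} (hK : IsComponent N K) :
    Connected (N.restrict K) := by
  have h := isComponent_restrict hK Subset.rfl hK.prop.1
  refine ⟨K, h, ?_⟩
  intro C hC
  exact subset_antisymm hC.prop.1 (hC.2 h.prop hC.prop.1)

instance restrict_fin [N.Finite] (R : Set ℕ) [hR : Finite R] : (N.restrict R).Finite :=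
  ⟨Set.toFinite R⟩

lemma restrict_finite [N.Finite] {R : Set ℕ} (hR : R ⊆ N.E) : (N.restrict R).Finite :=
  ⟨N.ground_finite.subset hR⟩

lemma depthLE_component (T : Matroid ℕ → Matroid ℕ → Prop) [N.Finite] {k : ℕ} {C : Set ℕ}
    (h : DepthLE T N k) (hC : IsComponent N C) : DepthLE T (N.restrict C) k := by
  cases h with
  | one h1 h2 =>
    have hne : C.Nonempty := component_nonempty (by
      rw [← Set.ncard_pos N.ground_finite]; omega) hC
    have : C = N.E := by
      apply Set.eq_of_subset_of_ncard_le hC.prop.1 _ N.ground_finite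
      have := (Set.ncard_pos (N.ground_finite.subset hC.prop.1)).2 hne
      omega
    rw [this, restrict_ground_eq_self]
    exact .one h1 h2
  | comps h1 h2 h3 => exact h3 C hC
  | step h1 h2 h3 h4 =>
    rw [connected_eq h2 hC, restrict_ground_eq_self]
    exact .step h1 h2 h3 h4

lemma depthLE_pos {T : Matroid ℕ → Matroid ℕ → Prop} {M : Matroid ℕ} {k : ℕ}
    (h : DepthLE T M k) : M.Finite → k ≠ 0 := by
  induction h with
  | one h1 h2 => intro _; omega
  | @comps M k h1 h2 h3 ih =>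
    intro hf
    have hne : M.E.Nonempty := by
      rw [← Set.ncard_pos M.ground_finite]; omega
    obtain ⟨x, hx⟩ := hne
    exact ih _ (isComponent_comp hx) (restrict_finite comp_subset)
  | step _ _ _ _ _ => intro _; omega

lemma DepthLE.mono {T : Matroid ℕ → Matroid ℕ → Prop} {M : Matroid ℕ} {k : ℕ}
    (h : DepthLE T M k) : ∀ l, k ≤ l → DepthLE T M l := by
  induction h with
  | one h1 h2 => intro l hl; exact .one h1 (h2.trans hl)
  | comps h1 h2 h3 ih => intro l hl; exact .comps h1 h2 (fun C hC => ih C hC l hl)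
  | step h1 h2 h3 h4 ih =>
    intro l hl
    obtain ⟨m, rfl⟩ : ∃ m, l = m + 1 := ⟨l - 1, by omega⟩
    exact .step h1 h2 h3 (ih m (by omega))

/-- the component of `y` has depth larger than `k` -/
def Dp (N : Matroid ℕ) (y : ℕ) (k : ℕ) : Prop := ¬ DepthLE CD (N.restrict (comp N y)) k

lemma dp_zero [N.Finite] (y : ℕ) : Dp N y 0 := by
  intro h
  exact depthLE_pos h (restrict_finite comp_subset) rfl

lemma not_depthLE_of_dp [N.Finite] {y k : ℕ} (hy : y ∈ N.E) (h : Dp N y k) :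
    ¬ DepthLE CD N k := fun h' => h (depthLE_component CD h' (isComponent_comp hy))

lemma comp_contract_subset [N.Finite] {y f z : ℕ}
    (hz : z ∈ comp N y) (hzf : z ≠ f) :
    comp (N.contract {f}) z ⊆ comp N y \ {f} := by
  intro w hw
  have hwE : w ∈ N.E \ {f} := hw.1
  refine ⟨?_, hwE.2⟩
  obtain ⟨-, rfl | ⟨Z, hZ, hzZ, hwZ⟩⟩ := hw
  · exact hz
  · obtain ⟨C', hC', h1, h2⟩ := hZ.exists_subset_isCircuit_of_contract
    exact circuit_subset_comp hC' (h1 hzZ) hz (h1 hwZ)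

lemma comp_delete_subset [N.Finite] {y f z : ℕ} 
    (hz : z ∈ comp N y) (hzf : z ≠ f) :
    comp (N.delete {f}) z ⊆ comp N y \ {f} := by
  intro w hw
  have hwE : w ∈ N.E \ {f} := hw.1
  refine ⟨?_, hwE.2⟩
  obtain ⟨-, rfl | ⟨Z, hZ, hzZ, hwZ⟩⟩ := hw
  · exact hz
  · exact circuit_subset_comp (delete_isCircuit_iff.1 hZ).1 hzZ hz hwZ

lemma dp_step [N.Finite] {y k : ℕ} (hy : y ∈ N.E) (h2 : ∃ z ∈ comp N y, z ≠ y)
    (h : ∀ f ∈ comp N y, (∃ z ∈ comp N y, z ≠ f ∧ Dp (N.contract {f}) z k) ∧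
      (∃ z ∈ comp N y, z ≠ f ∧ Dp (N.delete {f}) z k)) : Dp N y (k + 1) := by
  intro hd
  have hfin : (comp N y).Finite := N.ground_finite.subset comp_subset
  have hcard : 2 ≤ (comp N y).ncard := by
    obtain ⟨z, hz, hzy⟩ := h2
    have : ({y, z} : Set ℕ).ncard ≤ (comp N y).ncard :=
      Set.ncard_le_ncard (by
        intro w hw
        rcases hw with rfl | hw
        · exact self_mem_comp hy
        · rw [mem_singleton_iff] at hw; rw [hw]; exact hz) hfin
    rwa [Set.ncard_pair (Ne.symm hzy)] at this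
  have hconn := connected_restrict (isComponent_comp hy)
  generalize hk : k + 1 = m at hd
  cases hd with
  | one h1 _ => rw [restrict_ground_eq] at h1; omega
  | comps _ h2 _ => exact h2 hconn
  | @step _ M' k' _ _ hT hd' =>
    obtain rfl : k' = k := by omega
    obtain ⟨f, hf, hM'⟩ := hT
    rw [restrict_ground_eq] at hf
    obtain ⟨⟨z, hz, hzf, hzd⟩, ⟨z', hz', hzf', hzd'⟩⟩ := h f hf
    rcases hM' with rfl | rfl
    · -- contraction
      have hE : z ∈ (N.contract {f}).E := by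
        rw [contract_ground]; exact ⟨comp_subset (N := N) hz, hzf⟩
      have e1 : (N.restrict (comp N y)).contract {f} =
          (N.contract {f}).restrict (comp N y \ {f}) :=
        restrict_contract_eq_contract_restrict N (by simpa using hf)
      rw [e1] at hd'
      have hsub := comp_contract_subset (f := f) hz hzf
      have hR : comp N y \ {f} ⊆ (N.contract {f}).E :=
        sdiff_subset_sdiff_left comp_subset
      have : ((N.contract {f}).restrict (comp N y \ {f})).Finite := restrict_finite hR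
      have h3 := depthLE_component CD hd' (isComponent_restrict (isComponent_comp hE) hsub hR)
      rw [restrict_restrict_eq _ hsub] at h3
      exact hzd h3
    · have hE : z' ∈ (N.delete {f}).E := ⟨comp_subset hz', hzf'⟩
      have e1 : (N.restrict (comp N y)).delete {f} =
          (N.delete {f}).restrict (comp N y \ {f}) := by
        rw [delete_eq_restrict, delete_eq_restrict, restrict_ground_eq,
          restrict_restrict_eq _ sdiff_subset, restrict_restrict_eq]
        exact sdiff_subset_sdiff_left comp_subset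
      rw [e1] at hd'
      have hsub := comp_delete_subset (f := f) hz' hzf'
      have hR : comp N y \ {f} ⊆ (N.delete {f}).E :=
        sdiff_subset_sdiff_left comp_subset
      have : ((N.delete {f}).restrict (comp N y \ {f})).Finite := restrict_finite hR
      have h3 := depthLE_component CD hd' (isComponent_restrict (isComponent_comp hE) hsub hR)
      rw [restrict_restrict_eq _ hsub] at h3
      exact hzd' h3

end Pool.Agent.Helper311_CD
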