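import Mathlib

set_option autoImplicit false

namespace Pool.Agent.Helper311_CD

open Finset

def D : Finset ℕ := Icc 6 31

/-- the special dependent sets -/
def Sp : List (Finset ℕ) :=
  [{0, 1, 2, 3}, {0, 1, 4, 5}, {2, 3, 4, 5}, D ∪ {0, 1}, D ∪ {2, 3}]

/-- the independent sets of the matroid of the 32 classes -/
def HIndep (I : Finset ℕ) : Prop :=
  I ⊆ range 32 ∧ I.card ≤ 28 ∧ ∀ S ∈ Sp, ¬ S ⊆ I

instance (I : Finset ℕ) : Decidable (HIndep I) := by unfold HIndep; infer_instance

lemma HIndep.mono {I J : Finset ℕ} (hJ : HIndep J) (h : I ⊆ J) : HIndep I :=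
  ⟨h.trans hJ.1, (card_le_card h).trans hJ.2.1, fun S hS hSI => hJ.2.2 S hS (hSI.trans h)⟩

lemma pairs29 : ∀ S ∈ Sp, ∀ S' ∈ Sp, S ≠ S' → (S ∪ S').card ≤ 29 →
    S ⊆ range 6 ∧ S' ⊆ range 6 ∧ range 6 ⊆ S ∪ S' := by decide

lemma five : ∀ X ∈ (range 6).powerset, 5 ≤ X.card → ∃ S ∈ Sp, S ⊆ X := by decide

lemma haug {I J : Finset ℕ} (hI : HIndep I) (hJ : HIndep J) (hc : I.card < J.card) :
    ∃ z ∈ J, z ∉ I ∧ HIndep (insert z I) := by
  by_contra hcon
  push Not at hcon
  have hS : ∀ z ∈ J, z ∉ I → ∃ S ∈ Sp, S ⊆ insert z I ∧ z ∈ S := by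
    intro z hz hzI
    have h := hcon z hz hzI
    by_contra hno
    push Not at hno
    apply h
    refine ⟨insert_subset (hJ.1 hz) hI.1, ?_, ?_⟩
    · rw [card_insert_of_notMem hzI]; have := hJ.2.1; omega
    · intro S hS hSs
      have h1 := hno S hS hSs
      apply hI.2.2 S hS
      intro x hx
      rcases mem_insert.1 (hSs hx) with h2 | h2
      · exact absurd (h2 ▸ hx) h1
      · exact h2
  have hpair : ∀ z ∈ J, z ∉ I → ∀ w ∈ J, w ∉ I → z ≠ w → z ∈ range 6 ∧
      range 6 ⊆ insert z (insert w I) := by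
    intro z hz hzI w hw hwI hzw
    obtain ⟨S, hS1, hS2, hS3⟩ := hS z hz hzI
    obtain ⟨S', hS1', hS2', hS3'⟩ := hS w hw hwI
    have hne : S ≠ S' := by
      rintro rfl
      rcases mem_insert.1 (hS2' hS3) with h | h
      · exact hzw h
      · exact hzI h
    have hsub : S ∪ S' ⊆ insert z (insert w I) := by
      intro x hx
      rcases mem_union.1 hx with h | h
      · rcases mem_insert.1 (hS2 h) with h | h
        · exact mem_insert.2 (Or.inl h)
        · exact mem_insert.2 (Or.inr (mem_insert.2 (Or.inr h)))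
      · exact mem_insert.2 (Or.inr (hS2' h))
    have hcard : (S ∪ S').card ≤ 29 := by
      have h1 := card_le_card hsub
      have h2 := card_insert_le z (insert w I)
      have h3 := card_insert_le w I
      have := hJ.2.1
      omega
    obtain ⟨h1, h2, h3⟩ := pairs29 S hS1 S' hS1' hne hcard
    exact ⟨h1 hS3, h3.trans hsub⟩
  obtain ⟨z, hz, hzI⟩ : ∃ z ∈ J, z ∉ I := exists_mem_notMem_of_card_lt_card hc
  obtain ⟨w, hw, hwI, hwz⟩ : ∃ w ∈ J, w ∉ I ∧ w ≠ z := by
    by_contra hno
    push Not at hno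
    apply hcon z hz hzI
    have hsub : J ⊆ insert z I := by
      intro x hx
      by_cases h : x ∈ I
      · exact mem_insert.2 (Or.inr h)
      · exact mem_insert.2 (Or.inl (hno x hx h))
    have e : J = insert z I := by
      apply eq_of_subset_of_card_le hsub
      rw [card_insert_of_notMem hzI]; omega
    rw [← e]; exact hJ
  have hall : ∀ x ∈ J, x ∉ I → x ∈ range 6 := by
    intro x hx hxI
    by_cases h : x = z
    · rw [h]; exact (hpair z hz hzI w hw hwI hwz.symm).1
    · exact (hpair x hx hxI z hz hzI h).1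
  have h6 := (hpair z hz hzI w hw hwI hwz.symm).2
  have hI4 : 4 ≤ (I ∩ range 6).card := by
    have h1 : range 6 ⊆ insert z (insert w (I ∩ range 6)) := by
      intro x hx
      rcases mem_insert.1 (h6 hx) with h | h
      · exact mem_insert.2 (Or.inl h)
      · rcases mem_insert.1 h with h | h
        · exact mem_insert.2 (Or.inr (mem_insert.2 (Or.inl h)))
        · exact mem_insert.2 (Or.inr (mem_insert.2 (Or.inr (mem_inter.2 ⟨h, hx⟩))))
    have h2 := card_le_card h1
    have h3 := card_insert_le z (insert w (I ∩ range 6))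
    have h4 := card_insert_le w (I ∩ range 6)
    rw [card_range] at h2
    omega
  have hJ4 : (J ∩ range 6).card ≤ 4 := by
    by_contra h
    obtain ⟨S, hS1, hS2⟩ := five (J ∩ range 6) (mem_powerset.2 inter_subset_right) (by omega)
    exact hJ.2.2 S hS1 (hS2.trans inter_subset_left)
  have hsd : (J \ range 6).card ≤ (I \ range 6).card := by
    apply card_le_card
    intro x hx
    obtain ⟨h1, h2⟩ := mem_sdiff.1 hx
    refine mem_sdiff.2 ⟨?_, h2⟩
    by_contra h
    exact h2 (hall x h1 h)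
  have e1 := card_inter_add_card_sdiff J (range 6)
  have e2 := card_inter_add_card_sdiff I (range 6)
  omega

/-- the matroid of the classes -/
def Mhat : Matroid ℕ :=
  (IndepMatroid.ofFinset (↑(range 32) : Set ℕ) HIndep (by decide)
    (fun _ _ hJ h => hJ.mono h) (fun _ _ hI hJ hc => haug hI hJ hc)
    (fun _ hI => by exact_mod_cast hI.1)).matroid

lemma Mhat_indep (I : Finset ℕ) : Mhat.Indep ↑I ↔ HIndep I := by
  unfold Mhat
  rw [IndepMatroid.matroid_indep_iff, IndepMatroid.ofFinset_indep]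

/-- circuits of the class matroid -/
def Circ (Y : Finset ℕ) : Prop :=
  Y ⊆ range 32 ∧ ¬ HIndep Y ∧ ∀ y ∈ Y, HIndep (Y.erase y)

instance (Y : Finset ℕ) : Decidable (Circ Y) := by unfold Circ; infer_instance

/-- triples whose complements are circuits -/
def Hit (T : Finset ℕ) : Prop :=
  T ⊆ range 32 ∧ T.card = 3 ∧ ∀ S ∈ Sp, ¬ Disjoint S T

instance (T : Finset ℕ) : Decidable (Hit T) := by unfold Hit; infer_instance

lemma Hit.circ {T : Finset ℕ} (h : Hit T) : Circ (range 32 \ T) := by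
  obtain ⟨h1, h2, h3⟩ := h
  have hcard : (range 32 \ T).card = 29 := by
    rw [card_sdiff_of_subset h1, h2, card_range]
  refine ⟨sdiff_subset, fun h => ?_, ?_⟩
  · have := h.2.1; omega
  · intro y hy
    refine ⟨(erase_subset _ _).trans sdiff_subset, ?_, ?_⟩
    · rw [card_erase_of_mem hy]; omega
    · intro S hS hSs
      apply h3 S hS
      rw [Finset.disjoint_left]
      intro x hx hxT
      exact (mem_sdiff.1 (mem_of_mem_erase (hSs hx))).2 hxT

lemma circ_small : Circ {0, 1, 2, 3} ∧ Circ {0, 1, 4, 5} ∧ Circ {2, 3, 4, 5} := by decide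

lemma circ_D : Circ (D ∪ {0, 1}) ∧ Circ (D ∪ {2, 3}) := by decide

end Pool.Agent.Helper311_CD
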