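import Pool.Agent.Helper311_CD.Hat

set_option autoImplicit false

namespace Pool.Agent.Helper311_CD

open Finset

/-- dependent sets of three lines through the point `6` -/
def SpL : List (Finset ℕ) :=
  [{0, 1, 2, 3}, {0, 1, 4, 5}, {2, 3, 4, 5}, {0, 1, 6}, {2, 3, 6}, {4, 5, 6}]

def LIndep (I : Finset ℕ) : Prop := I ⊆ range 7 ∧ ∀ S ∈ SpL, ¬ S ⊆ I

instance (I : Finset ℕ) : Decidable (LIndep I) := by unfold LIndep; infer_instance

set_option maxRecDepth 100000 in
lemma laug : ∀ I ∈ (range 7).powerset, LIndep I → ∀ J ∈ (range 7).powerset, LIndep J →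
    I.card < J.card → ∃ z ∈ J, z ∉ I ∧ LIndep (insert z I) := by decide +kernel

lemma LIndep.mono {I J : Finset ℕ} (hJ : LIndep J) (h : I ⊆ J) : LIndep I :=
  ⟨h.trans hJ.1, fun S hS hSI => hJ.2 S hS (hSI.trans h)⟩

/-- the matroid of three lines (with two points each) through a common point -/
def Lhat : Matroid ℕ :=
  (IndepMatroid.ofFinset (↑(range 7) : Set ℕ) LIndep (by decide)
    (fun _ _ hJ h => hJ.mono h)
    (fun _ _ hI hJ hc => laug _ (mem_powerset.2 hI.1) hI _ (mem_powerset.2 hJ.1) hJ hc)
    (fun _ hI => by exact_mod_cast hI.1)).matroid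

lemma Lhat_indep (I : Finset ℕ) : Lhat.Indep ↑I ↔ LIndep I := by
  unfold Lhat
  rw [IndepMatroid.matroid_indep_iff, IndepMatroid.ofFinset_indep]

lemma L_H : ∀ Y ∈ (range 6).powerset, (LIndep Y ↔ HIndep Y) := by decide +kernel

/-- sets without a full line stay independent with the point -/
lemma L_pairs : ∀ Y ∈ (range 6).powerset, (∀ a ∈ Y, ∀ b ∈ Y, LIndep (insert 6 {a, b})) →
    LIndep (insert 6 Y) := by decide +kernel

/-- on the fat classes only the three planes matter -/
lemma HIndep_YF {Y : Finset ℕ} (hY : Y ⊆ range 32 \ {6, 7})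
    (h : ∀ S ∈ ([{0, 1, 2, 3}, {0, 1, 4, 5}, {2, 3, 4, 5}] : List (Finset ℕ)), ¬ S ⊆ Y) :
    HIndep Y := by
  have h6 : 6 ∉ Y := fun hh => by
    have := (mem_sdiff.1 (hY hh)).2
    simp at this
  refine ⟨hY.trans sdiff_subset, ?_, ?_⟩
  · have h4 : (Y ∩ range 6).card ≤ 4 := by
      by_contra hcon
      obtain ⟨S, hS, hSY⟩ := five (Y ∩ range 6) (mem_powerset.2 inter_subset_right) (by omega)
      have hS' : S ∈ ([{0, 1, 2, 3}, {0, 1, 4, 5}, {2, 3, 4, 5}] : List (Finset ℕ)) := by
        unfold Sp at hS
        simp only [List.mem_cons, List.not_mem_nil, or_false] at hS ⊢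
        rcases hS with h | h | h | h | h
        · exact Or.inl h
        · exact Or.inr (Or.inl h)
        · exact Or.inr (Or.inr h)
        · exfalso
          have h6' : (6 : ℕ) ∈ S := by rw [h]; decide
          exact h6 (mem_inter.1 (hSY h6')).1
        · exfalso
          have h6' : (6 : ℕ) ∈ S := by rw [h]; decide
          exact h6 (mem_inter.1 (hSY h6')).1
      exact h S hS' (hSY.trans inter_subset_left)
    have h24 : (Y \ range 6).card ≤ 24 := by
      have hs : Y \ range 6 ⊆ Icc 8 31 := by
        intro x hx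
        obtain ⟨h1, h2⟩ := mem_sdiff.1 hx
        have h3 := hY h1
        simp only [mem_sdiff, mem_range, mem_insert, mem_singleton] at h2 h3
        rw [mem_Icc]
        omega
      have := card_le_card hs
      have e : (Icc 8 31).card = 24 := by decide
      omega
    have := card_inter_add_card_sdiff Y (range 6)
    omega
  · intro S hS hSY
    unfold Sp at hS
    simp only [List.mem_cons, List.not_mem_nil, or_false] at hS
    rcases hS with hS | hS | hS | hS | hS
    · exact h S (by simp [hS]) hSY
    · exact h S (by simp [hS]) hSY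
    · exact h S (by simp [hS]) hSY
    · exact h6 (hSY (by rw [hS]; decide))
    · exact h6 (hSY (by rw [hS]; decide))

end Pool.Agent.Helper311_CD
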