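import Pool.Agent.Helper311_CD.Big

set_option autoImplicit false

namespace Pool.Agent.Helper311_CD

open Set Matroid H211.MC

variable {N : Matroid ℕ} {ρ : ℕ → ℕ}

lemma twin_contract_set {z z' : ℕ} {C : Set ℕ} (h : Twin N z z') (hz : z ∉ N.closure C) :
    Twin (N.contract C) z z' := by
  obtain ⟨c1, c2⟩ := twin_closure h
  obtain ⟨n1, n2⟩ := twin_nonloop h
  have hz' : z' ∉ N.closure C := fun h' =>
    hz (N.closure_subset_closure_of_subset_closure (by simpa using h') c1)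
  have hzC : z ∉ C := fun h => hz (N.mem_closure_of_mem' h n1.mem_ground)
  have hzC' : z' ∉ C := fun h => hz' (N.mem_closure_of_mem' h n2.mem_ground)
  have k1 : (N.contract C).IsNonloop z := contract_isNonloop_iff.2 ⟨n1.mem_ground, hz⟩
  have k2 : (N.contract C).IsNonloop z' := contract_isNonloop_iff.2 ⟨n2.mem_ground, hz'⟩
  refine ⟨h.1, ?_⟩
  rw [isCircuit_iff_dep_forall_sdiff_singleton_indep]
  refine ⟨h.2.contract_dep ?_, ?_⟩
  · rw [Set.disjoint_right]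
    intro w hw
    rcases hw with rfl | hw
    · exact hzC
    · rw [mem_singleton_iff] at hw; rw [hw]; exact hzC'
  · intro w hw
    rcases hw with rfl | hw
    · refine (indep_singleton.2 k2).subset ?_
      intro v hv
      rcases hv.1 with h | h
      · exact absurd h hv.2
      · exact h
    · rw [mem_singleton_iff] at hw
      subst hw
      refine (indep_singleton.2 k1).subset ?_
      intro v hv
      rcases hv.1 with h | h
      · exact h
      · exact absurd h hv.2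

/-- the fat classes -/
def YF : Finset ℕ := Finset.range 32 \ {6, 7}

lemma mem_YF {q : ℕ} : q ∈ YF ↔ q ∈ Finset.range 32 ∧ q ≠ 6 ∧ q ≠ 7 := by
  unfold YF; simp

lemma fat_p4 [N.Finite] (htw : ∀ q ∈ YF, N.IsNonloop (ρ q) → ∃ z', Twin N (ρ q) z')
    {Z : Set ℕ} (hZ : N.IsCircuit Z) (hZs : Z ⊆ ρ '' ↑YF) (h5 : 5 ≤ Z.ncard) :
    ∃ q ∈ Finset.range 32, N.IsNonloop (ρ q) ∧ Dp N (ρ q) 3 := by
  have hnl : ∀ z ∈ Z, N.IsNonloop z := by
    intro z hz
    obtain ⟨w, hw, hwz⟩ := exists_ne_of_two_le (Z := Z) (by omega) z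
    exact circuit_nonloop hZ hz hw hwz
  obtain ⟨z, hz⟩ := hZ.nonempty
  obtain ⟨q, hq, rfl⟩ := hZs hz
  refine ⟨q, (mem_YF.1 (by simpa using hq)).1, hnl _ hz, ?_⟩
  refine p4a ∅ (by simp) hZ h5 (fun z hz => Or.inr ?_) (by simp) hz
  obtain ⟨q', hq', rfl⟩ := hZs hz
  exact htw q' (by simpa using hq') (hnl _ hz)

lemma coloops [N.Finite] {F G : Set ℕ} (hF : F ⊆ N.E) (hG : G ⊆ F)
    (hr : F.ncard ≤ rk N F + 4) (h4 : ∀ Z ⊆ F, N.IsCircuit Z → Z.ncard ≤ 4) :
    ∃ D1 ⊆ G, G.ncard ≤ D1.ncard + 16 ∧ ∀ g ∈ D1, g ∉ N.closure (F \ {g}) := by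
  classical
  obtain ⟨I, hI⟩ := N.exists_isBasis F
  have hFf : F.Finite := N.ground_finite.subset hF
  have hIr : rk N F = I.ncard := by
    rw [← rk_indep N hI.indep]; unfold rk; rw [hI.eRk_eq_eRk]
  have hJf : (F \ I).Finite := hFf.subset sdiff_subset
  have hJ : (F \ I).ncard ≤ 4 := by
    have := Set.ncard_sdiff_add_ncard_of_subset hI.subset hFf
    omega
  have hcirc : ∀ y ∈ F \ I, N.IsCircuit (N.fundCircuit y I) ∧ N.fundCircuit y I ⊆ F := by
    intro y hy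
    refine ⟨hI.indep.fundCircuit_isCircuit (hI.subset_closure hy.1) hy.2, ?_⟩
    exact (N.fundCircuit_subset_insert y I).trans (insert_subset hy.1 hI.subset)
  have hcf : ∀ y ∈ F \ I, (N.fundCircuit y I).Finite := fun y hy => hFf.subset (hcirc y hy).2
  let fc : ℕ → Finset ℕ := fun y => if h : y ∈ F \ I then (hcf y h).toFinset else ∅
  let U : Finset ℕ := hJf.toFinset.biUnion fc
  have hUc : U.card ≤ 16 := by
    have h1 : U.card ≤ hJf.toFinset.card * 4 := by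
      apply Finset.card_biUnion_le_card_mul
      intro y hy
      have hy' : y ∈ F \ I := by simpa using hy
      simp only [fc, hy', dif_pos]
      have := h4 _ (hcirc y hy').2 (hcirc y hy').1
      rwa [Set.ncard_eq_toFinset_card _ (hcf y hy')] at this
    rw [Set.ncard_eq_toFinset_card _ hJf] at hJ
    omega
  have hmem : ∀ y ∈ F \ I, ∀ z ∈ N.fundCircuit y I, z ∈ U := by
    intro y hy z hz
    refine Finset.mem_biUnion.2 ⟨y, by simpa using hy, ?_⟩
    simp only [fc, hy, dif_pos]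
    simpa using hz
  refine ⟨G \ ↑U, sdiff_subset, ?_, ?_⟩
  · have h1 : G.ncard ≤ (G \ ↑U).ncard + (↑U : Set ℕ).ncard := by
      have hGf := hFf.subset hG
      have : G ⊆ (G \ ↑U) ∪ ↑U := by
        intro x hx
        by_cases h : x ∈ (↑U : Set ℕ)
        · exact Or.inr h
        · exact Or.inl ⟨hx, h⟩
      exact (Set.ncard_le_ncard this ((hGf.subset sdiff_subset).union U.finite_toSet)).trans
        (Set.ncard_union_le _ _)
    rw [Set.ncard_coe_finset] at h1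
    omega
  · intro g hg hcl
    have hgI : g ∈ I := by
      by_contra h
      exact hg.2 (by exact_mod_cast hmem g ⟨hG hg.1, h⟩ g (N.mem_fundCircuit g I))
    have hsub : F \ {g} ⊆ N.closure (I \ {g}) := by
      intro y hy
      by_cases hyI : y ∈ I
      · exact N.mem_closure_of_mem ⟨hyI, hy.2⟩ (sdiff_subset.trans hI.indep.subset_ground)
      · have hyF : y ∈ F \ I := ⟨hy.1, hyI⟩
        have h1 := (hcirc y hyF).1.mem_closure_sdiff_singleton_of_mem (N.mem_fundCircuit y I)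
        refine N.closure_subset_closure ?_ h1
        intro z hz
        refine ⟨?_, ?_⟩
        · rcases N.fundCircuit_subset_insert y I hz.1 with h | h
          · exact absurd h hz.2
          · exact h
        · intro hzg
          rw [mem_singleton_iff] at hzg
          exact hg.2 (by exact_mod_cast hmem y hyF g (hzg ▸ hz.1))
    exact hI.indep.notMem_closure_sdiff_of_mem hgI
      (N.closure_subset_closure_of_subset_closure hsub hcl)

lemma CW_facts : ∀ θ ∈ [6, 7], ∀ θ' ∈ [6, 7], θ ≠ θ' →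
    Circ (CW θ' {0, 1, 3, 5}) ∧ θ ∈ CW θ' {0, 1, 3, 5} ∧ θ' ∉ CW θ' {0, 1, 3, 5} ∧
    (∀ k ∈ Finset.Icc 8 31, k ∈ CW θ' {0, 1, 3, 5}) ∧
    CW θ' {0, 1, 3, 5} ⊆ insert θ YF ∧ (CW θ' {0, 1, 3, 5}).card = 29 := by decide

/-- the long circuit through a thin element -/
lemma thin_circuit [N.Finite] (h : Emb N ρ) {C : Set ℕ} (hCE : C ⊆ N.E) {D1 : Set ℕ}
    (hD1 : D1 ⊆ ρ '' ↑(Finset.Icc 8 31)) (hne : D1.Nonempty) (hD1C : ∀ g ∈ D1, g ∉ C)
    (hcl : ∀ g ∈ D1, g ∉ (N.contract C).closure ((ρ '' ↑YF \ C) \ {g}))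
    {θ θ' : ℕ} (hθ : θ ∈ [6, 7]) (hθ' : θ' ∈ [6, 7]) (hθθ : θ ≠ θ') :
    ∃ Z, (N.contract C).IsCircuit Z ∧ ρ θ ∈ Z ∧ Z ⊆ insert (ρ θ) (ρ '' ↑YF) ∧ D1 ⊆ Z := by
  obtain ⟨f1, f2, f3, f4, f5, -⟩ := CW_facts θ hθ θ' hθ' hθθ
  have hdec : ∀ θ ∈ [6, 7], θ ∈ Finset.range 32 ∧ θ ∉ YF := by decide
  obtain ⟨hθr, hθF⟩ := hdec θ hθ
  have hc := h.circuit f1
  set F : Set ℕ := ρ '' ↑YF with hF
  have hFE : F ⊆ N.E := h.subset (by decide)
  have hsubs : ρ '' ↑(CW θ' {0, 1, 3, 5}) ⊆ insert (ρ θ) F := by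
    rintro _ ⟨q, hq, rfl⟩
    have := f5 (by simpa using hq)
    rcases Finset.mem_insert.1 this with h | h
    · left; rw [h]
    · right; exact ⟨q, by simpa using h, rfl⟩
  have hθnF : ρ θ ∉ F := by
    rintro ⟨q, hq, hqq⟩
    have hq' : q ∈ YF := by simpa using hq
    have := h.inj q (mem_YF.1 hq').1 θ hθr hqq
    exact hθF (this ▸ hq')
  have hcl' : ∀ g ∈ D1, g ∉ N.closure ((F \ C) \ {g} ∪ C) := by
    intro g hg hh
    apply hcl g hg
    rw [contract_closure_eq]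
    exact ⟨hh, hD1C g hg⟩
  have hx : ∀ g ∈ D1, ρ θ ∉ N.closure ((F \ C) \ {g} ∪ C) := by
    intro g hg hh
    apply hcl' g hg
    obtain ⟨k, hk, rfl⟩ := hD1 hg
    have hkc := f4 k (by simpa using hk)
    have h1 := hc.mem_closure_sdiff_singleton_of_mem (e := ρ k) ⟨k, by simpa using hkc, rfl⟩
    refine N.closure_subset_closure_of_subset_closure ?_ h1
    intro y hy
    rcases hsubs hy.1 with h2 | h2
    · rw [h2]; exact hh
    · refine N.mem_closure_of_mem' ?_ (hFE h2)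
      by_cases hyC : y ∈ C
      · exact Or.inr hyC
      · exact Or.inl ⟨⟨h2, hyC⟩, hy.2⟩
  obtain ⟨g0, hg0⟩ := hne
  have hθC : ρ θ ∉ C := fun hh => hx g0 hg0 (N.mem_closure_of_mem' (Or.inr hh) (hCE hh))
  have hmem : ρ θ ∈ (N.contract C).closure (F \ C) := by
    rw [contract_closure_eq]
    refine ⟨?_, hθC⟩
    have h1 := hc.mem_closure_sdiff_singleton_of_mem (e := ρ θ) ⟨θ, by simpa using f2, rfl⟩
    refine N.closure_subset_closure_of_subset_closure ?_ h1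
    intro y hy
    rcases hsubs hy.1 with h2 | h2
    · exact absurd h2 hy.2
    · refine N.mem_closure_of_mem' ?_ (hFE h2)
      by_cases hyC : y ∈ C
      · exact Or.inr hyC
      · exact Or.inl ⟨h2, hyC⟩
  obtain ⟨Z, hZs, hZ, hZθ⟩ := exists_isCircuit_of_mem_closure hmem (fun hh => hθnF hh.1)
  refine ⟨Z, hZ, hZθ, hZs.trans (insert_subset_insert sdiff_subset), ?_⟩
  intro g hg
  by_contra hgZ
  apply hx g hg
  have h1 := hZ.mem_closure_sdiff_singleton_of_mem hZθ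
  have h2 : ρ θ ∈ (N.contract C).closure ((F \ C) \ {g}) := by
    refine (N.contract C).closure_subset_closure ?_ h1
    intro y hy
    rcases hZs hy.1 with h3 | h3
    · exact absurd h3 hy.2
    · exact ⟨h3, fun h4 => hgZ (by rw [mem_singleton_iff] at h4; exact h4 ▸ hy.1)⟩
  rw [contract_closure_eq] at h2
  exact h2.1

lemma basis_card : HIndep ((Finset.Icc 8 31) ∪ {0, 1, 3, 5}) ∧
    ((Finset.Icc 8 31) ∪ {0, 1, 3, 5} : Finset ℕ).card = 28 ∧
    ((Finset.Icc 8 31) ∪ {0, 1, 3, 5} : Finset ℕ) ⊆ YF ∧ YF.card = 30 ∧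
    (Finset.Icc 8 31).card = 24 ∧ Finset.Icc 8 31 ⊆ YF ∧ YF ⊆ Finset.range 32 := by decide

/-- both thin elements alive, at most two contractions -/
theorem lev4_s0 [N.Finite] (h : S4 N ρ) (C : Finset ℕ) (hC : C.card ≤ 2) (hCE : ↑C ⊆ N.E) :
    ∃ q ∈ Finset.range 32, (N.contract ↑C).IsNonloop (ρ q) ∧ Dp (N.contract ↑C) (ρ q) 3 := by
  obtain ⟨b1, b2, b3, b4, b5, b6, b7⟩ := basis_card
  have htw : ∀ q ∈ YF, (N.contract ↑C).IsNonloop (ρ q) →
      ∃ z', Twin (N.contract ↑C) (ρ q) z' ∧ z' ≠ ρ 6 ∧ z' ≠ ρ 7 := by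
    intro q hq hnl
    obtain ⟨q1, q2, q3⟩ := mem_YF.1 hq
    obtain ⟨z', hz', h6, h7⟩ := h.tw q q1 q2 q3
    rw [contract_isNonloop_iff] at hnl
    exact ⟨z', twin_contract_set hz' hnl.2, h6, h7⟩
  by_cases hbig : ∃ Z, (N.contract ↑C).IsCircuit Z ∧ Z ⊆ ρ '' ↑YF ∧ 5 ≤ Z.ncard
  · obtain ⟨Z, hZ, hZs, h5⟩ := hbig
    exact fat_p4 (fun q hq hnl => (htw q hq hnl).imp fun z' h => h.1) hZ hZs h5
  push Not at hbig
  set F : Set ℕ := ρ '' ↑YF with hF
  have hFE : F ⊆ N.E := h.emb.subset b7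
  have hFf : F.Finite := N.ground_finite.subset hFE
  have hFn : F.ncard = 30 := by rw [hF, h.emb.ncard b7, b4]
  have hrF : 28 ≤ rk N F := by
    have h1 : N.Indep (ρ '' ↑((Finset.Icc 8 31) ∪ {0, 1, 3, 5} : Finset ℕ)) :=
      (h.emb.ind _ b1.1).2 b1
    have h2 := rk_indep N h1
    rw [h.emb.ncard b1.1, b2] at h2
    have h3 : rk N (ρ '' ↑((Finset.Icc 8 31) ∪ {0, 1, 3, 5} : Finset ℕ)) ≤ rk N F :=
      rk_mono N (image_mono (by exact_mod_cast b3))
    omega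
  have hrC : rk N ↑C ≤ 2 := by
    have := rk_le_ncard N (I := ↑C) C.finite_toSet
    rw [Set.ncard_coe_finset] at this
    omega
  have hF1 : F \ ↑C ⊆ N.E \ ↑C := sdiff_subset_sdiff_left hFE
  have hr1 : (F \ ↑C).ncard ≤ rk (N.contract ↑C) (F \ ↑C) + 4 := by
    have h1 := rk_contract N hCE hF1
    have h2 : rk N F ≤ rk N (F \ ↑C ∪ ↑C) := rk_mono N (by
      intro x hx
      by_cases hxC : x ∈ (↑C : Set ℕ)
      · exact Or.inr hxC
      · exact Or.inl ⟨hx, hxC⟩)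
    have h3 : (F \ ↑C).ncard ≤ F.ncard := Set.ncard_le_ncard sdiff_subset hFf
    omega
  have hG : (ρ '' ↑(Finset.Icc 8 31)) \ ↑C ⊆ F \ ↑C :=
    sdiff_subset_sdiff_left (image_mono (by exact_mod_cast b6))
  obtain ⟨D1, hD1s, hD1c, hD1⟩ := coloops (N := N.contract ↑C) hF1 hG hr1 (by
    intro Z hZs hZ
    have := hbig Z hZ (hZs.trans sdiff_subset)
    omega)
  have hGn : 22 ≤ ((ρ '' (↑(Finset.Icc 8 31) : Set ℕ)) \ ↑C).ncard := by
    have h1 := h.emb.ncard (b6.trans b7)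
    rw [b5] at h1
    have h2 := Set.ncard_sdiff_add_ncard_of_subset (s := (ρ '' ↑(Finset.Icc 8 31)) ∩ ↑C)
      (t := ρ '' (↑(Finset.Icc 8 31) : Set ℕ)) inter_subset_left
      ((Finset.finite_toSet _).image _)
    have e3 : (ρ '' (↑(Finset.Icc 8 31) : Set ℕ)) \ ((ρ '' (↑(Finset.Icc 8 31) : Set ℕ)) ∩ ↑C) =
        (ρ '' (↑(Finset.Icc 8 31) : Set ℕ)) \ ↑C := by
      ext x; simp only [mem_sdiff, mem_inter_iff]; tauto
    rw [e3] at h2
    have h3 : ((ρ '' (↑(Finset.Icc 8 31) : Set ℕ)) ∩ ↑C).ncard ≤ 2 := by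
      have := Set.ncard_le_ncard (inter_subset_right (s := ρ '' (↑(Finset.Icc 8 31) : Set ℕ))
        (t := (↑C : Set ℕ))) C.finite_toSet
      rw [Set.ncard_coe_finset] at this
      omega
    omega
  have hD1f : D1.Finite := hFf.subset (hD1s.trans (hG.trans sdiff_subset))
  have hne : D1.Nonempty := (Set.ncard_pos hD1f).1 (by omega)
  have hD1i : D1 ⊆ ρ '' ↑(Finset.Icc 8 31) := hD1s.trans sdiff_subset
  have hD1C : ∀ g ∈ D1, g ∉ (↑C : Set ℕ) := fun g hg => (hD1s hg).2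
  obtain ⟨Z7, hZ7, h77, hs7, hd7⟩ := thin_circuit h.emb hCE hD1i hne hD1C hD1
    (θ := 7) (θ' := 6) (by decide) (by decide) (by decide)
  obtain ⟨Z6, hZ6, h66, hs6, hd6⟩ := thin_circuit h.emb hCE hD1i hne hD1C hD1
    (θ := 6) (θ' := 7) (by decide) (by decide) (by decide)
  obtain ⟨g, hg⟩ := hne
  obtain ⟨k, hk, hkg⟩ := hD1i hg
  have hkY : k ∈ YF := b6 (by simpa using hk)
  have hZf : ∀ Z, (N.contract ↑C).IsCircuit Z → Z.Finite := fun Z hZ =>
    (N.contract ↑C).ground_finite.subset hZ.subset_ground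
  have hc7 : 6 ≤ Z7.ncard := by
    have := Set.ncard_le_ncard hd7 (hZf _ hZ7); omega
  have hc6 : 6 ≤ Z6.ncard := by
    have := Set.ncard_le_ncard hd6 (hZf _ hZ6); omega
  have hgnl : (N.contract ↑C).IsNonloop g := by
    obtain ⟨w, hw, hwz⟩ := exists_ne_of_two_le (Z := Z7) (by omega) g
    exact circuit_nonloop hZ7 (hd7 hg) hw hwz
  refine ⟨k, (mem_YF.1 hkY).1, by rw [hkg]; exact hgnl, ?_⟩
  rw [hkg]
  have h67 : ρ 6 ≠ ρ 7 := fun hh => absurd (h.emb.inj 6 (by decide) 7 (by decide) hh) (by decide)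
  have h6F : ρ 6 ∉ F := by
    rintro ⟨q, hq, hqq⟩
    have hq' : q ∈ YF := by simpa using hq
    have := h.emb.inj q (mem_YF.1 hq').1 6 (by decide) hqq
    exact (mem_YF.1 hq').2.1 this
  have h7F : ρ 7 ∉ F := by
    rintro ⟨q, hq, hqq⟩
    have hq' : q ∈ YF := by simpa using hq
    have := h.emb.inj q (mem_YF.1 hq').1 7 (by decide) hqq
    exact (mem_YF.1 hq').2.2 this
  refine p4a {ρ 6, ρ 7} (Finset.card_insert_le _ _) hZ7 (by omega) ?_ ?_ (hd7 hg)
  · intro z hz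
    rcases hs7 hz with hz7 | hzF
    · left; simp [hz7]
    · right
      obtain ⟨q, hq, rfl⟩ := hzF
      obtain ⟨w, hw, hwz⟩ := exists_ne_of_two_le (Z := Z7) (by omega) (ρ q)
      obtain ⟨z', hz', -, -⟩ := htw q (by simpa using hq) (circuit_nonloop hZ7 hz hw hwz)
      exact ⟨z', hz'⟩
  · intro θ hθ hθZ
    have hθ7 : θ = ρ 7 := by
      rcases hs7 hθZ with h1 | h1
      · exact h1
      · exfalso
        rw [Finset.mem_insert, Finset.mem_singleton] at hθ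
        rcases hθ with rfl | rfl
        · exact h6F h1
        · exact h7F h1
    subst hθ7
    refine ⟨Z6, hZ6, fun h1 => ?_, by omega, ?_, g, hd6 hg, mem_comp_of_circuit hZ7 h77 (hd7 hg)⟩
    · rcases hs6 h1 with h2 | h2
      · exact h67 h2.symm
      · exact h7F h2
    · obtain ⟨z', hz', -, h7'⟩ := htw k hkY (by rw [hkg]; exact hgnl)
      rw [hkg] at hz'
      exact ⟨g, hd6 hg, z', hz', h7'⟩

end Pool.Agent.Helper311_CD
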