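import Pool.Agent.Helper311_CD.LevA

set_option autoImplicit false

namespace Pool.Agent.Helper311_CD

open Set Matroid H211.MC

variable {N : Matroid ℕ} {ρ : ℕ → ℕ}

lemma delete_closure_sub {X D : Set ℕ} : (N.delete D).closure X ⊆ N.closure X := by
  rw [delete_closure_eq]
  exact sdiff_subset.trans (N.closure_subset_closure sdiff_subset)

lemma image_notMem (h : Emb N ρ) {Y : Finset ℕ} (hY : Y ⊆ Finset.range 32) {θ : ℕ}
    (hθ : θ ∈ Finset.range 32) (hθY : θ ∉ Y) : ρ θ ∉ ρ '' (↑Y : Set ℕ) := by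
  rintro ⟨q, hq, hqq⟩
  have hq' : q ∈ Y := by simpa using hq
  exact hθY (h.inj q (hY hq') θ hθ hqq ▸ hq')

lemma ph_delete {D : Set ℕ} {f : ℕ} {Y : Finset ℕ} (h : ¬ Ph N ρ f Y) :
    f ∉ (N.delete D).closure (ρ '' ↑Y) := fun h' => h (delete_closure_sub h')

lemma three_cards : ∀ Y : Finset ℕ, (Y = {0, 1, 2, 3} ∨ Y = {0, 1, 4, 5} ∨
    Y = ({2, 3, 4, 5} : Finset ℕ)) → Y.card = 4 ∧ Circ Y ∧ Y ⊆ YF ∧ 6 ∉ Y ∧ 7 ∉ Y ∧
      (2 ∈ Y ∨ 0 ∈ Y) ∧ Y ⊆ Finset.range 6 := by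
  intro Y hY
  rcases hY with rfl | rfl | rfl <;> decide

/-- both thin elements deleted -/
theorem lev4_s2 [N.Finite] (h : S4 N ρ) :
    ∃ q ∈ Finset.range 32, (N.delete {ρ 6, ρ 7}).IsNonloop (ρ q) ∧
      Dp (N.delete {ρ 6, ρ 7}) (ρ q) 3 := by
  have hcirc : ∀ Y : Finset ℕ, Circ Y → 6 ∉ Y → 7 ∉ Y →
      (N.delete {ρ 6, ρ 7}).IsCircuit (ρ '' ↑Y) := by
    intro Y hY h6 h7
    rw [delete_isCircuit_iff]
    refine ⟨h.emb.circuit hY, ?_⟩
    rw [Set.disjoint_right]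
    intro w hw
    rcases hw with rfl | hw
    · exact image_notMem h.emb hY.1 (by decide) h6
    · rw [mem_singleton_iff] at hw; rw [hw]
      exact image_notMem h.emb hY.1 (by decide) h7
  have htw : ∀ q ∈ YF, ∃ z', Twin (N.delete {ρ 6, ρ 7}) (ρ q) z' := by
    intro q hq
    obtain ⟨q1, q2, q3⟩ := mem_YF.1 hq
    obtain ⟨z', hz', h6, h7⟩ := h.tw q q1 q2 q3
    refine ⟨z', hz'.1, delete_isCircuit_iff.2 ⟨hz'.2, ?_⟩⟩
    rw [Set.disjoint_left]
    intro w hw hw'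
    rcases hw with rfl | hw
    · rcases hw' with hw' | hw'
      · exact q2 (h.emb.inj q q1 6 (by decide) hw')
      · exact q3 (h.emb.inj q q1 7 (by decide) hw')
    · rw [mem_singleton_iff] at hw; subst hw
      rcases hw' with hw' | hw'
      · exact h6 hw'
      · exact h7 hw'
  obtain ⟨c12, c13, c23⟩ := circ_small
  have C12 := hcirc _ c12 (by decide) (by decide)
  have hm : ∀ q ∈ ({0, 1, 2, 3} : Finset ℕ), ρ q ∈ ρ '' (↑({0, 1, 2, 3} : Finset ℕ) : Set ℕ) :=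
    fun q hq => ⟨q, by exact_mod_cast hq, rfl⟩
  have hcard : ∀ Y : Finset ℕ, Y ⊆ YF → (ρ '' (↑Y : Set ℕ)).ncard = Y.card := fun Y hY =>
    h.emb.ncard (hY.trans (by decide))
  refine ⟨0, by decide, circuit_nonloop C12 (hm 0 (by decide)) (hm 1 (by decide)) (fun hh =>
    absurd (h.emb.inj 1 (by decide) 0 (by decide) hh) (by decide)), ?_⟩
  refine p4b C12 (by rw [hcard _ (by decide)]; decide) ?_ (hm 0 (by decide)) ?_
  · rintro _ ⟨q, hq, rfl⟩
    apply htw q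
    have hq' : q ∈ ({0, 1, 2, 3} : Finset ℕ) := by exact_mod_cast hq
    have : ({0, 1, 2, 3} : Finset ℕ) ⊆ YF := by decide
    exact this hq'
  · intro f hf
    have hf' : N.IsNonloop f := (delete_isNonloop_iff.1 hf).1
    obtain ⟨Y, hY, hΦ⟩ := vamos_emb h.emb hf'
    obtain ⟨k1, k2, k3, k4, k5, k6, k7⟩ := three_cards Y hY
    have CY := hcirc Y k2 k4 k5
    refine ⟨ρ '' ↑Y, CY, ph_delete hΦ, by rw [hcard _ k3, k1]; omega, ?_, ?_⟩
    · rcases k6 with h2 | h0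
      · exact circuit_subset_comp CY (z := ρ 2) ⟨2, by exact_mod_cast h2, rfl⟩
          (mem_comp_of_circuit C12 (hm 0 (by decide)) (hm 2 (by decide)))
      · exact fun x hx => mem_comp_of_circuit CY ⟨0, by exact_mod_cast h0, rfl⟩ hx
    · obtain ⟨q, hq⟩ : Y.Nonempty := Finset.card_pos.1 (by omega)
      obtain ⟨z', hz'⟩ := htw q (k3 hq)
      exact ⟨ρ q, ⟨q, by exact_mod_cast hq, rfl⟩, z', hz'⟩

lemma theta_range : ∀ θ ∈ [6, 7], θ ∈ Finset.range 32 ∧ θ ∉ YF := by decide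

lemma delete_circ (h : Emb N ρ) {θ' : ℕ} (hθ' : θ' ∈ [6, 7]) {Y : Finset ℕ} (hY : Circ Y)
    (h' : θ' ∉ Y) : (N.delete {ρ θ'}).IsCircuit (ρ '' ↑Y) :=
  delete_circuit (h.circuit hY) (image_notMem h hY.1 (theta_range θ' hθ').1 h')

lemma delete_twin (h : S4 N ρ) {θ' : ℕ} (hθ' : θ' ∈ [6, 7]) {q : ℕ} (hq : q ∈ YF) :
    ∃ z', Twin (N.delete {ρ θ'}) (ρ q) z' ∧ z' ≠ ρ 6 ∧ z' ≠ ρ 7 := by
  obtain ⟨q1, q2, q3⟩ := mem_YF.1 hq
  obtain ⟨z', hz', h6, h7⟩ := h.tw q q1 q2 q3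
  have hθ : θ' = 6 ∨ θ' = 7 := by simpa using hθ'
  refine ⟨z', twin_delete hz' ?_ ?_, h6, h7⟩
  · intro hh
    have := h.emb.inj θ' (theta_range θ' hθ').1 q q1 hh
    rcases hθ with rfl | rfl
    · exact q2 this.symm
    · exact q3 this.symm
  · rcases hθ with rfl | rfl
    · exact h6.symm
    · exact h7.symm

/-- one thin element deleted, no contraction -/
theorem lev4_s1a [N.Finite] (h : S4 N ρ) {θ θ' : ℕ} (hθ : θ ∈ [6, 7]) (hθ' : θ' ∈ [6, 7])
    (hθθ : θ ≠ θ') :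
    ∃ q ∈ Finset.range 32, (N.delete {ρ θ'}).IsNonloop (ρ q) ∧ Dp (N.delete {ρ θ'}) (ρ q) 3 := by
  obtain ⟨f1, f2, f3, f4, f5, f6⟩ := CW_facts θ hθ θ' hθ' hθθ
  obtain ⟨t1, t2⟩ := theta_range θ hθ
  obtain ⟨c12, c13, c23⟩ := circ_small
  have hd : ∀ θ' ∈ [6, 7], θ' ∉ ({0, 1, 2, 3} : Finset ℕ) := by decide
  have C12 := delete_circ h.emb hθ' c12 (hd θ' hθ')
  have CZ := delete_circ h.emb hθ' f1 f3
  have h0Z : (0 : ℕ) ∈ CW θ' {0, 1, 3, 5} := Finset.mem_union_right _ (by decide)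
  have h1Z : (1 : ℕ) ∈ CW θ' {0, 1, 3, 5} := Finset.mem_union_right _ (by decide)
  have i0 : ρ 0 ∈ ρ '' (↑(CW θ' {0, 1, 3, 5}) : Set ℕ) := ⟨0, by exact_mod_cast h0Z, rfl⟩
  have i1 : ρ 1 ∈ ρ '' (↑(CW θ' {0, 1, 3, 5}) : Set ℕ) := ⟨1, by exact_mod_cast h1Z, rfl⟩
  have iθ : ρ θ ∈ ρ '' (↑(CW θ' {0, 1, 3, 5}) : Set ℕ) := ⟨θ, by exact_mod_cast f2, rfl⟩
  refine ⟨0, by decide, circuit_nonloop CZ i0 i1 (fun hh =>
    absurd (h.emb.inj 1 (by decide) 0 (by decide) hh) (by decide)), ?_⟩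
  refine p4a {ρ θ} (by simp) CZ (by rw [h.emb.ncard f1.1, f6]; omega) ?_ ?_ i0
  · rintro _ ⟨q, hq, rfl⟩
    have hq' := f5 (by exact_mod_cast hq : q ∈ CW θ' {0, 1, 3, 5})
    rcases Finset.mem_insert.1 hq' with rfl | hq'
    · left; simp
    · right
      obtain ⟨z', hz', -, -⟩ := delete_twin h hθ' hq'
      exact ⟨z', hz'⟩
  · intro x hx _
    rw [Finset.mem_singleton] at hx
    subst hx
    refine ⟨_, C12, image_notMem h.emb c12.1 t1 (hd θ hθ), by
      rw [h.emb.ncard c12.1]; decide, ?_, ρ 0, ⟨0, by simp, rfl⟩,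
      mem_comp_of_circuit CZ iθ i0⟩
    obtain ⟨z', hz', z6, z7⟩ := delete_twin h hθ' (q := 0) (by decide)
    refine ⟨ρ 0, ⟨0, by simp, rfl⟩, z', hz', ?_⟩
    have : θ = 6 ∨ θ = 7 := by simpa using hθ
    rcases this with rfl | rfl
    · exact z6
    · exact z7

/-- one side of a separated long circuit is a circuit of the contraction -/
lemma circ_of_side (h : Emb N ρ) {f : ℕ} (hf : N.IsNonloop f) {θ' : ℕ}
    (hθ' : θ' ∈ [6, 7]) (hfθ : f ≠ ρ θ') {Y A B : Finset ℕ} (hY : Circ Y) (hθY : θ' ∉ Y)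
    (hA : A ⊆ Y) (hB : B ⊆ Y) (hd : Disjoint A B) (hAne : A.Nonempty) (hBc : 2 ≤ B.card)
    (hΦA : Ph N ρ f A) (hΦB : Ph N ρ f B) :
    ((N.delete {ρ θ'}).contract {f}).IsCircuit (ρ '' ↑B) := by
  have g := h.good hf
  have hBr : B ⊆ Finset.range 32 := hB.trans hY.1
  have hBi : HIndep B := by
    obtain ⟨a, ha⟩ := hAne
    exact (hY.2.2 a (hA ha)).mono (fun x hx => Finset.mem_erase.2
      ⟨fun hh => Finset.disjoint_left.1 hd ha (hh ▸ hx), hB hx⟩)
  have hno : ∀ w ∈ B, ¬ Ph N ρ f (B.erase w) := by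
    intro w hw hh
    have h1 := g.inter A (B.erase w) ((hY.2.2 w (hB hw)).mono (by
      intro x hx
      rcases Finset.mem_union.1 hx with hx | hx
      · exact Finset.mem_erase.2 ⟨fun h3 => Finset.disjoint_left.1 hd hx (h3 ▸ hw), hA hx⟩
      · obtain ⟨h3, h4⟩ := Finset.mem_erase.1 hx
        exact Finset.mem_erase.2 ⟨h3, hB h4⟩)) hΦA hh
    apply g.empty
    apply g.mono _ _ _ h1
    intro x hx
    obtain ⟨h3, h4⟩ := Finset.mem_inter.1 hx
    exact absurd (Finset.mem_of_mem_erase h4) (Finset.disjoint_left.1 hd h3)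
  have hfB : f ∉ ρ '' (↑B : Set ℕ) := by
    rintro ⟨q, hq, rfl⟩
    have hq' : q ∈ B := by exact_mod_cast hq
    obtain ⟨w, hw, hwq⟩ := Finset.exists_mem_ne (by omega : 1 < B.card) q
    apply hno w hw
    exact N.mem_closure_of_mem' ⟨q, by
      simp only [Finset.coe_erase, mem_sdiff, Finset.mem_coe, mem_singleton_iff]
      exact ⟨hq', fun hh => hwq hh.symm⟩, rfl⟩ (h.mem q (hBr hq'))
  have hc : N.IsCircuit (insert f (ρ '' ↑B)) := by
    apply ((h.ind B hBr).2 hBi).insert_isCircuit_of_forall hfB hΦB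
    rintro _ ⟨w, hw, rfl⟩ hh
    have hw' : w ∈ B := by exact_mod_cast hw
    rw [h.erase hBr hw'] at hh
    exact hno w hw' hh
  have hc2 : (N.delete {ρ θ'}).IsCircuit (insert f (ρ '' ↑B)) := by
    apply delete_circuit hc
    intro hh
    rcases hh with hh | hh
    · exact hfθ hh.symm
    · exact image_notMem h hBr (theta_range θ' hθ').1 (fun h3 => hθY (hB h3)) hh
  have hnt : (insert f (ρ '' (↑B : Set ℕ))).Nontrivial := by
    obtain ⟨b, hb⟩ : B.Nonempty := Finset.card_pos.1 (by omega)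
    have hbm : ρ b ∈ ρ '' (↑B : Set ℕ) := ⟨b, by exact_mod_cast hb, rfl⟩
    exact ⟨f, by simp, ρ b, Or.inr hbm, fun hh => hfB (hh ▸ hbm)⟩
  have h3 := hc2.contractElem_isCircuit hnt (by simp : f ∈ _)
  rwa [insert_sdiff_self_of_notMem hfB] at h3

/-- a point of the third line in another component is impossible -/
lemma planes {Φ : Finset ℕ → Prop} (g : Good Φ) {U : Finset ℕ}
    (hs : ∀ Y : Finset ℕ, Circ Y → Y ⊆ Finset.range 6 → (Y ∩ U).Nonempty → (Y \ U).Nonempty →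
      Φ (Y ∩ U) ∧ Φ (Y \ U)) (hU : ∀ y ∈ U, ¬ Φ {y}) {Y0 : Finset ℕ}
    (hY0 : Y0 = {0, 1, 2, 3} ∨ Y0 = {0, 1, 4, 5} ∨ Y0 = ({2, 3, 4, 5} : Finset ℕ))
    (hΦ : ¬ Φ Y0) (hdis : ∀ u ∈ Y0, u ∉ U) {y : ℕ} (hy : y ∈ Finset.range 6) (hyU : y ∈ U) :
    False := by
  obtain ⟨c12, c13, c23⟩ := circ_small
  have key : ∀ (Y : Finset ℕ) (a b c d : ℕ), Circ Y → Y ⊆ Finset.range 6 → Y = {a, b, c, d} →
      ({a, b} : Finset ℕ) ⊆ Y0 → (y = c ∨ y = d) → c ≠ d → False := by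
    intro Y a b c d hY hY6 hYe hab hycd hcd
    have hyY : y ∈ Y := by rw [hYe]; rcases hycd with rfl | rfl <;> simp
    have haY : a ∈ Y := by rw [hYe]; simp
    have haU : a ∉ U := hdis a (hab (by simp))
    have hbU : b ∉ U := hdis b (hab (by simp))
    obtain ⟨h1, h2⟩ := hs Y hY hY6 ⟨y, Finset.mem_inter.2 ⟨hyY, hyU⟩⟩
      ⟨a, Finset.mem_sdiff.2 ⟨haY, haU⟩⟩
    by_cases hboth : c ∈ U ∧ d ∈ U
    · apply hΦ
      refine g.mono _ _ hab (g.mono _ _ ?_ h2)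
      intro x hx
      obtain ⟨h3, h4⟩ := Finset.mem_sdiff.1 hx
      rw [hYe] at h3
      simp only [Finset.mem_insert, Finset.mem_singleton] at h3 ⊢
      rcases h3 with h3 | h3 | h3 | h3
      · exact Or.inl h3
      · exact Or.inr h3
      · exact absurd hboth.1 (h3 ▸ h4)
      · exact absurd hboth.2 (h3 ▸ h4)
    · apply hU y hyU
      refine g.mono _ _ ?_ h1
      intro x hx
      obtain ⟨h3, h4⟩ := Finset.mem_inter.1 hx
      rw [hYe] at h3
      simp only [Finset.mem_insert, Finset.mem_singleton] at h3 ⊢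
      rcases h3 with rfl | rfl | rfl | rfl
      · exact absurd h4 haU
      · exact absurd h4 hbU
      · rcases hycd with rfl | rfl
        · rfl
        · exact absurd ⟨h4, hyU⟩ hboth
      · rcases hycd with rfl | rfl
        · exact absurd ⟨hyU, h4⟩ hboth
        · rfl
  have hy6 : y = 0 ∨ y = 1 ∨ y = 2 ∨ y = 3 ∨ y = 4 ∨ y = 5 := by
    rw [Finset.mem_range] at hy; omega
  rcases hY0 with rfl | rfl | rfl
  · have : y = 4 ∨ y = 5 := by
      rcases hy6 with rfl | rfl | rfl | rfl | h | h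
      · exact absurd hyU (hdis _ (by decide))
      · exact absurd hyU (hdis _ (by decide))
      · exact absurd hyU (hdis _ (by decide))
      · exact absurd hyU (hdis _ (by decide))
      · exact Or.inl h
      · exact Or.inr h
    exact key _ 0 1 4 5 c13 (by decide) rfl (by decide) this (by decide)
  · have : y = 2 ∨ y = 3 := by
      rcases hy6 with rfl | rfl | h | h | rfl | rfl
      · exact absurd hyU (hdis _ (by decide))
      · exact absurd hyU (hdis _ (by decide))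
      · exact Or.inl h
      · exact Or.inr h
      · exact absurd hyU (hdis _ (by decide))
      · exact absurd hyU (hdis _ (by decide))
    exact key _ 0 1 2 3 c12 (by decide) rfl (by decide) this (by decide)
  · have : y = 0 ∨ y = 1 := by
      rcases hy6 with h | h | rfl | rfl | rfl | rfl
      · exact Or.inl h
      · exact Or.inr h
      · exact absurd hyU (hdis _ (by decide))
      · exact absurd hyU (hdis _ (by decide))
      · exact absurd hyU (hdis _ (by decide))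
      · exact absurd hyU (hdis _ (by decide))
    exact key _ 2 3 0 1 c12 (by decide) (by decide) (by decide) this (by decide)

end Pool.Agent.Helper311_CD
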