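import Pool.Agent.Helper311_CD.LevB

set_option autoImplicit false

namespace Pool.Agent.Helper311_CD

open Set Matroid H211.MC

variable {N : Matroid ℕ} {ρ : ℕ → ℕ}

/-- all sets with two elements of one line and one of each of the others -/
def Ws12 : List (Finset ℕ) :=
  [{0, 1, 2, 4}, {0, 1, 2, 5}, {0, 1, 3, 4}, {0, 1, 3, 5},
   {0, 2, 3, 4}, {0, 2, 3, 5}, {1, 2, 3, 4}, {1, 2, 3, 5},
   {0, 2, 4, 5}, {0, 3, 4, 5}, {1, 2, 4, 5}, {1, 3, 4, 5}]

lemma CW12 : ∀ W ∈ Ws12, ∀ θ ∈ [6, 7], Circ (CW θ W) ∧ θ ∉ CW θ W ∧ W ⊆ Finset.range 6 ∧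
    2 ≤ W.card ∧ W ⊆ CW θ W := by
  have h : ∀ W ∈ Ws12, ∀ θ ∈ [6, 7], Hit (insert θ (Finset.range 6 \ W)) ∧
      CW θ W = Finset.range 32 \ (insert θ (Finset.range 6 \ W)) ∧ θ ∉ CW θ W ∧
      W ⊆ Finset.range 6 ∧ 2 ≤ W.card ∧ W ⊆ CW θ W := by decide
  intro W hW θ hθ
  obtain ⟨h1, h2, h3, h4, h5, h6⟩ := h W hW θ hθ
  refine ⟨?_, h3, h4, h5, h6⟩
  rw [h2]; exact h1.circ

lemma triples : ∀ i j k : Fin 5, i ≠ j → i ≠ k → j ≠ k →
    ∃ W ∈ Ws12, ({(i : ℕ), (j : ℕ), (k : ℕ)} : Finset ℕ) ⊆ W ∧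
      ∃ w ∈ W, w ∉ ({(i : ℕ), (j : ℕ), (k : ℕ)} : Finset ℕ) := by decide

lemma D_facts : ∀ θ ∈ [6, 7], ∀ θ' ∈ [6, 7], θ ≠ θ' → ∀ d ∈ D, d ≠ θ' → d ≠ θ → d ∈ YF := by
  decide

lemma D_theta : ∀ θ ∈ [6, 7], θ ∈ D := by decide

lemma range6_YF : Finset.range 6 ⊆ YF := by decide

lemma W0_mem : ({0, 1, 3, 5} : Finset ℕ) ∈ Ws12 ∧ ({0, 1, 2, 4} : Finset ℕ) ∈ Ws12 := by decide

/-- one thin element deleted, one contraction -/
theorem lev4_s1b [N.Finite] (h : S4 N ρ) {θ θ' : ℕ} (hθ : θ ∈ [6, 7]) (hθ' : θ' ∈ [6, 7])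
    (hθθ : θ ≠ θ') {f : ℕ} (hf : N.IsNonloop f) (hfθ : f ≠ ρ θ') :
    ∃ q ∈ Finset.range 32, ((N.delete {ρ θ'}).contract {f}).IsNonloop (ρ q) ∧
      Dp ((N.delete {ρ θ'}).contract {f}) (ρ q) 3 := by
  obtain ⟨f1, f2, f3, f4, f5, f6⟩ := CW_facts θ hθ θ' hθ' hθθ
  obtain ⟨t1, t2⟩ := theta_range θ hθ
  have g := h.emb.good hf
  have hfE := hf.mem_ground
  set M2 := N.delete {ρ θ'} with hM2
  have hf2 : M2.IsNonloop f := delete_isNonloop_iff.2 ⟨hf, by simpa using hfθ⟩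
  have hf2E := hf2.mem_ground
  have htw : ∀ q ∈ YF, (M2.contract {f}).IsNonloop (ρ q) →
      ∃ z', Twin (M2.contract {f}) (ρ q) z' ∧ z' ≠ ρ 6 ∧ z' ≠ ρ 7 := by
    intro q hq hnl
    obtain ⟨z', hz', h6, h7⟩ := delete_twin h hθ' hq
    rw [contract_isNonloop_iff] at hnl
    exact ⟨z', twin_contract hz' hf2E hnl.2, h6, h7⟩
  have hzθ : ∀ z' : ℕ, z' ≠ ρ 6 → z' ≠ ρ 7 → z' ≠ ρ θ := by
    intro z' h6 h7
    have : θ = 6 ∨ θ = 7 := by simpa using hθ
    rcases this with rfl | rfl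
    · exact h6
    · exact h7
  have hC := delete_circ h.emb hθ' f1 f3
  obtain ⟨Z, hZs, hZ, hZc⟩ := halve hC hf2 (by rw [h.emb.ncard f1.1, f6]; omega)
  rw [h.emb.ncard f1.1, f6] at hZc
  by_cases hθZ : ρ θ ∉ Z
  · refine fat_p4 (fun q hq hnl => (htw q hq hnl).imp fun z' h => h.1) hZ ?_ (by omega)
    intro z hz
    obtain ⟨q, hq, rfl⟩ := hZs hz
    have hq' := f5 (by exact_mod_cast hq : q ∈ CW θ' {0, 1, 3, 5})
    rcases Finset.mem_insert.1 hq' with rfl | hq'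
    · exact absurd hz hθZ
    · exact ⟨q, by exact_mod_cast hq', rfl⟩
  rw [not_not] at hθZ
  obtain ⟨w0, hw0, hw0θ⟩ := exists_ne_of_two_le (Z := Z) (by omega) (ρ θ)
  have hθnl := circuit_nonloop hZ hθZ hw0 hw0θ
  set A := comp (M2.contract {f}) (ρ θ) with hA
  obtain ⟨Y0, hY0, hΦ0⟩ := vamos_emb h.emb hf
  obtain ⟨k1, k2, k3, k4, k5, k6, k7⟩ := three_cards Y0 hY0
  have hθ'Y0 : ∀ Y : Finset ℕ, Y ⊆ Finset.range 6 → θ' ∉ Y := by
    intro Y hY hh
    have := hY hh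
    have hor : θ' = 6 ∨ θ' = 7 := by simpa using hθ'
    rw [Finset.mem_range] at this
    omega
  have hθY0 : ∀ Y : Finset ℕ, Y ⊆ Finset.range 6 → θ ∉ Y := by
    intro Y hY hh
    have := hY hh
    have hor : θ = 6 ∨ θ = 7 := by simpa using hθ
    rw [Finset.mem_range] at this
    omega
  have CY0 : (M2.contract {f}).IsCircuit (ρ '' ↑Y0) :=
    persist (delete_circ h.emb hθ' k2 (hθ'Y0 Y0 k7)) hf2E (ph_delete hΦ0)
  by_cases hcase1 : ∃ u ∈ Y0, ρ u ∈ A
  · -- link to the persisting plane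
    obtain ⟨u, hu, huA⟩ := hcase1
    refine ⟨θ, t1, hθnl, ?_⟩
    refine p4a {ρ θ} (by simp) hZ (by omega) ?_ ?_ hθZ
    · intro z hz
      obtain ⟨q, hq, rfl⟩ := hZs hz
      have hq' := f5 (by exact_mod_cast hq : q ∈ CW θ' {0, 1, 3, 5})
      rcases Finset.mem_insert.1 hq' with rfl | hq'
      · left; simp
      · right
        obtain ⟨w, hw, hwz⟩ := exists_ne_of_two_le (Z := Z) (by omega) (ρ q)
        obtain ⟨z', hz', -, -⟩ := htw q hq' (circuit_nonloop hZ hz hw hwz)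
        exact ⟨z', hz'⟩
    · intro x hx _
      rw [Finset.mem_singleton] at hx
      subst hx
      have hum : ρ u ∈ ρ '' (↑Y0 : Set ℕ) := ⟨u, by exact_mod_cast hu, rfl⟩
      have hc4 : (ρ '' (↑Y0 : Set ℕ)).ncard = 4 := by rw [h.emb.ncard k2.1, k1]
      refine ⟨_, CY0, image_notMem h.emb k2.1 t1 (hθY0 Y0 k7), by omega, ?_, ρ u, hum, huA⟩
      obtain ⟨w, hw, hwz⟩ := exists_ne_of_two_le (Z := ρ '' (↑Y0 : Set ℕ)) (by omega) (ρ u)
      obtain ⟨z', hz', z6, z7⟩ := htw u (k3 hu) (circuit_nonloop CY0 hum hw hwz)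
      exact ⟨ρ u, hum, z', hz', hzθ z' z6 z7⟩
  push Not at hcase1
  -- separation property
  have hfA : f ∉ A := fun hh => (comp_subset hh).2 rfl
  have hsep : ∀ Y : Finset ℕ, Circ Y → θ' ∉ Y → (Y ∩ Uof ρ A).Nonempty →
      (Y \ Uof ρ A).Nonempty → Ph N ρ f (Y ∩ Uof ρ A) ∧ Ph N ρ f (Y \ Uof ρ A) := by
    intro Y hY hθY h1 h2
    have hCY := delete_circ h.emb hθ' hY hθY
    have g1 : ((ρ '' (↑Y : Set ℕ)) ∩ A).Nonempty := by
      rw [Uof_inter hY.1]
      obtain ⟨q, hq⟩ := h1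
      exact ⟨ρ q, q, by simpa using hq, rfl⟩
    have g2 : ((ρ '' (↑Y : Set ℕ)) \ A).Nonempty := by
      rw [Uof_sdiff hY.1]
      obtain ⟨q, hq⟩ := h2
      exact ⟨ρ q, q, by simpa using hq, rfl⟩
    have := star hf2 hfA closed_comp hCY g1 g2
    rw [Uof_inter hY.1, Uof_sdiff hY.1] at this
    exact ⟨delete_closure_sub this.1, delete_closure_sub this.2⟩
  have hUΦ : ∀ y ∈ Uof ρ A, ¬ Ph N ρ f {y} := by
    intro y hy hh
    obtain ⟨hy1, hyA⟩ := mem_Uof.1 hy
    have hynl : (M2.contract {f}).IsNonloop (ρ y) := nonloop_of_mem_comp hZ (by omega) hθZ hyA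
    rw [contract_isNonloop_iff] at hynl
    apply hynl.2
    unfold Ph at hh
    simp only [Finset.coe_singleton, image_singleton] at hh
    have h3 := par_symm hf hh
    rw [hM2, delete_closure_eq]
    have hyθ : ρ y ∉ ({ρ θ'} : Set ℕ) := hynl.1.2
    refine ⟨?_, hyθ⟩
    have : ({f} : Set ℕ) \ {ρ θ'} = {f} := by
      ext x; simp only [mem_sdiff, mem_singleton_iff]
      exact ⟨fun h => h.1, fun h => ⟨h, fun h' => hfθ (h ▸ h')⟩⟩
    rw [this]; exact h3
  by_cases hcase2 : ∃ y ∈ Finset.range 6, ρ y ∈ A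
  · exfalso
    obtain ⟨y, hy, hyA⟩ := hcase2
    have hyr : y ∈ Finset.range 32 := by rw [Finset.mem_range] at hy ⊢; omega
    exact planes g (U := Uof ρ A) (fun Y hY hY6 => hsep Y hY (hθ'Y0 Y hY6)) hUΦ hY0 hΦ0
      (fun u hu hh => hcase1 u hu (mem_Uof.1 hh).2) hy (mem_Uof.2 ⟨hyr, hyA⟩)
  push Not at hcase2
  have hθU : θ ∈ Uof ρ A := mem_Uof.2 ⟨t1, self_mem_comp hθnl.mem_ground⟩
  have hWU : ∀ y ∈ Finset.range 6, y ∉ Uof ρ A := fun y hy hh => hcase2 y hy (mem_Uof.1 hh).2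
  -- circuits of the other side
  have hside : ∀ W ∈ Ws12, (M2.contract {f}).IsCircuit (ρ '' ↑(CW θ' W \ Uof ρ A)) ∧
      W ⊆ CW θ' W \ Uof ρ A := by
    intro W hW
    obtain ⟨e1, e2, e3, e4, e5⟩ := CW12 W hW θ' hθ'
    have hWs : W ⊆ CW θ' W \ Uof ρ A := fun x hx =>
      Finset.mem_sdiff.2 ⟨e5 hx, hWU x (e3 hx)⟩
    have hθm : θ ∈ CW θ' W ∩ Uof ρ A := Finset.mem_inter.2
      ⟨Finset.mem_union_left _ (Finset.mem_erase.2 ⟨hθθ, D_theta θ hθ⟩), hθU⟩
    obtain ⟨w, hw⟩ : W.Nonempty := Finset.card_pos.1 (by omega)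
    obtain ⟨p1, p2⟩ := hsep _ e1 e2 ⟨θ, hθm⟩ ⟨w, hWs hw⟩
    exact ⟨circ_of_side h.emb hf hθ' hfθ e1 e2 Finset.inter_subset_left Finset.sdiff_subset
      (by
        rw [Finset.disjoint_left]
        intro x hx hx'
        exact (Finset.mem_sdiff.1 hx').2 (Finset.mem_inter.1 hx).2) ⟨θ, hθm⟩
      (e4.trans (Finset.card_le_card hWs)) p1 p2, hWs⟩
  by_cases hcase3 : ∃ d ∈ D, d ≠ θ' ∧ d ∉ Uof ρ A
  · obtain ⟨d, hd, hdθ, hdU⟩ := hcase3
    obtain ⟨s1, s2⟩ := hside _ W0_mem.1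
    have hdm : d ∈ CW θ' {0, 1, 3, 5} \ Uof ρ A := Finset.mem_sdiff.2
      ⟨Finset.mem_union_left _ (Finset.mem_erase.2 ⟨hdθ, hd⟩), hdU⟩
    have hsubr : CW θ' {0, 1, 3, 5} \ Uof ρ A ⊆ YF := by
      intro x hx
      obtain ⟨h1, h2⟩ := Finset.mem_sdiff.1 hx
      rcases Finset.mem_insert.1 (f5 h1) with rfl | h3
      · exact absurd hθU h2
      · exact h3
    have hc5 : 5 ≤ (CW θ' {0, 1, 3, 5} \ Uof ρ A).card := by
      have hins : insert d {0, 1, 3, 5} ⊆ CW θ' {0, 1, 3, 5} \ Uof ρ A :=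
        Finset.insert_subset hdm s2
      have hd6 : d ∉ ({0, 1, 3, 5} : Finset ℕ) := by
        intro hh
        have : ({0, 1, 3, 5} : Finset ℕ) ⊆ Finset.range 6 := by decide
        exact D_not6 d hd (this hh)
      have h1 := Finset.card_le_card hins
      rw [Finset.card_insert_of_notMem hd6] at h1
      have h2 : ({0, 1, 3, 5} : Finset ℕ).card = 4 := by decide
      omega
    refine fat_p4 (fun q hq hnl => (htw q hq hnl).imp fun z' h => h.1) s1
      (image_mono (by exact_mod_cast hsubr)) ?_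
    rw [h.emb.ncard (hsubr.trans (by decide))]
    exact hc5
  · push Not at hcase3
    have hcW : ∀ W ∈ Ws12, (M2.contract {f}).IsCircuit (ρ '' ↑W) := by
      intro W hW
      obtain ⟨s1, s2⟩ := hside W hW
      have e : CW θ' W \ Uof ρ A = W := by
        apply Finset.Subset.antisymm _ s2
        intro x hx
        obtain ⟨h1, h2⟩ := Finset.mem_sdiff.1 hx
        rcases Finset.mem_union.1 h1 with h3 | h3
        · obtain ⟨h4, h5⟩ := Finset.mem_erase.1 h3
          exact absurd (hcase3 x h5 h4) h2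
        · exact h3
      rwa [e] at s1
    have hur : ∀ i : Fin 5, (i : ℕ) ∈ Finset.range 32 ∧ (i : ℕ) ∈ YF := by decide
    have hWr : ∀ W ∈ Ws12, W ⊆ Finset.range 32 := by decide
    have hinj : Function.Injective (fun i : Fin 5 => ρ (i : ℕ)) := by
      intro i j hij
      exact Fin.ext (h.emb.inj _ (hur i).1 _ (hur j).1 hij)
    have hnl : ∀ i : Fin 5, (M2.contract {f}).IsNonloop (ρ (i : ℕ)) := by
      intro i
      have hex : ∀ i : Fin 5, ∃ j k : Fin 5, i ≠ j ∧ i ≠ k ∧ j ≠ k := by decide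
      obtain ⟨j, k, hij, hik, hjk⟩ := hex i
      obtain ⟨W, hW, hs, -⟩ := triples i j k hij hik hjk
      refine circuit_nonloop (hcW W hW) (z := ρ i) (w := ρ j)
        ⟨i, by exact_mod_cast hs (by simp), rfl⟩ ⟨j, by exact_mod_cast hs (by simp), rfl⟩
        (fun hh => hij.symm (hinj hh))
    refine ⟨0, by decide, hnl 0, ?_⟩
    have hY12 : ρ 3 ∈ N.closure {ρ 0, ρ 1, ρ 2} := by
      have c12 := h.emb.circuit circ_small.1
      have h1 := c12.mem_closure_sdiff_singleton_of_mem (e := ρ 3) ⟨3, by simp, rfl⟩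
      rw [h.emb.erase circ_small.1.1 (by decide : 3 ∈ ({0, 1, 2, 3} : Finset ℕ))] at h1
      refine N.closure_subset_closure ?_ h1
      rintro _ ⟨q, hq, rfl⟩
      have hq' : q ∈ ({0, 1, 2, 3} : Finset ℕ).erase 3 := by exact_mod_cast hq
      have : q = 0 ∨ q = 1 ∨ q = 2 := by
        revert q; intro q hq hq'
        obtain ⟨h1, h2⟩ := Finset.mem_erase.1 hq'
        simp only [Finset.mem_insert, Finset.mem_singleton] at h2
        rcases h2 with h2 | h2 | h2 | h2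
        · exact Or.inl h2
        · exact Or.inr (Or.inl h2)
        · exact Or.inr (Or.inr h2)
        · exact absurd h2 h1
      rcases this with rfl | rfl | rfl <;> simp
    have hρθ' : ∀ q ∈ Finset.range 6, ρ q ≠ ρ θ' := by
      intro q hq hh
      have hq32 : q ∈ Finset.range 32 := by rw [Finset.mem_range] at hq ⊢; omega
      have := h.emb.inj q hq32 θ' (theta_range θ' hθ').1 hh
      have hor : θ' = 6 ∨ θ' = 7 := by simpa using hθ'
      rw [Finset.mem_range] at hq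
      omega
    refine p4c (fun i : Fin 5 => ρ (i : ℕ)) hinj ?_ ?_ ?_
    · intro i j k hij hik hjk
      obtain ⟨W, hW, hs, w, hw, hwn⟩ := triples i j k hij hik hjk
      have hc := hcW W hW
      have hi := hc.sdiff_singleton_indep (e := ρ w) ⟨w, by exact_mod_cast hw, rfl⟩
      refine hi.subset ?_
      intro x hx
      simp only [mem_insert_iff, mem_singleton_iff] at hx
      have aux : ∀ a : Fin 5, (a : ℕ) ∈ ({(i : ℕ), (j : ℕ), (k : ℕ)} : Finset ℕ) →
          ρ a ∈ ρ '' (↑W : Set ℕ) \ {ρ w} := by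
        intro a ha
        refine ⟨⟨a, by exact_mod_cast hs ha, rfl⟩, ?_⟩
        rw [mem_singleton_iff]
        intro hh
        have := h.emb.inj _ (hur a).1 _ (hWr W hW hw) hh
        exact hwn (this ▸ ha)
      rcases hx with rfl | rfl | rfl
      · exact aux i (by simp)
      · exact aux j (by simp)
      · exact aux k (by simp)
    · -- rank three
      have hbase : ∀ q ∈ ({0, 1, 2} : Finset ℕ), ρ q ∈ (M2.contract {f}).closure
          {ρ 0, ρ 1, ρ 2} := by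
        intro q hq
        have hq' : q = 0 ∨ q = 1 ∨ q = 2 := by simpa using hq
        refine (M2.contract {f}).mem_closure_of_mem' (?_ : ρ q ∈ ({ρ 0, ρ 1, ρ 2} : Set ℕ)) ?_
        · rcases hq' with rfl | rfl | rfl <;> simp
        · rcases hq' with rfl | rfl | rfl
          · exact (hnl 0).mem_ground
          · exact (hnl 1).mem_ground
          · exact (hnl 2).mem_ground
      intro i
      fin_cases i
      · exact hbase 0 (by decide)
      · exact hbase 1 (by decide)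
      · exact hbase 2 (by decide)
      · -- 3
        change ρ 3 ∈ (M2.contract {f}).closure {ρ 0, ρ 1, ρ 2}
        rw [contract_closure_eq]
        refine ⟨?_, fun hh => (hnl 3).mem_ground.2 hh⟩
        have h2 : ρ 3 ∈ M2.closure {ρ 0, ρ 1, ρ 2} := by
          rw [hM2, delete_closure_eq]
          refine ⟨?_, hρθ' 3 (by decide)⟩
          have : ({ρ 0, ρ 1, ρ 2} : Set ℕ) \ {ρ θ'} = {ρ 0, ρ 1, ρ 2} := by
            ext x
            simp only [mem_sdiff, mem_insert_iff, mem_singleton_iff]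
            refine ⟨fun h => h.1, fun h => ⟨h, ?_⟩⟩
            rcases h with rfl | rfl | rfl
            · exact hρθ' 0 (by decide)
            · exact hρθ' 1 (by decide)
            · exact hρθ' 2 (by decide)
          rw [this]; exact hY12
        exact M2.closure_subset_closure subset_union_left h2
      · change ρ 4 ∈ (M2.contract {f}).closure {ρ 0, ρ 1, ρ 2}
        have hc := hcW _ W0_mem.2
        have h1 := hc.mem_closure_sdiff_singleton_of_mem (e := ρ 4) ⟨4, by simp, rfl⟩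
        refine (M2.contract {f}).closure_subset_closure ?_ h1
        rintro _ ⟨⟨q, hq, rfl⟩, hne⟩
        simp only [Finset.coe_insert, Finset.coe_singleton, mem_insert_iff,
          mem_singleton_iff] at hq hne ⊢
        rcases hq with rfl | rfl | rfl | rfl
        · exact Or.inl rfl
        · exact Or.inr (Or.inl rfl)
        · exact Or.inr (Or.inr rfl)
        · exact absurd rfl hne
    · intro i
      obtain ⟨z', hz', -, -⟩ := htw i (hur i).2 (hnl i)
      exact ⟨z', hz'⟩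

end Pool.Agent.Helper311_CD
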