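import Pool.Agent.Helper311_CD.LevC

set_option autoImplicit false

namespace Pool.Agent.Helper311_CD

open Set Matroid H211.MC

/-- level four claim -/
def P4 (N : Matroid ℕ) : Prop := ∃ z ∈ E0, N.IsNonloop z ∧ Dp N z 3

variable {M : Matroid ℕ}

lemma P4_of {N : Matroid ℕ} {ρ : ℕ → ℕ} (hρ : IsRep ρ)
    (h : ∃ q ∈ Finset.range 32, N.IsNonloop (ρ q) ∧ Dp N (ρ q) 3) : P4 N := by
  obtain ⟨q, hq, h1, h2⟩ := h
  exact ⟨ρ q, (hρ q hq).2, h1, h2⟩

lemma S4_empty (h : Ctx M) {ρ : ℕ → ℕ} (hρ : IsRep ρ) : S4 M ρ := by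
  have := S4_of h ∅ (by simp) (by simp) (by simp) hρ (by simp)
  simpa using this

lemma exists_isRep : ∃ ρ, IsRep ρ := by
  obtain ⟨ρ, h, -⟩ := exists_rep ∅ (by simp)
  exact ⟨ρ, h⟩

lemma claim_cc [M.Finite] (h : Ctx M) {f g : ℕ} (hf : f ∈ M.E) (hg : g ∈ M.E) :
    P4 ((M.contract {f}).contract {g}) := by
  obtain ⟨ρ, hρ⟩ := exists_isRep
  rw [contract_contract]
  have hC : (({f, g} : Finset ℕ) : Set ℕ) = {f} ∪ {g} := by
    ext x; simp [or_comm]
  rw [← hC]
  apply P4_of hρ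
  apply lev4_s0 (S4_empty h hρ) _ (Finset.card_insert_le _ _)
  intro x hx
  simp only [Finset.coe_insert, Finset.coe_singleton, mem_insert_iff, mem_singleton_iff] at hx
  rcases hx with rfl | rfl <;> assumption

lemma claim_dc [M.Finite] (h : Ctx M) {f g : ℕ} (hfg : f ≠ g) (hg : M.IsNonloop g) :
    P4 ((M.delete {f}).contract {g}) := by
  by_cases h24 : f = 24
  · obtain ⟨ρ, hρ⟩ := exists_isRep
    apply P4_of hρ
    have h6 := hρ.six
    rw [h24, ← h6]
    exact lev4_s1b (S4_empty h hρ) (θ := 7) (θ' := 6) (by decide) (by decide) (by decide) hg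
      (by rw [h6, ← h24]; exact hfg.symm)
  by_cases h28 : f = 28
  · obtain ⟨ρ, hρ⟩ := exists_isRep
    apply P4_of hρ
    have h7 := hρ.seven
    rw [h28, ← h7]
    exact lev4_s1b (S4_empty h hρ) (θ := 6) (θ' := 7) (by decide) (by decide) (by decide) hg
      (by rw [h7, ← h28]; exact hfg.symm)
  obtain ⟨ρ, hρ, hρX⟩ := exists_rep {f} (by simp)
  apply P4_of hρ
  have hS := S4_of h {f} (by simp) (by simpa using Ne.symm h24) (by simpa using Ne.symm h28) hρ hρX
  rw [Finset.coe_singleton] at hS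
  have := lev4_s0 hS {g} (by simp) (by
    rw [Finset.coe_singleton, singleton_subset_iff]
    exact ⟨hg.mem_ground, fun hh => hfg (by simpa using hh.symm)⟩)
  rwa [Finset.coe_singleton] at this

lemma claim_dd_aux [M.Finite] (h : Ctx M) {f g : ℕ} (hf : f = 24 ∨ f = 28)
    (hg : g ≠ 24 ∧ g ≠ 28) : P4 ((M.delete {g}).delete {f}) := by
  obtain ⟨ρ, hρ, hρX⟩ := exists_rep {g} (by simp)
  apply P4_of hρ
  have hS := S4_of h {g} (by simp) (by simpa using Ne.symm hg.1) (by simpa using Ne.symm hg.2)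
    hρ hρX
  rw [Finset.coe_singleton] at hS
  rcases hf with rfl | rfl
  · have := lev4_s1a hS (θ := 7) (θ' := 6) (by decide) (by decide) (by decide)
    rwa [hρ.six] at this
  · have := lev4_s1a hS (θ := 6) (θ' := 7) (by decide) (by decide) (by decide)
    rwa [hρ.seven] at this

lemma claim_dd [M.Finite] (h : Ctx M) {f g : ℕ} (hfg : f ≠ g) :
    P4 ((M.delete {f}).delete {g}) := by
  by_cases hf : f = 24 ∨ f = 28
  · by_cases hg : g = 24 ∨ g = 28
    · obtain ⟨ρ, hρ⟩ := exists_isRep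
      apply P4_of hρ
      have := lev4_s2 (S4_empty h hρ)
      rw [hρ.six, hρ.seven] at this
      have e : ({f} ∪ {g} : Set ℕ) = {24, 28} := by
        rcases hf with rfl | rfl <;> rcases hg with rfl | rfl
        · exact absurd rfl hfg
        · rfl
        · exact Set.pair_comm _ _
        · exact absurd rfl hfg
      rw [delete_delete, e]
      exact this
    · rw [not_or] at hg
      have := claim_dd_aux h hf hg
      rwa [delete_delete, union_comm, ← delete_delete] at this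
  · rw [not_or] at hf
    by_cases hg : g = 24 ∨ g = 28
    · exact claim_dd_aux h hg hf
    · rw [not_or] at hg
      obtain ⟨ρ, hρ, hρX⟩ := exists_rep {f, g} ((Finset.card_insert_le _ _).trans (by simp))
      apply P4_of hρ
      have hS := S4_of h {f, g} (Finset.card_insert_le _ _)
        (by simp only [Finset.mem_insert, Finset.mem_singleton, not_or]
            exact ⟨Ne.symm hf.1, Ne.symm hg.1⟩)
        (by simp only [Finset.mem_insert, Finset.mem_singleton, not_or]
            exact ⟨Ne.symm hf.2, Ne.symm hg.2⟩) hρ hρX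
      have e : (({f, g} : Finset ℕ) : Set ℕ) = {f} ∪ {g} := by
        ext x; simp [or_comm]
      rw [e, ← delete_delete] at hS
      have := lev4_s0 hS ∅ (by simp) (by simp)
      simpa using this

lemma base_facts : ∀ θ ∈ [6, 7], ∀ θ' ∈ [6, 7], θ ≠ θ' → ∀ q ∈ Finset.range 32, q ≠ θ' →
    ∃ W ∈ Ws12, q ∈ CW θ' W ∧ θ ∈ CW θ' W := by decide

lemma base8 : Circ (CW 8 {0, 1, 3, 5}) ∧ 6 ∈ CW 8 {0, 1, 3, 5} ∧ 7 ∈ CW 8 {0, 1, 3, 5} := by
  refine ⟨CW_circ _ (by decide) 8 (by decide), by decide, by decide⟩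

/-- after one deletion everything is linked to the thin element left -/
lemma linked_del [M.Finite] (h : Ctx M) {f θ θ' : ℕ} (hθ : θ ∈ [6, 7]) (hθ' : θ' ∈ [6, 7])
    (hθθ : θ ≠ θ') (hf : f ≠ 4 * θ) {w : ℕ} (hw : w ∈ E0) (hwf : w ≠ f) :
    w ∈ comp (M.delete {f}) (4 * θ) := by
  obtain ⟨ρ, hρ, hρw, hρf⟩ := exists_rep_through {f} (by simp) hw (by simpa using hwf)
  have hE := h.emb hρ
  have hθρ : ρ θ = 4 * θ := by
    have : θ = 6 ∨ θ = 7 := by simpa using hθ
    rcases this with rfl | rfl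
    · exact hρ.six
    · exact hρ.seven
  have hor : θ = 6 ∨ θ = 7 := by simpa using hθ
  have hor' : θ' = 6 ∨ θ' = 7 := by simpa using hθ'
  have hfin : ∀ Y : Finset ℕ, Circ Y → θ ∈ Y → w / 4 ∈ Y → (θ' ∈ Y → ρ θ' ≠ f) →
      w ∈ comp (M.delete {f}) (4 * θ) := by
    intro Y hY h1 h2 h3
    have hc : (M.delete {f}).IsCircuit (ρ '' ↑Y) := by
      apply delete_circuit (hE.circuit hY)
      rintro ⟨q, hq, hqf⟩
      have hq' : q ∈ Y := by exact_mod_cast hq
      by_cases e1 : q = θ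
      · subst e1; exact hf (by rw [← hqf, hθρ])
      by_cases e2 : q = θ'
      · subst e2; exact h3 hq' hqf
      have e3 : q ≠ 6 := by rintro rfl; rcases hor with rfl | rfl <;> rcases hor' with rfl | rfl <;> simp_all
      have e4 : q ≠ 7 := by rintro rfl; rcases hor with rfl | rfl <;> rcases hor' with rfl | rfl <;> simp_all
      exact hρf q (hY.1 hq') e3 e4 (by simpa using hqf)
    rw [← hθρ, ← hρw]
    exact mem_comp_of_circuit hc ⟨θ, by exact_mod_cast h1, rfl⟩ ⟨w / 4, by exact_mod_cast h2, rfl⟩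
  by_cases hcase : w / 4 = θ'
  · have hw' : ρ θ' = w := by rw [← hcase, hρw]
    obtain ⟨b1, b2, b3⟩ := base8
    refine hfin _ b1 ?_ ?_ (fun _ => by rw [hw']; exact hwf)
    · rcases hor with rfl | rfl
      · exact b2
      · exact b3
    · rw [hcase]
      rcases hor' with rfl | rfl
      · exact b2
      · exact b3
  · obtain ⟨W, hW, h1, h2⟩ := base_facts θ hθ θ' hθ' hθθ _ (E0_class hw) hcase
    obtain ⟨c1, c2, -⟩ := CW12 W hW θ' hθ'
    exact hfin _ c1 h2 h1 (fun hh => absurd hh c2)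

lemma linked_self [M.Finite] (h : Ctx M) {w : ℕ} (hw : w ∈ E0) : w ∈ comp M 28 := by
  obtain ⟨f, hf⟩ := M.ground_finite.exists_notMem
  have h1 := linked_del h (f := f) (θ := 7) (θ' := 6) (by decide) (by decide) (by decide)
    (fun hh => hf (by rw [hh]; exact h.sub (by simp [E0]))) hw (fun hh => hf (hh ▸ h.sub hw))
  rwa [delete_eq_self_iff.2 (by simpa using hf)] at h1

lemma lev5_d [M.Finite] (h : Ctx M) (f : ℕ) : ∃ z ∈ E0, z ≠ f ∧ Dp (M.delete {f}) z 4 := by
  obtain ⟨θ, θ', hθ, hθ', hθθ, hfθ⟩ : ∃ θ θ', θ ∈ [6, 7] ∧ θ' ∈ [6, 7] ∧ θ ≠ θ' ∧ f ≠ 4 * θ := by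
    by_cases h28 : f = 28
    · exact ⟨6, 7, by decide, by decide, by decide, by omega⟩
    · exact ⟨7, 6, by decide, by decide, by decide, by omega⟩
  have hz : 4 * θ ∈ E0 := by
    have : θ = 6 ∨ θ = 7 := by simpa using hθ
    rcases this with rfl | rfl <;> simp [E0]
  have hl := fun {w : ℕ} (hw : w ∈ E0) (hwf : w ≠ f) =>
    linked_del h hθ hθ' hθθ hfθ hw hwf
  have hzE : 4 * θ ∈ (M.delete {f}).E := ⟨h.sub hz, fun hh => hfθ (by simpa using hh.symm)⟩
  refine ⟨4 * θ, hz, hfθ.symm, ?_⟩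
  have hother : ∃ z ∈ comp (M.delete {f}) (4 * θ), z ≠ 4 * θ := by
    by_cases h0 : f = 0
    · exact ⟨4, hl (by simp [E0]) (by omega), by
        have : θ = 6 ∨ θ = 7 := by simpa using hθ
        omega⟩
    · exact ⟨0, hl (by simp [E0]) (Ne.symm h0), by
        have : θ = 6 ∨ θ = 7 := by simpa using hθ
        omega⟩
  apply dp_step hzE hother
  intro f2 hf2
  have hf2E : f2 ∈ (M.delete {f}).E := comp_subset hf2
  have hne : f ≠ f2 := fun hh => hf2E.2 (by simp [hh])
  have hnl : (M.delete {f}).IsNonloop f2 := by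
    obtain ⟨z, hz1, hz2⟩ := hother
    obtain ⟨Z, hZ, ha, hb⟩ := comp_pair hz1 (self_mem_comp hzE) hz2
    have hfin : Z.Finite := (M.delete {f}).ground_finite.subset hZ.subset_ground
    have h2 : 2 ≤ Z.ncard := by
      have := Set.ncard_le_ncard (s := {z, 4 * θ}) (t := Z) (by
        intro x hx
        rcases hx with rfl | hx
        · exact ha
        · rw [mem_singleton_iff] at hx; rw [hx]; exact hb) hfin
      rwa [Set.ncard_pair hz2] at this
    exact nonloop_of_mem_comp hZ h2 hb hf2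
  constructor
  · obtain ⟨z, hzE0, hznl, hzd⟩ := claim_dc h hne (delete_isNonloop_iff.1 hnl).1
    have hg := hznl.mem_ground
    exact ⟨z, hl hzE0 (fun hh => hg.1.2 (by simpa using hh)), fun hh => hg.2 (by simpa using hh),
      hzd⟩
  · obtain ⟨z, hzE0, hznl, hzd⟩ := claim_dd h hne
    have hg := hznl.mem_ground
    exact ⟨z, hl hzE0 (fun hh => hg.1.2 (by simpa using hh)), fun hh => hg.2 (by simpa using hh),
      hzd⟩

lemma lev5_c [M.Finite] (h : Ctx M) {f : ℕ} (hf : M.IsNonloop f) :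
    ∃ z ∈ E0, z ≠ f ∧ Dp (M.contract {f}) z 4 := by
  have hfE := hf.mem_ground
  have h24 : (24 : ℕ) ∈ E0 := by simp [E0]
  have h28 : (28 : ℕ) ∈ E0 := by simp [E0]
  obtain ⟨z, hz, hzc, hzcl⟩ : ∃ z ∈ E0, (z / 4 = 6 ∨ z / 4 = 7) ∧ z ∉ M.closure {f} := by
    by_contra hcon
    push Not at hcon
    have a1 := hcon 24 h24 (Or.inl rfl)
    have a2 := hcon 28 h28 (Or.inr rfl)
    obtain ⟨ρ, hρ⟩ := exists_isRep
    have hE := h.emb hρ
    have hi := (hE.ind {6, 7} (by decide)).2 (by decide)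
    have e : ρ '' (↑({6, 7} : Finset ℕ) : Set ℕ) = {24, 28} := by
      simp only [Finset.coe_insert, Finset.coe_singleton, image_insert_eq, image_singleton,
        hρ.six, hρ.seven]
    rw [e] at hi
    have hnl : M.IsNonloop 28 := by
      rw [← indep_singleton]; exact hi.subset (by simp)
    have b1 := par_symm hnl a2
    have b2 : (24 : ℕ) ∈ M.closure {28} :=
      M.closure_subset_closure_of_subset_closure (by simpa using b1) a1
    have b3 := hi.notMem_closure_sdiff_of_mem (e := 24) (by simp)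
    apply b3
    refine M.closure_subset_closure ?_ b2
    intro x hx
    rw [mem_singleton_iff] at hx
    subst hx
    exact ⟨by simp, by simp⟩
  have hff : f ∈ M.closure {f} := M.mem_closure_of_mem rfl (by simpa using hfE)
  have hcl_ne : ∀ w, w ∉ M.closure {f} → w ≠ f := by
    intro w hw hh
    subst hh
    exact hw hff
  have hzE : z ∈ (M.contract {f}).E :=
    ⟨h.sub hz, fun hh => hcl_ne z hzcl (by simpa using hh)⟩
  have hl : ∀ w ∈ E0, (M.contract {f}).IsNonloop w → w ∈ comp (M.contract {f}) z := by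
    intro w hw hwnl
    rw [contract_isNonloop_iff] at hwnl
    obtain ⟨ρ, hρ, hρw, -⟩ := exists_rep_through ∅ (by simp) hw (by simp)
    have hE := h.emb hρ
    have hρz : ρ (z / 4) = z := by
      rcases hzc with hc | hc
      · rw [hc, hρ.six]; exact (hz.2.1 hc).symm
      · rw [hc, hρ.seven]; exact (hz.2.2 hc).symm
    have := conn1 hE hf (E0_class hz) (E0_class hw) (by rw [hρz]; exact hzcl)
      (by rw [hρw]; exact hwnl.2)
    rwa [hρz, hρw] at this
  refine ⟨z, hz, hcl_ne z hzcl, ?_⟩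
  have hother : ∃ w ∈ comp (M.contract {f}) z, w ≠ z := by
    obtain ⟨w, hwE0, hwnl, -⟩ := claim_cc h hfE (h.sub hz)
    exact ⟨w, hl w hwE0 hwnl.of_contract, fun hh => hwnl.mem_ground.2 (by simp [hh])⟩
  apply dp_step hzE hother
  intro f2 hf2
  have hf2E : f2 ∈ (M.contract {f}).E := comp_subset hf2
  have hne : f2 ≠ f := fun hh => hf2E.2 (by simp [hh])
  constructor
  · obtain ⟨w, hwE0, hwnl, hwd⟩ := claim_cc h hfE hf2E.1
    exact ⟨w, hl w hwE0 hwnl.of_contract, fun hh => hwnl.mem_ground.2 (by simp [hh]), hwd⟩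
  · obtain ⟨w, hwE0, hwnl, hwd⟩ := claim_dc h hne hf
    rw [← contract_delete_comm _ (by simpa using hne.symm)] at hwnl hwd
    exact ⟨w, hl w hwE0 (delete_isNonloop_iff.1 hwnl).1,
      fun hh => hwnl.mem_ground.2 (by simp [hh]), hwd⟩

/-- the lower bound -/
theorem lower [M.Finite] (h : Ctx M) : ¬ DepthLE CD M 5 := by
  have h28 : (28 : ℕ) ∈ E0 := by simp [E0]
  have h0 : (0 : ℕ) ∈ E0 := by simp [E0]
  have hE := h.sub h28
  apply not_depthLE_of_dp hE
  have hother : ∃ w ∈ comp M 28, w ≠ 28 := ⟨0, linked_self h h0, by decide⟩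
  apply dp_step hE hother
  intro f hf
  have hnl : M.IsNonloop f := by
    obtain ⟨z, hz1, hz2⟩ := hother
    obtain ⟨Z, hZ, ha, hb⟩ := comp_pair hz1 (self_mem_comp hE) hz2
    have hfin : Z.Finite := M.ground_finite.subset hZ.subset_ground
    have h2 : 2 ≤ Z.ncard := by
      have := Set.ncard_le_ncard (s := {z, 28}) (t := Z) (by
        intro x hx
        rcases hx with rfl | hx
        · exact ha
        · rw [mem_singleton_iff] at hx; rw [hx]; exact hb) hfin
      rwa [Set.ncard_pair hz2] at this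
    exact nonloop_of_mem_comp hZ h2 hb hf
  constructor
  · obtain ⟨z, hz, hzf, hd⟩ := lev5_c h hnl
    exact ⟨z, linked_self h hz, hzf, hd⟩
  · obtain ⟨z, hz, hzf, hd⟩ := lev5_d h f
    exact ⟨z, linked_self h hz, hzf, hd⟩

end Pool.Agent.Helper311_CD
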