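import Pool.Agent.Helper311_CD.Hat

set_option autoImplicit false

namespace Pool.Agent.Helper311_CD

open Finset

/-- the properties of the closure predicate `Y ↦ (f ∈ cl(Y))` used in the combinatorial part -/
structure Good (Φ : Finset ℕ → Prop) : Prop where
  mono : ∀ A B, A ⊆ B → Φ A → Φ B
  inter : ∀ A B, HIndep (A ∪ B) → Φ A → Φ B → Φ (A ∩ B)
  empty : ¬ Φ ∅
  circ : ∀ Y, Circ Y → ∀ y ∈ Y, Φ Y → Φ (Y.erase y)

variable {Φ : Finset ℕ → Prop}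

/-- no element is in all three planes -/
lemma vamos (h : Good Φ) (h1 : Φ {0, 1, 2, 3}) (h2 : Φ {0, 1, 4, 5}) (h3 : Φ {2, 3, 4, 5}) :
    False := by
  obtain ⟨k1, k2, k3⟩ := circ_small
  have a1 : Φ {0, 1} := h.mono _ _ (by decide) (h.inter _ _ (by decide)
    (h.circ _ k1 3 (by decide) h1) (h.circ _ k2 5 (by decide) h2))
  have a2 : Φ {2, 3} := h.mono _ _ (by decide) (h.inter _ _ (by decide)
    (h.circ _ k1 1 (by decide) h1) (h.circ _ k3 5 (by decide) h3))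
  have a3 : Φ {4, 5} := h.mono _ _ (by decide) (h.inter _ _ (by decide)
    (h.circ _ k2 1 (by decide) h2) (h.circ _ k3 3 (by decide) h3))
  have b1 := h.circ _ circ_D.1 1 (by decide) (h.mono {0, 1} _ (by decide) a1)
  have b2 := h.circ _ circ_D.2 3 (by decide) (h.mono {2, 3} _ (by decide) a2)
  have b3 : Φ D := h.mono _ _ (by decide) (h.inter _ _ (by decide) b1 b2)
  exact h.empty (h.mono _ _ (by decide) (h.inter _ _ (by decide) b3 a3))

/-- the sets `W` used for the large circuits -/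
def Ws : List (Finset ℕ) := [{0, 1, 3, 5}, {1, 2, 3, 5}, {1, 3, 4, 5}]

/-- the circuit `(D \ d) ∪ W` -/
def CW (d : ℕ) (W : Finset ℕ) : Finset ℕ := D.erase d ∪ W

lemma CW_circ : ∀ W ∈ Ws, ∀ d ∈ D, Circ (CW d W) := by
  have h : ∀ W ∈ Ws, ∀ d ∈ D, Hit (insert d (range 6 \ W)) ∧
      CW d W = range 32 \ (insert d (range 6 \ W)) := by decide
  intro W hW d hd
  obtain ⟨h1, h2⟩ := h W hW d hd
  rw [h2]
  exact h1.circ

/-- separation property of `U` -/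
def Sep (Φ : Finset ℕ → Prop) (U : Finset ℕ) : Prop :=
  ∀ Y, Circ Y → (Y ∩ U).Nonempty → (Y \ U).Nonempty → Φ (Y ∩ U) ∧ Φ (Y \ U)

lemma Sep.compl {U : Finset ℕ} (h : Sep Φ U) : Sep Φ (range 32 \ U) := by
  intro Y hY h1 h2
  have e1 : Y ∩ (range 32 \ U) = Y \ U := by
    ext x; simp only [mem_inter, mem_sdiff]
    exact ⟨fun h => ⟨h.1, h.2.2⟩, fun h => ⟨h.1, hY.1 h.1, h.2⟩⟩
  have e2 : Y \ (range 32 \ U) = Y ∩ U := by
    ext x; simp only [mem_inter, mem_sdiff, not_and, not_not]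
    exact ⟨fun h => ⟨h.1, h.2 (hY.1 h.1)⟩, fun h => ⟨h.1, fun _ => h.2⟩⟩
  rw [e1] at h1 ⊢
  rw [e2] at h2 ⊢
  exact (h Y hY h2 h1).symm

lemma transv (h : Good Φ) {U : Finset ℕ} (hs : Sep Φ U) (hDU : ∀ d ∈ D, d ∉ U) {q : ℕ}
    (hqU : q ∈ U) (hq : ¬ Φ {q}) (j0 j1 k0 k1 : ℕ)
    (hc : ∀ j ∈ [j0, j1], ∀ k ∈ [k0, k1], Circ (D ∪ {q, j, k}))
    (i1 : HIndep {q, j0, j1, k0}) (i2 : HIndep {q, j0, j1, k1}) (i3 : HIndep {q, k0, k1})
    (hj : j0 ≠ j1) (hk : k0 ≠ k1) : False := by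
  have hS : ∀ j ∈ [j0, j1], ∀ k ∈ [k0, k1], Φ ({q, j, k} ∩ U) := by
    intro j hj k hk
    have h1 := (hs _ (hc j hj k hk) ⟨q, mem_inter.2 ⟨by simp, hqU⟩⟩
      ⟨6, mem_sdiff.2 ⟨mem_union_left _ (by decide), hDU 6 (by decide)⟩⟩).1
    apply h.mono _ _ _ h1
    intro x hx
    obtain ⟨h2, h3⟩ := mem_inter.1 hx
    rcases mem_union.1 h2 with h4 | h4
    · exact absurd h3 (hDU x h4)
    · exact mem_inter.2 ⟨h4, h3⟩
  have hk' : ∀ k ∈ [k0, k1], HIndep {q, j0, j1, k} → Φ ({q, k} ∩ U) := by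
    intro k hk hi
    have h1 := h.inter _ _ (hi.mono (by
      intro x hx
      simp only [mem_union, mem_inter, mem_insert, mem_singleton] at hx ⊢
      tauto)) (hS j0 (by simp) k hk) (hS j1 (by simp) k hk)
    apply h.mono _ _ _ h1
    intro x hx
    simp only [mem_inter, mem_insert, mem_singleton] at hx ⊢
    obtain ⟨⟨h2, h3⟩, h4, -⟩ := hx
    refine ⟨?_, h3⟩
    rcases h2 with h2 | h2 | h2
    · exact Or.inl h2
    · rcases h4 with h4 | h4 | h4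
      · exact Or.inl h4
      · exact absurd (h2.symm.trans h4) hj
      · exact Or.inr h4
    · exact Or.inr h2
  have g1 := hk' k0 (by simp) i1
  have g2 := hk' k1 (by simp) i2
  have h1 := h.inter _ _ (i3.mono (by
      intro x hx
      simp only [mem_union, mem_inter, mem_insert, mem_singleton] at hx ⊢
      tauto)) g1 g2
  apply hq
  apply h.mono _ _ _ h1
  intro x hx
  simp only [mem_inter, mem_insert, mem_singleton] at hx ⊢
  obtain ⟨⟨h2, h3⟩, h4, -⟩ := hx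
  rcases h2 with h2 | h2
  · exact h2
  · rcases h4 with h4 | h4
    · exact h4
    · exact absurd (h2.symm.trans h4) hk

lemma circ_transv : ∀ q ∈ [0, 1], ∀ j ∈ [2, 3], ∀ k ∈ [4, 5], Circ (D ∪ {q, j, k}) := by
  have h : ∀ q ∈ [0, 1], ∀ j ∈ [2, 3], ∀ k ∈ [4, 5], Hit (range 6 \ {q, j, k}) ∧
      D ∪ {q, j, k} = range 32 \ (range 6 \ {q, j, k}) := by decide
  intro q hq j hj k hk
  obtain ⟨h1, h2⟩ := h q hq j hj k hk
  rw [h2]
  exact h1.circ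

lemma caseA (h : Good Φ) {U : Finset ℕ} (hU : U ⊆ range 32) (hs : Sep Φ U)
    (hDU : ∀ d ∈ D, d ∉ U) {q : ℕ} (hqU : q ∈ U) (hq : ¬ Φ {q}) : False := by
  have hq6 : q < 6 := by
    by_contra hcon
    apply hDU q _ hqU
    have := mem_range.1 (hU hqU)
    unfold D
    rw [mem_Icc]
    omega
  have hperm1 : ∀ q j k : ℕ, ({j, q, k} : Finset ℕ) = {q, j, k} := by
    intro q j k; ext x; simp only [mem_insert, mem_singleton]; tauto
  have hperm2 : ∀ q j k : ℕ, ({k, q, j} : Finset ℕ) = {q, j, k} := by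
    intro q j k; ext x; simp only [mem_insert, mem_singleton]; tauto
  have c0 : ∀ q ∈ [0, 1], (q ∈ U → ¬ Φ {q} → False) := by
    intro q hq hqU hqΦ
    refine transv h hs hDU hqU hqΦ 2 3 4 5 (circ_transv q hq) ?_ ?_ ?_
      (by decide) (by decide)
    all_goals (clear hqU hqΦ; revert q; decide)
  have c1 : ∀ q ∈ [2, 3], (q ∈ U → ¬ Φ {q} → False) := by
    intro q hq hqU hqΦ
    refine transv h hs hDU hqU hqΦ 0 1 4 5 (fun j hj k hk => ?_) ?_ ?_ ?_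
      (by decide) (by decide)
    · rw [hperm1]; exact circ_transv j hj q hq k hk
    all_goals (clear hqU hqΦ; revert q; decide)
  have c2 : ∀ q ∈ [4, 5], (q ∈ U → ¬ Φ {q} → False) := by
    intro q hq hqU hqΦ
    refine transv h hs hDU hqU hqΦ 0 1 2 3 (fun j hj k hk => ?_) ?_ ?_ ?_
      (by decide) (by decide)
    · rw [hperm2]; exact circ_transv j hj k hk q hq
    all_goals (clear hqU hqΦ; revert q; decide)
  have : q = 0 ∨ q = 1 ∨ q = 2 ∨ q = 3 ∨ q = 4 ∨ q = 5 := by omega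
  rcases this with rfl | rfl | rfl | rfl | rfl | rfl
  · exact c0 0 (by decide) hqU hq
  · exact c0 1 (by decide) hqU hq
  · exact c1 2 (by decide) hqU hq
  · exact c1 3 (by decide) hqU hq
  · exact c2 4 (by decide) hqU hq
  · exact c2 5 (by decide) hqU hq

lemma L_cover : ∀ y ∈ range 6, ∃ W ∈ Ws, y ∈ W := by decide

lemma Ws_sub : ∀ W ∈ Ws, W ⊆ range 6 := by decide

lemma Ws_ne : ∀ W ∈ Ws, W.Nonempty := by decide

lemma D_not6 : ∀ d ∈ D, d ∉ range 6 := by decide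

lemma D_or : ∀ q ∈ range 32, q ∈ D ∨ q ∈ range 6 := by decide

/-- if `(D \ d1) ∪ W` misses `U` for all `W`, then `U = {d1}`, contradiction -/
lemma caseB1 (_h : Good Φ) {U : Finset ℕ} (hU : U ⊆ range 32) (hs : Sep Φ U) {d1 d3 : ℕ}
    (hd1 : d1 ∈ D) (hd1U : d1 ∈ U) (hd3 : d3 ∈ D) (hd3U : d3 ∉ U)
    (hm : ∀ W ∈ Ws, ¬ (CW d1 W ∩ U).Nonempty) {q : ℕ} (hqU : q ∈ U) (hq : ¬ Φ {q}) : False := by
  have hU1 : ∀ x ∈ U, x = d1 := by
    intro x hx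
    by_contra hne
    rcases D_or x (hU hx) with h1 | h1
    · exact hm _ (List.mem_cons_self) ⟨x, mem_inter.2 ⟨mem_union_left _ (mem_erase.2 ⟨hne, h1⟩), hx⟩⟩
    · obtain ⟨W, hW, hxW⟩ := L_cover x h1
      exact hm W hW ⟨x, mem_inter.2 ⟨mem_union_right _ hxW, hx⟩⟩
  have hq1 := hU1 q hqU
  subst hq1
  have hne : q ≠ d3 := fun h => hd3U (h ▸ hd1U)
  have h1 := (hs (CW d3 {0, 1, 3, 5}) (CW_circ _ (by decide) d3 hd3)
    ⟨q, mem_inter.2 ⟨mem_union_left _ (mem_erase.2 ⟨hne, hd1⟩), hd1U⟩⟩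
    ⟨0, mem_sdiff.2 ⟨mem_union_right _ (by decide), fun h0 => by
      have := hU1 0 h0
      exact D_not6 q hd1 (by rw [← this]; decide)⟩⟩).1
  apply hq
  apply _h.mono _ _ _ h1
  intro x hx
  rw [mem_singleton]
  exact hU1 x (mem_inter.1 hx).2

lemma two_in_D : ∀ d ∈ D, ∀ d' ∈ D, ∃ x ∈ D, x ≠ d ∧ x ≠ d' := by
  intro d _ d' _
  have : ∃ x ∈ ({6, 7, 8} : Finset ℕ), x ≠ d ∧ x ≠ d' := by
    by_contra hcon
    push Not at hcon
    have h1 := hcon 6 (by decide)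
    have h2 := hcon 7 (by decide)
    have h3 := hcon 8 (by decide)
    omega
  obtain ⟨x, hx, h⟩ := this
  refine ⟨x, ?_, h⟩
  revert x
  intro x hx h
  fin_cases hx <;> decide

theorem conn_contra (h : Good Φ) {U : Finset ℕ} (hU : U ⊆ range 32) (hs : Sep Φ U)
    {q0 q1 : ℕ} (hq0 : q0 ∈ U) (hΦ0 : ¬ Φ {q0}) (hq1 : q1 ∈ range 32) (hq1U : q1 ∉ U)
    (hΦ1 : ¬ Φ {q1}) : False := by
  have hq1' : q1 ∈ range 32 \ U := mem_sdiff.2 ⟨hq1, hq1U⟩
  by_cases hA : ∀ d ∈ D, d ∉ U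
  · exact caseA h hU hs hA hq0 hΦ0
  by_cases hB : ∀ d ∈ D, d ∉ range 32 \ U
  · exact caseA h sdiff_subset hs.compl hB hq1' hΦ1
  push Not at hA hB
  obtain ⟨d1, hd1, hd1U⟩ := hA
  obtain ⟨d3, hd3, hd3'⟩ := hB
  have hd3U : d3 ∉ U := (mem_sdiff.1 hd3').2
  have hd13 : d1 ≠ d3 := fun h => hd3U (h ▸ hd1U)
  have hkey : ∀ W ∈ Ws, ∀ W' ∈ Ws, W = W' → ¬ (CW d1 W ∩ U).Nonempty ∨ ¬ (CW d3 W' \ U).Nonempty := by
    intro W hW W' hW' hWW
    subst hWW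
    by_contra hcon
    push Not at hcon
    obtain ⟨n1, n2⟩ := hcon
    have a1 := (hs _ (CW_circ W hW d1 hd1) n1
      ⟨d3, mem_sdiff.2 ⟨mem_union_left _ (mem_erase.2 ⟨hd13.symm, hd3⟩), hd3U⟩⟩).1
    have a2 := (hs _ (CW_circ W hW d3 hd3)
      ⟨d1, mem_inter.2 ⟨mem_union_left _ (mem_erase.2 ⟨hd13, hd1⟩), hd1U⟩⟩ n2).2
    have hin : HIndep ((CW d1 W).erase d3) := (CW_circ W hW d1 hd1).2.2 d3
      (mem_union_left _ (mem_erase.2 ⟨hd13.symm, hd3⟩))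
    have a3 := h.inter _ _ (hin.mono (by
      intro x hx
      rcases mem_union.1 hx with hx | hx
      · obtain ⟨h1, h2⟩ := mem_inter.1 hx
        exact mem_erase.2 ⟨fun h => hd3U (h ▸ h2), h1⟩
      · obtain ⟨h1, h2⟩ := mem_sdiff.1 hx
        rcases mem_union.1 h1 with h5 | h5
        · obtain ⟨h3, h4⟩ := mem_erase.1 h5
          exact mem_erase.2 ⟨h3, mem_union_left _ (mem_erase.2 ⟨fun h => h2 (h ▸ hd1U), h4⟩)⟩
        · refine mem_erase.2 ⟨?_, mem_union_right _ h5⟩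
          intro hx3
          exact D_not6 _ hd3 (hx3 ▸ Ws_sub W hW h5))) a1 a2
    apply h.empty
    apply h.mono _ _ _ a3
    intro x hx
    obtain ⟨h1, h2⟩ := mem_inter.1 hx
    exact absurd (mem_inter.1 h1).2 (mem_sdiff.1 h2).2
  by_cases hC : ∀ W ∈ Ws, ¬ (CW d1 W ∩ U).Nonempty
  · exact caseB1 h hU hs hd1 hd1U hd3 hd3U hC hq0 hΦ0
  · push Not at hC
    obtain ⟨W, hW, hne⟩ := hC
    have h2 := (hkey W hW W hW rfl).resolve_left (fun h => h hne)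
    -- then D \ U = {d3}
    have hD3 : ∀ x ∈ D, x ∉ U → x = d3 := by
      intro x hx hxU
      by_contra hne
      exact h2 ⟨x, mem_sdiff.2 ⟨mem_union_left _ (mem_erase.2 ⟨hne, hx⟩), hxU⟩⟩
    have hC' : ∀ W ∈ Ws, ¬ (CW d3 W ∩ (range 32 \ U)).Nonempty := by
      intro W' hW' hne'
      have hor := hkey W' hW' W' hW' rfl
      rcases hor with h3 | h3
      · obtain ⟨x, hx, hx1, hx3⟩ := two_in_D d1 hd1 d3 hd3
        have hxU : x ∈ U := by
          by_contra h; exact hx3 (hD3 x hx h)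
        exact h3 ⟨x, mem_inter.2 ⟨mem_union_left _ (mem_erase.2 ⟨hx1, hx⟩), hxU⟩⟩
      · apply h3
        obtain ⟨x, hx⟩ := hne'
        obtain ⟨h4, h5⟩ := mem_inter.1 hx
        exact ⟨x, mem_sdiff.2 ⟨h4, (mem_sdiff.1 h5).2⟩⟩
    exact caseB1 h sdiff_subset hs.compl hd3 hd3' hd1
      (fun h => (mem_sdiff.1 h).2 hd1U) hC' hq1' hΦ1

end Pool.Agent.Helper311_CD
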