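import Pool.Agent.Helper311_CD.Game

set_option autoImplicit false

/-! The function `depth` satisfies the three rules of the recursive definition. -/

namespace Pool.Agent.Helper311_CD

open Set Matroid

variable {T : Matroid ℕ → Matroid ℕ → Prop} {M : Matroid ℕ}

lemma depth_le_iff {n : ℕ} : depth T M ≤ n ↔ DepthLE T M n := by
  constructor
  · intro h
    by_contra hcon
    have h1 : ((n + 1 : ℕ) : ℕ∞) ≤ depth T M := by
      refine le_iInf₂ fun k hk => ?_
      by_contra hlt
      have : k ≤ n := by
        by_contra hh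
        apply hlt
        exact_mod_cast (by omega : n + 1 ≤ k)
      exact hcon (hk.mono n this)
    have h2 := h1.trans h
    have : n + 1 ≤ n := by exact_mod_cast h2
    omega
  · intro h
    exact iInf₂_le n h

lemma enat_eq {a b : ℕ∞} (h : ∀ n : ℕ, a ≤ n ↔ b ≤ n) : a = b := by
  have key : ∀ a b : ℕ∞, (∀ n : ℕ, a ≤ n ↔ b ≤ n) → a ≤ b := by
    intro a b h
    induction b with
    | top => exact le_top
    | coe m => exact (h m).2 le_rfl
  exact le_antisymm (key a b h) (key b a fun n => (h n).symm)

/-- rule 1 -/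
theorem depth_one [M.Finite] (h : M.E.ncard = 1) : depth T M = 1 := by
  apply enat_eq
  intro n
  rw [depth_le_iff]
  constructor
  · intro hd
    have := depthLE_pos hd inferInstance
    exact_mod_cast (by omega : 1 ≤ n)
  · intro hn
    exact .one h (by exact_mod_cast hn)

/-- rule 2 -/
theorem depth_comps [M.Finite] (h2 : 2 ≤ M.E.ncard) (h : ¬ Connected M) :
    depth T M = ⨆ (C : Set ℕ) (_ : IsComponent M C), depth T (M.restrict C) := by
  apply enat_eq
  intro n
  rw [depth_le_iff, iSup₂_le_iff]
  simp only [depth_le_iff]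
  exact ⟨fun hd C hC => depthLE_component T hd hC, fun hd => .comps h2 h hd⟩

/-- rule 3 -/
theorem depth_step (h2 : 2 ≤ M.E.ncard) (h : Connected M) :
    depth T M = 1 + ⨅ (M' : Matroid ℕ) (_ : T M M'), depth T M' := by
  apply enat_eq
  intro n
  rw [depth_le_iff]
  constructor
  · intro hd
    cases hd with
    | one h1 _ => omega
    | comps _ h3 _ => exact absurd h h3
    | @step _ M' k _ _ hT hd' =>
      have h4 : (⨅ (M' : Matroid ℕ) (_ : T M M'), depth T M') ≤ k :=
        (iInf₂_le M' hT).trans (depth_le_iff.2 hd')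
      calc 1 + _ ≤ 1 + (k : ℕ∞) := by gcongr
        _ = ((k + 1 : ℕ) : ℕ∞) := by push_cast; rw [add_comm]
  · intro hn
    obtain ⟨m, hm⟩ : ∃ m : ℕ, (⨅ (M' : Matroid ℕ) (_ : T M M'), depth T M') = m := by
      cases hx : (⨅ (M' : Matroid ℕ) (_ : T M M'), depth T M') with
      | top =>
        rw [hx] at hn
        simp at hn
      | coe m => exact ⟨m, rfl⟩
    rw [hm] at hn
    have hmn : m + 1 ≤ n := by
      have : ((1 + m : ℕ) : ℕ∞) ≤ n := by exact_mod_cast hn
      have := (Nat.cast_le (α := ℕ∞)).1 this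
      omega
    obtain ⟨M', hT, hM'⟩ : ∃ M', T M M' ∧ depth T M' ≤ m := by
      by_contra hcon
      push Not at hcon
      have h5 : ((m + 1 : ℕ) : ℕ∞) ≤ (⨅ (M' : Matroid ℕ) (_ : T M M'), depth T M') := by
        refine le_iInf₂ fun M' hT => ?_
        have := hcon M' hT
        rw [Nat.cast_add, Nat.cast_one]
        exact Order.add_one_le_of_lt this
      rw [hm] at h5
      have := (Nat.cast_le (α := ℕ∞)).1 h5
      omega
    obtain ⟨k, rfl⟩ : ∃ k, n = k + 1 := ⟨n - 1, by omega⟩
    exact .step h2 h hT ((depth_le_iff.1 hM').mono k (by omega))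

end Pool.Agent.Helper311_CD
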