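import Pool.Agent.Helper311_CD.Game

set_option autoImplicit false

namespace Pool.Agent.Helper311_CD

open Set Matroid H211.MC

variable {N : Matroid ℕ}

/-- `z'` is a parallel twin of `z` -/
def Twin (N : Matroid ℕ) (z z' : ℕ) : Prop := z' ≠ z ∧ N.IsCircuit {z, z'}

lemma circuit_nonloop {Z : Set ℕ} {z w : ℕ} (hZ : N.IsCircuit Z) (hz : z ∈ Z) (hw : w ∈ Z)
    (hne : w ≠ z) : N.IsNonloop z := by
  rw [← indep_singleton]
  apply hZ.ssubset_indep
  refine ⟨by simpa using hz, fun h => ?_⟩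
  exact hne (by simpa using h hw)

lemma pair_dep_false {Z : Set ℕ} {a b : ℕ} (hZ : N.IsCircuit Z) (h3 : 3 ≤ Z.ncard)
    (ha : a ∈ Z) (hb : b ∈ Z) (hd : ¬ N.Indep {a, b}) : False := by
  have hsub : ({a, b} : Set ℕ) ⊆ Z := by
    intro x hx; rcases hx with rfl | hx
    · exact ha
    · rw [mem_singleton_iff] at hx; rw [hx]; exact hb
  have e := hZ.eq_of_not_indep_subset hd hsub
  have : ({a, b} : Set ℕ).ncard ≤ 2 := Set.ncard_insert_le a {b} |>.trans (by simp)
  rw [e] at this
  omega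

lemma twin_closure {z z' : ℕ} (h : Twin N z z') : z ∈ N.closure {z'} ∧ z' ∈ N.closure {z} := by
  constructor
  · have := h.2.mem_closure_sdiff_singleton_of_mem (e := z) (by simp)
    refine N.closure_subset_closure ?_ this
    intro x hx
    rcases hx with ⟨rfl | hx, h2⟩
    · exact absurd rfl h2
    · exact hx
  · have := h.2.mem_closure_sdiff_singleton_of_mem (e := z') (by simp)
    refine N.closure_subset_closure ?_ this
    intro x hx
    rcases hx with ⟨rfl | hx, h2⟩
    · simp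
    · exact absurd hx h2

lemma twin_nonloop {z z' : ℕ} (h : Twin N z z') : N.IsNonloop z ∧ N.IsNonloop z' :=
  ⟨circuit_nonloop h.2 (by simp) (w := z') (by simp) h.1,
    circuit_nonloop h.2 (by simp) (w := z) (by simp) h.1.symm⟩

lemma twin_notMem {Z : Set ℕ} {z z' : ℕ} (hZ : N.IsCircuit Z) (h3 : 3 ≤ Z.ncard)
    (hz : z ∈ Z) (h : Twin N z z') : z' ∉ Z := fun h' =>
  pair_dep_false hZ h3 hz h' h.2.not_indep

/-- parallel symmetric -/
lemma par_symm {a b : ℕ} (ha : N.IsNonloop a) (h : a ∈ N.closure {b}) : b ∈ N.closure {a} := by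
  by_contra hcon
  have hb : b ∈ N.E := by
    by_contra hb
    have : N.closure {b} = N.closure ∅ := by
      rw [← closure_inter_ground]
      congr 1
      ext x; simp only [mem_inter_iff, mem_singleton_iff, mem_empty_iff_false, iff_false, not_and]
      rintro rfl; exact hb
    rw [this] at h
    exact ha.not_isLoop h
  by_cases hbl : N.IsNonloop b
  · rw [← indep_singleton] at ha hbl
    have h1 : N.Indep (insert b {a}) := by
      rw [ha.insert_indep_iff]
      exact Or.inl ⟨hb, hcon⟩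
    have hne : a ≠ b := by
      rintro rfl
      exact hcon (N.mem_closure_of_mem rfl ha.subset_ground)
    have h2 : N.Indep (insert a {b}) := by rwa [Set.pair_comm]
    rw [hbl.insert_indep_iff] at h2
    rcases h2 with h2 | h2
    · exact h2.2 h
    · exact hne h2
  · have hl : N.IsLoop b := by
      rw [← not_isNonloop_iff hb]; exact hbl
    exact hcon (hl.mem_closure _)

lemma swap {Z : Set ℕ} {z z' : ℕ} (hZ : N.IsCircuit Z) (h3 : 3 ≤ Z.ncard)
    (hz : z ∈ Z) (h : Twin N z z') : N.IsCircuit (insert z' (Z \ {z})) := by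
  have hz' := twin_notMem hZ h3 hz h
  obtain ⟨c1, c2⟩ := twin_closure h
  apply (hZ.sdiff_singleton_indep hz).insert_isCircuit_of_forall
  · exact fun h' => hz' h'.1
  · have h1 : z ∈ N.closure (Z \ {z}) := hZ.mem_closure_sdiff_singleton_of_mem hz
    exact N.closure_subset_closure_of_subset_closure (by simpa using h1) c2
  · intro y hy hcl
    have h1 : z ∈ N.closure ((Z \ {z}) \ {y}) :=
      N.closure_subset_closure_of_subset_closure (by simpa using hcl) c1
    have hI : N.Indep (Z \ {y}) := hZ.sdiff_singleton_indep hy.1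
    have h2 : z ∉ N.closure ((Z \ {y}) \ {z}) :=
      hI.notMem_closure_sdiff_of_mem ⟨hz, fun h => hy.2 (by simpa using h.symm)⟩
    rw [sdiff_sdiff_comm] at h2
    exact h2 h1

lemma twin_delete {z z' f : ℕ} (h : Twin N z z') (h1 : f ≠ z) (h2 : f ≠ z') :
    Twin (N.delete {f}) z z' := by
  refine ⟨h.1, delete_isCircuit_iff.2 ⟨h.2, ?_⟩⟩
  rw [Set.disjoint_singleton_right]
  simp [h1, h2]

lemma delete_circuit {Z : Set ℕ} {f : ℕ} (hZ : N.IsCircuit Z) (hf : f ∉ Z) :
    (N.delete {f}).IsCircuit Z := by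
  refine delete_isCircuit_iff.2 ⟨hZ, ?_⟩
  rw [Set.disjoint_singleton_right]
  exact hf

lemma persist {C : Set ℕ} {f : ℕ} (hC : N.IsCircuit C) (hfE : f ∈ N.E) (hf : f ∉ N.closure C) :
    (N.contract {f}).IsCircuit C := by
  have hfC : f ∉ C := fun h => hf (N.mem_closure_of_mem h hC.subset_ground)
  have hnl : N.IsNonloop f := by
    by_contra hcon
    exact hf (IsLoop.mem_closure (by rw [← not_isNonloop_iff hfE]; exact hcon) _)
  rw [isCircuit_iff_dep_forall_sdiff_singleton_indep]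
  refine ⟨hC.contract_dep (by simpa using hfC), ?_⟩
  intro z hz
  rw [hnl.contractElem_indep_iff]
  refine ⟨fun h => hfC h.1, ?_⟩
  rw [(hC.sdiff_singleton_indep hz).insert_indep_iff]
  exact Or.inl ⟨hfE, fun h => hf (N.closure_subset_closure sdiff_subset h)⟩

lemma twin_contract {z z' f : ℕ} (h : Twin N z z') (hfE : f ∈ N.E) (hz : z ∉ N.closure {f}) :
    Twin (N.contract {f}) z z' := by
  obtain ⟨c1, c2⟩ := twin_closure h
  obtain ⟨n1, n2⟩ := twin_nonloop h
  have hz' : z' ∉ N.closure {f} := fun h' =>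
    hz (N.closure_subset_closure_of_subset_closure (by simpa using h') c1)
  refine ⟨h.1, ?_⟩
  by_cases hnl : N.IsNonloop f
  · apply persist h.2 hfE
    intro hcl
    have e : N.closure {z, z'} = N.closure {z} := by
      apply subset_antisymm
      · apply N.closure_subset_closure_of_subset_closure
        intro x hx
        rcases hx with rfl | hx
        · exact N.mem_closure_of_mem rfl (by simpa using n1.mem_ground)
        · rw [mem_singleton_iff] at hx; rw [hx]; exact c2
      · exact N.closure_subset_closure (by simp)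
    rw [e] at hcl
    exact hz (par_symm hnl hcl)
  · have hl : N.IsLoop f := by rw [← not_isNonloop_iff hfE]; exact hnl
    rw [contract_eq_delete_of_subset_loops (by rw [Set.singleton_subset_iff]; exact hl)]
    apply delete_circuit h.2
    intro hf
    rcases hf with rfl | hf
    · exact hnl n1
    · rw [mem_singleton_iff] at hf; rw [hf] at hnl; exact hnl n2

/-- one contraction leaves a circuit of at least half the size -/
lemma halve [N.Finite] {C : Set ℕ} {f : ℕ} (hC : N.IsCircuit C) (hf : N.IsNonloop f)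
    (h2 : 2 ≤ C.ncard) :
    ∃ Z ⊆ C, (N.contract {f}).IsCircuit Z ∧ C.ncard ≤ 2 * Z.ncard := by
  have hfin : C.Finite := N.ground_finite.subset hC.subset_ground
  by_cases hfC : f ∈ C
  · refine ⟨C \ {f}, sdiff_subset, hC.contractElem_isCircuit ?_ hfC, ?_⟩
    · exact (Set.one_lt_ncard_iff_nontrivial_and_finite.1 (by omega)).1
    · rw [Set.ncard_sdiff_singleton_of_mem hfC]; omega
  · obtain ⟨Z1, hZ1s, hZ1⟩ := (hC.contract_dep (C := {f}) (by simpa using hfC)).exists_isCircuit_subset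
    by_cases hEq : Z1 = C
    · exact ⟨C, Subset.rfl, hEq ▸ hZ1, by omega⟩
    have hind : N.Indep Z1 := hC.ssubset_indep (hZ1s.ssubset_of_ne hEq)
    obtain ⟨C1, hC1, h1a, h1b⟩ := hZ1.exists_subset_isCircuit_of_contract
    have hfC1 : f ∈ C1 := by
      by_contra hcon
      apply hC1.not_indep
      apply hind.subset
      intro x hx
      rcases h1b hx with h | h
      · exact h
      · rw [mem_singleton_iff] at h; exact absurd (h ▸ hx) hcon
    obtain ⟨z, hz⟩ := hZ1.nonempty
    obtain ⟨C2, hC2s, hC2, hfC2⟩ := hC1.strong_elimination hC (h1a hz) (hZ1s hz) hfC1 hfC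
    have hC2nt : C2.Nontrivial := by
      rw [← Set.not_subsingleton_iff]
      intro hs
      have : C2 = {f} := hs.eq_singleton_of_mem hfC2
      rw [this] at hC2
      exact hC2.not_indep (by rw [indep_singleton]; exact hf)
    have hZ2 := hC2.contractElem_isCircuit hC2nt hfC2
    have hZ2s : C2 \ {f} ⊆ C := by
      intro x hx
      rcases (hC2s hx.1).1 with h | h
      · rcases h1b h with h | h
        · exact hZ1s h
        · exact absurd h hx.2
      · exact h
    have hcov : C ⊆ Z1 ∪ (C2 \ {f}) := by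
      intro y hy
      by_contra hcon
      have hne : C1 ≠ C2 := by
        rintro rfl
        exact (hC2s (h1a hz)).2 rfl
      obtain ⟨C3, hC3s, hC3⟩ := hC1.elimination hC2 hne f
      have h3 : C3 ⊆ C := by
        intro x hx
        obtain ⟨h4, h5⟩ := hC3s hx
        rcases h4 with h4 | h4
        · rcases h1b h4 with h6 | h6
          · exact hZ1s h6
          · exact absurd h6 h5
        · exact hZ2s ⟨h4, h5⟩
      have e := hC3.eq_of_subset_isCircuit hC h3
      rw [← e] at hy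
      obtain ⟨h4, h5⟩ := hC3s hy
      apply hcon
      rcases h4 with h4 | h4
      · rcases h1b h4 with h6 | h6
        · exact Or.inl h6
        · exact absurd h6 h5
      · exact Or.inr ⟨h4, h5⟩
    have hle : C.ncard ≤ Z1.ncard + (C2 \ {f}).ncard :=
      (Set.ncard_le_ncard hcov ((hfin.subset hZ1s).union (hfin.subset hZ2s))).trans
        (Set.ncard_union_le _ _)
    by_cases hcmp : C.ncard ≤ 2 * Z1.ncard
    · exact ⟨Z1, hZ1s, hZ1, hcmp⟩
    · exact ⟨C2 \ {f}, hZ2s, hZ2, by omega⟩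

lemma dp_congr [N.Finite] {y z k : ℕ} (hz : z ∈ N.E) (h : y ∈ comp N z) (hd : Dp N z k) :
    Dp N y k := by
  unfold Dp at hd ⊢
  rwa [comp_eq_of_mem hz h]

lemma p2 [N.Finite] {Z : Set ℕ} {a b : ℕ} (hZ : N.IsCircuit Z) (ha : a ∈ Z) (hb : b ∈ Z)
    (hab : a ≠ b) : Dp N a 1 := by
  have haE := hZ.subset_ground ha
  apply dp_step haE ⟨b, mem_comp_of_circuit hZ ha hb, hab.symm⟩
  intro f _
  by_cases h : a = f
  · exact ⟨⟨b, mem_comp_of_circuit hZ ha hb, fun h' => hab (h.trans h'.symm), dp_zero _⟩,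
      ⟨b, mem_comp_of_circuit hZ ha hb, fun h' => hab (h.trans h'.symm), dp_zero _⟩⟩
  · exact ⟨⟨a, self_mem_comp haE, h, dp_zero _⟩, ⟨a, self_mem_comp haE, h, dp_zero _⟩⟩

lemma p2' [N.Finite] {Y : Set ℕ} (hY : ¬ N.Indep Y) (hnl : ∀ y ∈ Y, N.IsNonloop y) :
    ∃ z ∈ Y, Dp N z 1 := by
  have hd : N.Dep Y := ⟨hY, fun y hy => (hnl y hy).mem_ground⟩
  obtain ⟨Z, hZs, hZ⟩ := hd.exists_isCircuit_subset
  obtain ⟨a, ha⟩ := hZ.nonempty
  have : ∃ b ∈ Z, a ≠ b := by
    by_contra hcon
    push Not at hcon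
    have e : Z = {a} := by
      apply subset_antisymm
      · intro x hx; exact (hcon x hx).symm
      · simpa using ha
    rw [e] at hZ
    exact hZ.not_indep (by rw [indep_singleton]; exact hnl a (hZs ha))
  obtain ⟨b, hb, hab⟩ := this
  exact ⟨a, hZs ha, p2 hZ ha hb hab⟩

lemma exists_ne_of_two_le {Z : Set ℕ} (h : 2 ≤ Z.ncard) (a : ℕ) : ∃ b ∈ Z, b ≠ a := by
  apply Set.exists_ne_of_one_lt_ncard (by omega)

lemma nonloop_of_mem_comp {Z : Set ℕ} {z f : ℕ} (hZ : N.IsCircuit Z) (h2 : 2 ≤ Z.ncard)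
    (hz : z ∈ Z) (hf : f ∈ comp N z) : N.IsNonloop f := by
  obtain ⟨b, hb, hbz⟩ := exists_ne_of_two_le h2 z
  have hnl := circuit_nonloop hZ hz hb hbz
  obtain ⟨_, rfl | ⟨Z1, h1, h1z, h1f⟩⟩ := hf
  · exact hnl
  · by_cases h : z = f
    · rw [← h]; exact hnl
    · exact circuit_nonloop h1 h1f h1z h

lemma p3 [N.Finite] {Z : Set ℕ} {z z' : ℕ} (hZ : N.IsCircuit Z) (h3 : 3 ≤ Z.ncard)
    (hz : z ∈ Z) (ht : Twin N z z') {y : ℕ} (hy : y ∈ Z) : Dp N y 2 := by
  apply dp_congr (hZ.subset_ground hz) (mem_comp_of_circuit hZ hz hy)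
  have hzE := hZ.subset_ground hz
  have hz'Z := twin_notMem hZ h3 hz ht
  have hz'K : z' ∈ comp N z := mem_comp_of_circuit ht.2 (by simp) (by simp)
  apply dp_step hzE ⟨z', hz'K, ht.1⟩
  intro f hf
  have hfnl := nonloop_of_mem_comp hZ (by omega) hz hf
  have hfE := hfnl.mem_ground
  obtain ⟨w, hw, hwz⟩ := exists_ne_of_two_le (Z := Z) (by omega) z
  constructor
  · -- contraction
    by_cases hcl : z ∈ N.closure {f}
    · -- f parallel to z
      have hznl := (twin_nonloop ht).1
      have hfz := par_symm hznl hcl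
      have hnl : ∀ y ∈ Z \ {z}, (N.contract {f}).IsNonloop y := by
        intro y hy
        rw [contract_isNonloop_iff]
        refine ⟨hZ.subset_ground hy.1, fun h => ?_⟩
        have h1 : y ∈ N.closure {z} :=
          N.closure_subset_closure_of_subset_closure (by simpa using hfz) h
        refine pair_dep_false hZ h3 hy.1 hz (fun hi => ?_)
        have h2 := hi.notMem_closure_sdiff_of_mem (e := y) (by simp)
        apply h2
        refine N.closure_subset_closure ?_ h1
        intro x hx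
        rw [mem_singleton_iff] at hx
        subst hx
        exact ⟨by simp, fun h => hy.2 (by simpa using h.symm)⟩
      have hdep : ¬ (N.contract {f}).Indep (Z \ {z}) := by
        rw [hfnl.contractElem_indep_iff]
        rintro ⟨h1, h2⟩
        have h4 : f ∉ N.closure (Z \ {z}) := by
          have := h2.notMem_closure_sdiff_of_mem (e := f) (by simp)
          rwa [insert_sdiff_self_of_notMem h1] at this
        apply h4
        exact N.closure_subset_closure_of_subset_closure
          (by simpa using hZ.mem_closure_sdiff_singleton_of_mem hz) hfz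
      obtain ⟨y, hy, hd⟩ := p2' hdep hnl
      exact ⟨y, mem_comp_of_circuit hZ hz hy.1, fun h => by
        have := (hnl y hy).mem_ground
        exact this.2 (by simpa using h), hd⟩
    · have ht' := twin_contract ht hfE hcl
      exact ⟨z, self_mem_comp hzE, fun h => hcl (by
        rw [h]; exact N.mem_closure_of_mem rfl (by simpa using hfE)),
        p2 ht'.2 (by simp) (b := z') (by simp) ht.1.symm⟩
  · by_cases hfZ : f ∈ Z
    · by_cases hfz : f = z
      · subst hfz
        have hs := swap hZ h3 hz ht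
        have hs' := delete_circuit (f := f) hs (by
          intro h
          rcases h with h | h
          · exact ht.1 h.symm
          · exact h.2 rfl)
        refine ⟨z', hz'K, ht.1, p2 hs' (by simp) (b := w) ?_ ?_⟩
        · exact Or.inr ⟨hw, hwz⟩
        · rintro rfl; exact hz'Z hw
      · have hfz' : f ≠ z' := fun h => hz'Z (h ▸ hfZ)
        have ht' := twin_delete ht hfz hfz'
        exact ⟨z, self_mem_comp hzE, fun h => hfz h.symm,
          p2 ht'.2 (by simp) (b := z') (by simp) ht.1.symm⟩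
    · refine ⟨z, self_mem_comp hzE, fun h => hfZ (h ▸ hz), p2 (delete_circuit hZ hfZ) hz hw hwz.symm⟩

lemma del_aux [N.Finite] (T : Finset ℕ) {Z : Set ℕ} (hZ : N.IsCircuit Z) (h3 : 3 ≤ Z.ncard)
    (htw : ∀ z ∈ Z, z ∈ T ∨ ∃ z', Twin N z z') {a b : ℕ} (ha : a ∈ Z) (hb : b ∈ Z) (hab : a ≠ b)
    (haT : a ∉ T) (hbT : b ∉ T) {f : ℕ} (hf : f ∈ Z → f ∉ T) :
    ∃ w ∈ comp N a, w ≠ f ∧ Dp (N.delete {f}) w 2 := by
  have haE := hZ.subset_ground ha
  by_cases hfZ : f ∈ Z
  · obtain ⟨f', hf'⟩ := (htw f hfZ).resolve_left (hf hfZ)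
    obtain ⟨c, hc, hcT, hcf⟩ : ∃ c ∈ Z, c ∉ T ∧ c ≠ f := by
      by_cases h : a = f
      · exact ⟨b, hb, hbT, fun h' => hab (h.trans h'.symm)⟩
      · exact ⟨a, ha, haT, h⟩
    obtain ⟨c', hc'⟩ := (htw c hc).resolve_left hcT
    have hcf' : f ≠ c' := by
      rintro rfl
      exact pair_dep_false hZ h3 hc hfZ hc'.2.not_indep
    have hs := swap hZ h3 hfZ hf'
    have hfZ' := twin_notMem hZ h3 hfZ hf'
    have hs' := delete_circuit (f := f) hs (by
      intro h
      rcases h with h | h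
      · exact hf'.1 h.symm
      · exact h.2 rfl)
    have hcard : 3 ≤ (insert f' (Z \ {f})).ncard := by
      have hfin : Z.Finite := N.ground_finite.subset hZ.subset_ground
      rw [Set.ncard_insert_of_notMem (fun h => hfZ' h.1) (hfin.subset sdiff_subset),
        Set.ncard_sdiff_singleton_of_mem hfZ]
      omega
    exact ⟨c, mem_comp_of_circuit hZ ha hc, hcf, p3 hs' hcard (Or.inr ⟨hc, hcf⟩)
      (twin_delete hc' hcf.symm hcf') (Or.inr ⟨hc, hcf⟩)⟩
  · have hd := delete_circuit hZ hfZ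
    obtain ⟨a', ha'⟩ := (htw a ha).resolve_left haT
    obtain ⟨b', hb'⟩ := (htw b hb).resolve_left hbT
    have hfa : f ≠ a := fun h => hfZ (h ▸ ha)
    have hfb : f ≠ b := fun h => hfZ (h ▸ hb)
    by_cases h1 : f = a'
    · by_cases h2 : f = b'
      · exfalso
        subst h1
        subst h2
        have c1 := (twin_closure ha').1
        have c2 := (twin_closure hb').2
        have c3 : a ∈ N.closure {b} :=
          N.closure_subset_closure_of_subset_closure (by simpa using c2) c1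
        refine pair_dep_false hZ h3 ha hb (fun hi => ?_)
        have h2 := hi.notMem_closure_sdiff_of_mem (e := a) (by simp)
        apply h2
        refine N.closure_subset_closure ?_ c3
        intro x hx
        rw [mem_singleton_iff] at hx
        subst hx
        exact ⟨by simp, fun h => hab (by simpa using h.symm)⟩
      · exact ⟨a, self_mem_comp haE, hfa.symm, p3 hd h3 hb (twin_delete hb' hfb h2) ha⟩
    · exact ⟨a, self_mem_comp haE, hfa.symm, p3 hd h3 ha (twin_delete ha' hfa h1) ha⟩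

lemma exists_nonthin {Z : Set ℕ} (T : Finset ℕ) (h : T.card < Z.ncard) : ∃ z ∈ Z, z ∉ T := by
  rw [← Set.ncard_coe_finset] at h
  obtain ⟨z, h1, h2⟩ := Set.exists_mem_notMem_of_ncard_lt_ncard h
  exact ⟨z, h1, by simpa using h2⟩

lemma p4a [N.Finite] (T : Finset ℕ) (hT : T.card ≤ 2) {Z : Set ℕ} (hZ : N.IsCircuit Z)
    (h5 : 5 ≤ Z.ncard) (htw : ∀ z ∈ Z, z ∈ T ∨ ∃ z', Twin N z z')
    (hY : ∀ θ ∈ T, θ ∈ Z → ∃ Y, N.IsCircuit Y ∧ θ ∉ Y ∧ 3 ≤ Y.ncard ∧
      (∃ y ∈ Y, ∃ y', Twin N y y' ∧ y' ≠ θ) ∧ (∃ u ∈ Y, u ∈ comp N θ))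
    {z0 : ℕ} (hz0 : z0 ∈ Z) : Dp N z0 3 := by
  have hz0E := hZ.subset_ground hz0
  have hfin : Z.Finite := N.ground_finite.subset hZ.subset_ground
  obtain ⟨w, hw, hwz⟩ := exists_ne_of_two_le (Z := Z) (by omega) z0
  apply dp_step hz0E ⟨w, mem_comp_of_circuit hZ hz0 hw, hwz⟩
  intro f hf
  have hfnl := nonloop_of_mem_comp hZ (by omega) hz0 hf
  have hfE := hfnl.mem_ground
  have hZK : Z ⊆ comp N z0 := fun x hx => mem_comp_of_circuit hZ hz0 hx
  constructor
  · obtain ⟨Z', hZ's, hZ', hc⟩ := halve hZ hfnl (by omega)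
    obtain ⟨z, hz, hzT⟩ := exists_nonthin (Z := Z') T (by omega)
    obtain ⟨z', hz'⟩ := (htw z (hZ's hz)).resolve_left hzT
    obtain ⟨v, hv, hvz⟩ := exists_ne_of_two_le (Z := Z') (by omega) z
    have hnl := circuit_nonloop hZ' hz hv hvz
    rw [contract_isNonloop_iff] at hnl
    exact ⟨z, hZK (hZ's hz), fun h => (hZ'.subset_ground hz).2 (by simpa using h),
      p3 hZ' (by omega) hz (twin_contract hz' hfE hnl.2) hz⟩
  · obtain ⟨a, ha, haT⟩ := exists_nonthin (Z := Z) T (by omega)
    obtain ⟨b, hb, hbT⟩ := exists_nonthin (Z := Z \ {a}) T (by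
      rw [Set.ncard_sdiff_singleton_of_mem ha]; omega)
    have hab : a ≠ b := fun h => hb.2 (by simpa using h.symm)
    by_cases hcase : f ∈ Z → f ∉ T
    · obtain ⟨w, hw, hwf, hd⟩ := del_aux T hZ (by omega) htw ha hb.1 hab haT hbT hcase
      refine ⟨w, ?_, hwf, hd⟩
      rwa [comp_eq_of_mem hz0E (hZK ha)] at hw
    · push Not at hcase
      obtain ⟨hfZ, hfT⟩ := hcase
      obtain ⟨Y, hYc, hfY, hY3, ⟨y, hy, y', hyy, hyf⟩, u, hu, huf⟩ := hY f hfT hfZ
      have huK : u ∈ comp N z0 := by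
        rwa [comp_eq_of_mem hz0E hf] at huf
      have hyK := circuit_subset_comp hYc hu huK hy
      exact ⟨y, hyK, fun h => hfY (h ▸ hy), p3 (delete_circuit hYc hfY) hY3 hy
        (twin_delete hyy (fun h => hfY (h ▸ hy)) hyf.symm) hy⟩

lemma p4b [N.Finite] {Z0 : Set ℕ} (hZ0 : N.IsCircuit Z0) (h03 : 3 ≤ Z0.ncard)
    (htw0 : ∀ z ∈ Z0, ∃ z', Twin N z z')
    {z0 : ℕ} (hz0 : z0 ∈ Z0)
    (h : ∀ f, N.IsNonloop f → ∃ Z, N.IsCircuit Z ∧ f ∉ N.closure Z ∧ 3 ≤ Z.ncard ∧
      Z ⊆ comp N z0 ∧ ∃ z ∈ Z, ∃ z', Twin N z z') : Dp N z0 3 := by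
  have hz0E := hZ0.subset_ground hz0
  obtain ⟨w, hw, hwz⟩ := exists_ne_of_two_le (Z := Z0) (by omega) z0
  apply dp_step hz0E ⟨w, mem_comp_of_circuit hZ0 hz0 hw, hwz⟩
  intro f hf
  have hfnl := nonloop_of_mem_comp hZ0 (by omega) hz0 hf
  have hfE := hfnl.mem_ground
  constructor
  · obtain ⟨Z, hZ, hcl, h3, hK, z, hz, z', hzz⟩ := h f hfnl
    have hnz : z ∉ N.closure {f} := by
      intro h1
      apply hcl
      have h2 := par_symm (twin_nonloop hzz).1 h1
      exact N.closure_subset_closure (by simpa using hz) h2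
    exact ⟨z, hK hz, fun h => hcl (h ▸ N.mem_closure_of_mem hz hZ.subset_ground),
      p3 (persist hZ hfE hcl) h3 hz (twin_contract hzz hfE hnz) hz⟩
  · obtain ⟨w, hw', hwf, hd⟩ := del_aux ∅ hZ0 h03 (fun z hz => Or.inr (htw0 z hz)) hz0 hw hwz.symm
      (by simp) (by simp) (f := f) (by simp)
    exact ⟨w, hw', hwf, hd⟩

end Pool.Agent.Helper311_CD
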