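import Pool.Agent.Helper311_CD.LHat
import Pool.Agent.Helper311_CD.Low

set_option autoImplicit false

namespace Pool.Agent.Helper311_CD

open Set Matroid H211.MC

instance Mb_fin : Mb.Finite := ⟨E0_finite⟩

lemma ctx_Mb : Ctx Mb := ⟨Subset.rfl, restrict_ground_eq_self Mb⟩

lemma connected_of_base {N : Matroid ℕ} [N.Finite] {b : ℕ} (h : ∀ w ∈ N.E, w ∈ comp N b) :
    Connected N :=
  connected_of_pairs (fun x hx y hy hxy => comp_pair (h x hx) (h y hy) hxy)

/-- matroids of rank zero have depth one -/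
lemma loops_depth {T : Matroid ℕ → Matroid ℕ → Prop} {Q : Matroid ℕ} [Q.Finite]
    (hne : Q.E.Nonempty) (h : ∀ I, Q.Indep I → I = ∅) : DepthLE T Q 1 := by
  have hno : ∀ x y Z, x ≠ y → Q.IsCircuit Z → x ∈ Z → y ∈ Z → False := by
    intro x y Z hxy hZ hx hy
    have hd : Q.Dep {x} := ⟨fun hi => (singleton_ne_empty x) (h _ hi),
      by simpa using hZ.subset_ground hx⟩
    have e := hZ.eq_of_dep_subset hd (by simpa using hx)
    rw [← e] at hy
    exact hxy (by simpa using hy.symm)
  have hpos := (Set.ncard_pos Q.ground_finite).2 hne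
  by_cases h1 : Q.E.ncard = 1
  · exact .one h1 le_rfl
  · refine .comps (by omega) ?_ ?_
    · intro hconn
      obtain ⟨x, hx⟩ := hne
      obtain ⟨y, hy, hyx⟩ := exists_ne_of_two_le (Z := Q.E) (by omega) x
      obtain ⟨Z, hZ, h3, h4⟩ := pairs_of_connected hconn x hx y hy hyx.symm
      exact hno x y Z hyx.symm hZ h3 h4
    · intro K hK
      obtain ⟨a, ha⟩ := component_nonempty hne hK
      have e : K = {a} := by
        apply subset_antisymm
        · intro b hb
          by_contra hab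
          obtain ⟨Z, hZ, h3, h4⟩ := hK.prop.2 b hb a ha hab
          exact hno b a Z hab hZ h3 h4
        · simpa using ha
      apply DepthLE.one _ le_rfl
      rw [restrict_ground_eq, e, ncard_singleton]

/-- rank one matroid on `X` -/
noncomputable def U1 (X : Set ℕ) : Matroid ℕ :=
  ((freeOn ({0} : Set ℕ)).comap (fun _ => 0)).restrict X

lemma U1_indep {X I : Set ℕ} : (U1 X).Indep I ↔ I.Subsingleton ∧ I ⊆ X := by
  unfold U1
  rw [restrict_indep_iff, comap_indep_iff, freeOn_indep_iff]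
  constructor
  · rintro ⟨⟨-, h2⟩, h3⟩
    exact ⟨fun x hx y hy => h2 hx hy rfl, h3⟩
  · rintro ⟨h1, h2⟩
    exact ⟨⟨by rintro _ ⟨x, -, rfl⟩; rfl, fun x hx y hy _ => h1 hx hy⟩, h2⟩

lemma R1 {Q : Matroid ℕ} [Q.Finite] (hne : Q.E.Nonempty) (hc : Connected Q)
    (hp : ∀ x ∈ Q.E, ∀ y ∈ Q.E, x ≠ y → ¬ Q.Indep {x, y}) : DepthLE CStarD Q 2 := by
  have hpos := (Set.ncard_pos Q.ground_finite).2 hne
  by_cases h1 : Q.E.ncard = 1
  · exact .one h1 (by omega)
  have h2 : 2 ≤ Q.E.ncard := by omega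
  have hnl : ∀ a ∈ Q.E, Q.IsNonloop a := by
    intro a ha
    obtain ⟨b, hb, hba⟩ := exists_ne_of_two_le (Z := Q.E) h2 a
    obtain ⟨Z, hZ, h3, h4⟩ := pairs_of_connected hc a ha b hb hba.symm
    exact circuit_nonloop hZ h3 h4 hba
  obtain ⟨f, hf⟩ := Q.ground_finite.exists_notMem
  have hN : (U1 (insert f Q.E)).Finite := ⟨(Q.ground_finite.insert f)⟩
  have hfnl : (U1 (insert f Q.E)).IsNonloop f := by
    rw [← indep_singleton, U1_indep]
    exact ⟨subsingleton_singleton, by simp⟩
  have hdel : (U1 (insert f Q.E)).delete {f} = Q := by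
    apply ext_indep
    · change insert f Q.E \ {f} = Q.E
      rw [insert_sdiff_self_of_notMem hf]
    · intro I hI
      have hI' : I ⊆ Q.E := by
        have e : ((U1 (insert f Q.E)).delete {f}).E = Q.E := by
          change insert f Q.E \ {f} = Q.E
          rw [insert_sdiff_self_of_notMem hf]
        rwa [e] at hI
      rw [delete_indep_iff, U1_indep]
      constructor
      · rintro ⟨⟨h3, -⟩, -⟩
        rcases h3.eq_empty_or_singleton with rfl | ⟨a, rfl⟩
        · exact Q.empty_indep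
        · rw [indep_singleton]; exact hnl a (hI' rfl)
      · intro hi
        refine ⟨⟨?_, hI'.trans (subset_insert _ _)⟩, ?_⟩
        · intro a ha b hb
          by_contra hab
          exact hp a (hI' ha) b (hI' hb) hab (hi.subset (by
            intro x hx
            rcases hx with rfl | hx
            · exact ha
            · rw [mem_singleton_iff] at hx; rw [hx]; exact hb))
        · rw [disjoint_singleton_right]; exact fun hh => hf (hI' hh)
  refine .step h2 hc (Or.inl ⟨U1 (insert f Q.E), f, hf, rfl, hdel, hfnl.not_isLoop, rfl⟩) ?_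
  have hE : ((U1 (insert f Q.E)).contract {f}).E = Q.E := by
    change insert f Q.E \ {f} = Q.E
    rw [insert_sdiff_self_of_notMem hf]
  apply loops_depth (by rw [hE]; exact hne)
  intro I hI
  rw [hfnl.contractElem_indep_iff, U1_indep] at hI
  obtain ⟨h3, h4, -⟩ := hI
  rw [eq_empty_iff_forall_notMem]
  intro x hx
  exact h3 (h4 (Or.inr hx) (Or.inl rfl) ▸ hx)

lemma R2 {Q : Matroid ℕ} [Q.Finite] (hne : Q.E.Nonempty)
    (hcirc : ∀ Z, Q.IsCircuit Z → ∀ x ∈ Z, ∀ y ∈ Z, x ≠ y → ¬ Q.Indep {x, y}) :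
    DepthLE CStarD Q 2 := by
  by_cases hconn : Connected Q
  · apply R1 hne hconn
    intro x hx y hy hxy
    obtain ⟨Z, hZ, h3, h4⟩ := pairs_of_connected hconn x hx y hy hxy
    exact hcirc Z hZ x h3 y h4 hxy
  have hpos := (Set.ncard_pos Q.ground_finite).2 hne
  by_cases h1 : Q.E.ncard = 1
  · exact .one h1 (by omega)
  refine .comps (by omega) hconn ?_
  intro K hK
  have hKf : (Q.restrict K).Finite := restrict_finite hK.prop.1
  refine R1 (component_nonempty hne hK) (connected_restrict hK) ?_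
  intro x hx y hy hxy hi
  obtain ⟨Z, hZ, h3, h4⟩ := hK.prop.2 x hx y hy hxy
  exact hcirc Z hZ x h3 y h4 hxy (restrict_indep_iff.1 hi).1

lemma class_set {I : Set ℕ} (hI : I.Finite) :
    ∃ Y : Finset ℕ, (fun n => n / 4) '' I = (↑Y : Set ℕ) := by
  classical
  refine ⟨hI.toFinset.image (fun n => n / 4), ?_⟩
  rw [Finset.coe_image, Set.Finite.coe_toFinset]

lemma Mb_indep_iff {I : Set ℕ} (hI : I ⊆ E0) {Y : Finset ℕ}
    (hY : (fun n => n / 4) '' I = (↑Y : Set ℕ)) :
    Mb.Indep I ↔ HIndep Y ∧ InjOn (fun n => n / 4) I := by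
  rw [Mb_indep, hY, Mhat_indep]
  exact ⟨fun h => h.1, fun h => ⟨h, hI⟩⟩

/-- both thin elements deleted -/
noncomputable def M2 : Matroid ℕ := (Mb.delete {24}).delete {28}

instance M2_fin : M2.Finite := by unfold M2; infer_instance

lemma M2_ground {n : ℕ} : n ∈ M2.E ↔ n ∈ E0 ∧ n ≠ 24 ∧ n ≠ 28 := by
  change ((n ∈ E0 ∧ n ∉ ({24} : Set ℕ)) ∧ n ∉ ({28} : Set ℕ)) ↔ _
  simp only [mem_singleton_iff]
  tauto

lemma M2_indep {I : Set ℕ} (hI : I ⊆ M2.E) : M2.Indep I ↔ Mb.Indep I := by
  unfold M2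
  rw [delete_indep_iff, delete_indep_iff, disjoint_singleton_right, disjoint_singleton_right]
  exact ⟨fun h => h.1.1, fun h => ⟨⟨h, fun hh => (M2_ground.1 (hI hh)).2.1 rfl⟩,
    fun hh => (M2_ground.1 (hI hh)).2.2 rfl⟩⟩

lemma M2_circuit {Z : Set ℕ} (hZ : M2.IsCircuit Z) : Mb.IsCircuit Z := by
  unfold M2 at hZ
  exact (delete_isCircuit_iff.1 (delete_isCircuit_iff.1 hZ).1).1

lemma M2_class {n : ℕ} (hn : n ∈ M2.E) : n / 4 ∈ Finset.range 32 \ {6, 7} := by
  obtain ⟨h1, h2, h3⟩ := M2_ground.1 hn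
  rw [Finset.mem_sdiff]
  refine ⟨E0_class h1, ?_⟩
  rw [Finset.mem_insert, Finset.mem_singleton, not_or]
  exact ⟨fun h => h2 (h1.2.1 h), fun h => h3 (h1.2.2 h)⟩

lemma M2_circ_class {Z : Set ℕ} (hZ : M2.IsCircuit Z) {g : ℕ} (hg : g ∈ Z) (hg8 : 8 ≤ g / 4) :
    ∀ w ∈ Z, w / 4 = g / 4 := by
  intro w hw
  by_contra hwg
  have hZb := M2_circuit hZ
  have hZE := hZ.subset_ground
  have hZ0 : Z ⊆ E0 := fun x hx => (M2_ground.1 (hZE hx)).1
  have hinj : InjOn (fun n => n / 4) Z := by
    intro a ha b hb hab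
    by_contra hne
    have ht := Mb_twin (hZ0 ha) (hZ0 hb) (Ne.symm hne) hab
    have e := ht.2.eq_of_subset_isCircuit hZb (by
      intro x hx
      rcases hx with rfl | hx
      · exact ha
      · rw [mem_singleton_iff] at hx; rw [hx]; exact hb)
    rw [← e] at hg hw
    simp only at hab
    have e1 : g / 4 = a / 4 := by
      rcases hg with rfl | hg
      · rfl
      · rw [mem_singleton_iff] at hg; rw [hg, hab]
    have e2 : w / 4 = a / 4 := by
      rcases hw with rfl | hw
      · rfl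
      · rw [mem_singleton_iff] at hw; rw [hw, hab]
    exact hwg (e2.trans e1.symm)
  obtain ⟨Y, hY⟩ := class_set (E0_finite.subset hZ0)
  have hYF : Y ⊆ Finset.range 32 \ {6, 7} := by
    intro q hq
    have : q ∈ (fun n => n / 4) '' Z := by rw [hY]; exact_mod_cast hq
    obtain ⟨n, hn, rfl⟩ := this
    exact M2_class (hZE hn)
  have hYe : (fun n => n / 4) '' (Z \ {g}) = (↑(Y.erase (g / 4)) : Set ℕ) := by
    ext q
    rw [Finset.coe_erase, ← hY]
    constructor
    · rintro ⟨n, ⟨hn, hng⟩, rfl⟩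
      exact ⟨⟨n, hn, rfl⟩, fun hh => hng (hinj hn hg hh)⟩
    · rintro ⟨⟨n, hn, rfl⟩, hne⟩
      exact ⟨n, ⟨hn, fun hh => hne (by rw [mem_singleton_iff] at hh; rw [hh]; rfl)⟩, rfl⟩
  have hi := hZb.sdiff_singleton_indep hg
  rw [Mb_indep_iff (sdiff_subset.trans hZ0) hYe] at hi
  have hH : HIndep Y := by
    apply HIndep_YF hYF
    intro S hS hSY
    have h3 : S ∈ Sp ∧ g / 4 ∉ S := by
      have : ∀ S ∈ ([{0, 1, 2, 3}, {0, 1, 4, 5}, {2, 3, 4, 5}] : List (Finset ℕ)),
          S ∈ Sp ∧ S ⊆ Finset.range 6 := by decide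
      obtain ⟨h4, h5⟩ := this S hS
      refine ⟨h4, fun hh => ?_⟩
      have := Finset.mem_range.1 (h5 hh)
      omega
    apply hi.1.2.2 S h3.1
    intro x hx
    exact Finset.mem_erase.2 ⟨fun hh => h3.2 (hh ▸ hx), hSY hx⟩
  exact hZb.not_indep ((Mb_indep_iff hZ0 hY).2 ⟨hH, hinj⟩)

/-- components inside the three lines -/
lemma line_depth {C : Set ℕ} (hC : IsComponent M2 C) (hC24 : ∀ c ∈ C, c < 24)
    (hne : C.Nonempty) : DepthLE CStarD (M2.restrict C) 3 := by
  have hCf : C.Finite := M2.ground_finite.subset hC.prop.1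
  have hpos := (Set.ncard_pos hCf).2 hne
  by_cases h1 : C.ncard = 1
  · exact .one (by rw [restrict_ground_eq]; exact h1) (by omega)
  have h24C : 24 ∉ C := fun h => by have := hC24 24 h; omega
  set N : Matroid ℕ := (Lhat.comap (fun n => n / 4)).restrict (insert 24 C) with hN
  have hNi : ∀ I, N.Indep I ↔
      (Lhat.Indep ((fun n => n / 4) '' I) ∧ InjOn (fun n => n / 4) I) ∧ I ⊆ insert 24 C := by
    intro I
    rw [hN, restrict_indep_iff, comap_indep_iff]
  have hNE : N.E = insert 24 C := rfl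
  have hNf : N.Finite := ⟨by rw [hNE]; exact hCf.insert 24⟩
  have hnl : N.IsNonloop 24 := by
    rw [← indep_singleton, hNi]
    refine ⟨⟨?_, injOn_singleton _ _⟩, by simp⟩
    rw [image_singleton]
    have := (Lhat_indep {6}).2 (by decide)
    simpa using this
  have hcls : ∀ I ⊆ C, ∀ Y : Finset ℕ, (fun n => n / 4) '' I = (↑Y : Set ℕ) →
      Y ∈ (Finset.range 6).powerset := by
    intro I hI Y hY
    rw [Finset.mem_powerset]
    intro q hq
    have : q ∈ (fun n => n / 4) '' I := by rw [hY]; exact_mod_cast hq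
    obtain ⟨n, hn, rfl⟩ := this
    have := hC24 n (hI hn)
    rw [Finset.mem_range]
    change n / 4 < 6
    omega
  have hdel : N.delete {24} = M2.restrict C := by
    have hE : (N.delete {24}).E = C := by
      change insert 24 C \ {24} = C
      rw [insert_sdiff_self_of_notMem h24C]
    apply ext_indep
    · rw [hE, restrict_ground_eq]
    · intro I hI
      rw [hE] at hI
      obtain ⟨Y, hY⟩ := class_set (hCf.subset hI)
      have hY6 := hcls I hI Y hY
      have hI0 : I ⊆ E0 := fun x hx => (M2_ground.1 (hC.prop.1 (hI hx))).1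
      rw [delete_indep_iff, hNi, restrict_indep_iff, M2_indep (hI.trans hC.prop.1),
        Mb_indep_iff hI0 hY, hY, Lhat_indep, L_H Y hY6, disjoint_singleton_right]
      constructor
      · rintro ⟨⟨h3, -⟩, -⟩
        exact ⟨h3, hI⟩
      · rintro ⟨h3, -⟩
        exact ⟨⟨h3, hI.trans (subset_insert _ _)⟩, fun hh => h24C (hI hh)⟩
  refine .step (by rw [restrict_ground_eq]; omega) (connected_restrict hC)
    (Or.inl ⟨N, 24, h24C, rfl, hdel, hnl.not_isLoop, rfl⟩) ?_
  have hcE : (N.contract {24}).E = C := by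
    change insert 24 C \ {24} = C
    rw [insert_sdiff_self_of_notMem h24C]
  apply R2 (by rw [hcE]; exact hne)
  intro Z hZ x hx y hy hxy hxyi
  have hZC : Z ⊆ C := by rw [← hcE]; exact hZ.subset_ground
  have hpair : ∀ a ∈ Z, ∀ b ∈ Z, (N.contract {24}).Indep {a, b} := by
    intro a ha b hb
    by_contra hno
    have hsub : ({a, b} : Set ℕ) ⊆ Z := by
      intro v hv
      rcases hv with rfl | hv
      · exact ha
      · rw [mem_singleton_iff] at hv; rw [hv]; exact hb
    have e := hZ.eq_of_not_indep_subset hno hsub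
    have hs2 : ({x, y} : Set ℕ) ⊆ {a, b} := by
      rw [e]
      intro v hv
      rcases hv with rfl | hv
      · exact hx
      · rw [mem_singleton_iff] at hv; rw [hv]; exact hy
    have e2 : ({x, y} : Set ℕ) = {a, b} := by
      apply Set.eq_of_subset_of_ncard_le hs2 _ (by simp)
      rw [Set.ncard_pair hxy]
      exact (Set.ncard_insert_le _ _).trans (by simp)
    rw [e2] at hxyi
    exact hno hxyi
  have hfact : ∀ a ∈ Z, ∀ b ∈ Z, LIndep (insert 6 {a / 4, b / 4}) ∧
      InjOn (fun n => n / 4) (insert 24 {a, b}) := by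
    intro a ha b hb
    have h3 := hpair a ha b hb
    rw [hnl.contractElem_indep_iff, hNi] at h3
    obtain ⟨-, ⟨h4, h5⟩, -⟩ := h3
    refine ⟨?_, h5⟩
    have e : (fun n => n / 4) '' (insert 24 {a, b} : Set ℕ) =
        (↑(insert 6 {a / 4, b / 4} : Finset ℕ) : Set ℕ) := by
      simp only [image_insert_eq, image_singleton, Finset.coe_insert, Finset.coe_singleton]
    rw [e, Lhat_indep] at h4
    exact h4
  obtain ⟨Y, hY⟩ := class_set (hCf.subset hZC)
  have hY6 := hcls Z hZC Y hY
  apply hZ.not_indep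
  rw [hnl.contractElem_indep_iff, hNi]
  refine ⟨fun hh => h24C (hZC hh), ⟨?_, ?_⟩, ?_⟩
  · have e : (fun n => n / 4) '' (insert 24 Z) = (↑(insert 6 Y : Finset ℕ) : Set ℕ) := by
      rw [image_insert_eq, hY, Finset.coe_insert]
    rw [e, Lhat_indep]
    apply L_pairs Y hY6
    intro a ha b hb
    have ha' : a ∈ (fun n => n / 4) '' Z := by rw [hY]; exact_mod_cast ha
    have hb' : b ∈ (fun n => n / 4) '' Z := by rw [hY]; exact_mod_cast hb
    obtain ⟨a', ha', rfl⟩ := ha'
    obtain ⟨b', hb', rfl⟩ := hb'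
    exact (hfact a' ha' b' hb').1
  · intro a ha b hb hab
    rcases ha with rfl | ha
    · rcases hb with rfl | hb
      · rfl
      · exact (hfact b hb b hb).2 (by simp) (by simp) hab
    · rcases hb with rfl | hb
      · exact (hfact a ha a ha).2 (by simp) (by simp) hab
      · exact (hfact a ha b hb).2 (by simp) (by simp) hab
  · exact insert_subset_insert hZC

lemma M2_depth : DepthLE CStarD M2 3 := by
  have h0 : (0 : ℕ) ∈ M2.E := M2_ground.2 ⟨by simp [E0], by decide, by decide⟩
  have h32 : (32 : ℕ) ∈ M2.E := M2_ground.2 ⟨by simp [E0], by decide, by decide⟩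
  have hnc : ¬ Connected M2 := by
    intro hc
    obtain ⟨Z, hZ, h3, h4⟩ := pairs_of_connected hc 0 h0 32 h32 (by decide)
    have := M2_circ_class hZ h4 (by decide) 0 h3
    omega
  refine .comps ?_ hnc ?_
  · have := Set.ncard_le_ncard (s := {0, 32}) (t := M2.E) (by
      intro x hx
      rcases hx with rfl | hx
      · exact h0
      · rw [mem_singleton_iff] at hx; rw [hx]; exact h32) M2.ground_finite
    rwa [Set.ncard_pair (by decide)] at this
  · intro C hC
    obtain ⟨c, hc⟩ := component_nonempty ⟨0, h0⟩ hC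
    by_cases hbig : ∃ g ∈ C, 8 ≤ g / 4
    · obtain ⟨g, hg, hg8⟩ := hbig
      have hcl : ∀ w ∈ C, w / 4 = g / 4 := by
        intro w hw
        by_cases hwg : w = g
        · rw [hwg]
        · obtain ⟨Z, hZ, h3, h4⟩ := hC.prop.2 w hw g hg hwg
          exact M2_circ_class hZ h4 hg8 w h3
      have hCf : (M2.restrict C).Finite := restrict_finite hC.prop.1
      refine (R1 ⟨c, hc⟩ (connected_restrict hC) ?_).mono 3 (by omega)
      intro x hx y hy hxy hi
      have hi1 := (restrict_indep_iff.1 hi).1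
      have hxE := hC.prop.1 hx
      have hyE := hC.prop.1 hy
      rw [M2_indep (by
        intro v hv
        rcases hv with rfl | hv
        · exact hxE
        · rw [mem_singleton_iff] at hv; rw [hv]; exact hyE)] at hi1
      exact (Mb_twin (M2_ground.1 hxE).1 (M2_ground.1 hyE).1 hxy.symm
        ((hcl x hx).trans (hcl y hy).symm)).2.not_indep hi1
    · push Not at hbig
      refine line_depth hC (fun w hw => ?_) ⟨c, hc⟩
      have h8 := hbig w hw
      have hwE := hC.prop.1 hw
      have := M2_class hwE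
      rw [Finset.mem_sdiff, Finset.mem_insert, Finset.mem_singleton] at this
      omega

/-- the upper bound -/
theorem upper : DepthLE CStarD Mb 5 := by
  have h0 : (0 : ℕ) ∈ E0 := by simp [E0]
  have h1 : (1 : ℕ) ∈ E0 := by simp [E0]
  have h24 : (24 : ℕ) ∈ E0 := by simp [E0]
  have h28 : (28 : ℕ) ∈ E0 := by simp [E0]
  have hpair : ∀ X : Set ℕ, X.Finite → 0 ∈ X → 1 ∈ X → 2 ≤ X.ncard := by
    intro X hX a b
    have := Set.ncard_le_ncard (s := {0, 1}) (t := X) (by
      intro x hx
      rcases hx with rfl | hx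
      · exact a
      · rw [mem_singleton_iff] at hx; rw [hx]; exact b) hX
    rwa [Set.ncard_pair (by decide)] at this
  refine .step (M' := Mb.delete {24}) (hpair _ E0_finite h0 h1)
    (connected_of_base (b := 28) (fun w hw => linked_self ctx_Mb hw))
    (Or.inr ⟨24, h24, rfl⟩) ?_
  refine .step (M' := M2) (hpair _ (E0_finite.subset sdiff_subset) ⟨h0, by simp⟩ ⟨h1, by simp⟩)
    (connected_of_base (b := 28) (fun w hw => ?_)) (Or.inr ⟨28, ⟨h28, by simp⟩, rfl⟩) M2_depth
  have hw0 : w ∈ E0 := hw.1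
  have hwne : w ≠ 24 := hw.2
  exact linked_del ctx_Mb (f := 24) (θ := 7) (θ' := 6) (by decide) (by decide) (by decide)
    (by decide) hw0 hwne

end Pool.Agent.Helper311_CD
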